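import Mathlib

namespace Run7.h831.QS
open PowerSeries Finset

/-- The ring of integral power series. -/
abbrev R := PowerSeries ℤ

/-- Inverse of a power series with constant coefficient one. -/
noncomputable def I (a : R) : R := PowerSeries.invOfUnit a 1

lemma mul_I {a : R} (h : constantCoeff a = 1) : a * I a = 1 :=
  PowerSeries.mul_invOfUnit a 1 (by simpa using h)

lemma I_mul {a : R} (h : constantCoeff a = 1) : I a * a = 1 := by
  rw [mul_comm]; exact mul_I h

lemma I_unique {a b : R} (h : a * b = 1) (ha : constantCoeff a = 1) : I a = b := by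
  have h1 := mul_I ha
  calc I a = I a * (a * b) := by rw [h, mul_one]
    _ = (a * I a) * b := by ring
    _ = b := by rw [h1, one_mul]

lemma I_one : I (1 : R) = 1 := I_unique (by simp) (by simp)

lemma I_cc {a : R} (h : constantCoeff a = 1) : constantCoeff (I a) = 1 := by
  have := congrArg constantCoeff (mul_I h)
  simpa [h] using this

lemma I_mul_I {a b : R} (ha : constantCoeff a = 1) (hb : constantCoeff b = 1) :
    I (a * b) = I a * I b := by
  apply I_unique
  · calc a * b * (I a * I b) = (a * I a) * (b * I b) := by ring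
      _ = 1 := by rw [mul_I ha, mul_I hb, one_mul]
  · simp [ha, hb]

lemma cc_prod {ι : Type*} (s : Finset ι) (f : ι → R) (h : ∀ i ∈ s, constantCoeff (f i) = 1) :
    constantCoeff (∏ i ∈ s, f i) = 1 := by
  rw [map_prod]; exact Finset.prod_eq_one h

lemma I_prod {ι : Type*} (s : Finset ι) (f : ι → R) (h : ∀ i ∈ s, constantCoeff (f i) = 1) :
    I (∏ i ∈ s, f i) = ∏ i ∈ s, I (f i) := by
  apply I_unique
  · rw [← Finset.prod_mul_distrib]
    exact Finset.prod_eq_one (fun i hi => mul_I (h i hi))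
  · exact cc_prod s f h

lemma cancel {a b c : R} (hc : constantCoeff c = 1) (h : c * a = c * b) : a = b := by
  have := congrArg (fun t => I c * t) h
  simpa [← mul_assoc, I_mul hc] using this

lemma cc_X_pow {k : ℕ} (hk : 0 < k) : constantCoeff ((X : R) ^ k) = 0 := by
  simp [hk.ne']

lemma cc_one_sub {k : ℕ} (hk : 0 < k) : constantCoeff (1 - (X : R) ^ k) = 1 := by
  simp [hk.ne']

lemma cc_one_add {k : ℕ} (hk : 0 < k) : constantCoeff (1 + (X : R) ^ k) = 1 := by
  simp [hk.ne']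

/-- convergence of a sequence of power series in the `X`-adic sense -/
def Lim (s : ℕ → R) (a : R) : Prop := ∀ L : ℕ, ∃ M0 : ℕ, ∀ M, M0 ≤ M → (X : R) ^ L ∣ s M - a

lemma eq_of_forall_dvd {a b : R} (h : ∀ L : ℕ, (X : R) ^ L ∣ a - b) : a = b := by
  rw [← sub_eq_zero]
  ext n
  have := h (n + 1)
  rw [PowerSeries.X_pow_dvd_iff] at this
  simpa using this n (Nat.lt_succ_self n)

lemma Lim.unique {s : ℕ → R} {a b : R} (ha : Lim s a) (hb : Lim s b) : a = b := by
  apply eq_of_forall_dvd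
  intro L
  obtain ⟨M1, h1⟩ := ha L
  obtain ⟨M2, h2⟩ := hb L
  have e : a - b = (s (max M1 M2) - b) - (s (max M1 M2) - a) := by ring
  rw [e]
  exact dvd_sub (h2 _ (le_max_right _ _)) (h1 _ (le_max_left _ _))

lemma Lim.const (a : R) : Lim (fun _ => a) a := fun L => ⟨0, fun M _ => by simp⟩

lemma Lim.add {s t : ℕ → R} {a b : R} (ha : Lim s a) (hb : Lim t b) :
    Lim (fun M => s M + t M) (a + b) := by
  intro L
  obtain ⟨M1, h1⟩ := ha L
  obtain ⟨M2, h2⟩ := hb L
  refine ⟨max M1 M2, fun M hM => ?_⟩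
  have e : s M + t M - (a + b) = (s M - a) + (t M - b) := by ring
  rw [e]
  exact dvd_add (h1 _ ((le_max_left _ _).trans hM)) (h2 _ ((le_max_right _ _).trans hM))

lemma Lim.mul {s t : ℕ → R} {a b : R} (ha : Lim s a) (hb : Lim t b) :
    Lim (fun M => s M * t M) (a * b) := by
  intro L
  obtain ⟨M1, h1⟩ := ha L
  obtain ⟨M2, h2⟩ := hb L
  refine ⟨max M1 M2, fun M hM => ?_⟩
  have e : s M * t M - (a * b) = (s M - a) * t M + a * (t M - b) := by ring
  rw [e]
  exact dvd_add (Dvd.dvd.mul_right (h1 _ ((le_max_left _ _).trans hM)) _)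
    (Dvd.dvd.mul_left (h2 _ ((le_max_right _ _).trans hM)) _)

lemma Lim.neg {s : ℕ → R} {a : R} (ha : Lim s a) : Lim (fun M => - s M) (-a) := by
  have := (Lim.const (-1)).mul ha
  simpa using this

lemma Lim.sub {s t : ℕ → R} {a b : R} (ha : Lim s a) (hb : Lim t b) :
    Lim (fun M => s M - t M) (a - b) := by
  simpa [sub_eq_add_neg] using ha.add hb.neg

lemma Lim.pow {s : ℕ → R} {a : R} (ha : Lim s a) (k : ℕ) : Lim (fun M => s M ^ k) (a ^ k) := by
  induction k with
  | zero => simpa using Lim.const 1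
  | succ k ih => simpa [pow_succ] using ih.mul ha

lemma Lim.cc {s : ℕ → R} {a : R} (ha : Lim s a) (h : ∀ M, constantCoeff (s M) = 1) :
    constantCoeff a = 1 := by
  obtain ⟨M1, h1⟩ := ha 1
  have := h1 M1 le_rfl
  rw [pow_one, PowerSeries.X_dvd_iff] at this
  simp only [map_sub, h, sub_eq_zero] at this
  exact this.symm

lemma Lim.inv {s : ℕ → R} {a : R} (ha : Lim s a) (h : ∀ M, constantCoeff (s M) = 1) :
    Lim (fun M => I (s M)) (I a) := by
  have hc := ha.cc h
  intro L
  obtain ⟨M1, h1⟩ := ha L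
  refine ⟨M1, fun M hM => ?_⟩
  have e : I (s M) - I a = - (s M - a) * (I (s M) * I a) := by
    have e1 := mul_I (h M)
    have e2 := mul_I hc
    linear_combination (I a) * e1 - (I (s M)) * e2
  rw [e]
  exact Dvd.dvd.mul_right ((dvd_neg).2 (h1 M hM)) _

lemma Lim.congr {s t : ℕ → R} {a : R} (ha : Lim s a) (h : ∀ M, s M = t M) : Lim t a := by
  have : s = t := funext h
  rwa [this] at ha

lemma Lim.congr' {s t : ℕ → R} {a : R} (ha : Lim s a) (h : Lim (fun M => s M - t M) 0) :
    Lim t a := by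
  have := ha.sub h
  simpa using this

/-- zero limit from divisibility -/
lemma Lim.of_dvd {s : ℕ → R} (h : ∀ M, (X : R) ^ M ∣ s M) : Lim s 0 := by
  intro L
  refine ⟨L, fun M hM => ?_⟩
  simpa using (pow_dvd_pow _ hM).trans (h M)

lemma Lim.shift {s : ℕ → R} {a : R} (ha : Lim s a) (k : ℕ) : Lim (fun M => s (M + k)) a := by
  intro L
  obtain ⟨M1, h1⟩ := ha L
  exact ⟨M1, fun M hM => h1 _ (by omega)⟩

lemma Lim.comp {s : ℕ → R} {a : R} (ha : Lim s a) (f : ℕ → ℕ) (hf : ∀ n, ∃ M0, ∀ M, M0 ≤ M → n ≤ f M) :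
    Lim (fun M => s (f M)) a := by
  intro L
  obtain ⟨M1, h1⟩ := ha L
  obtain ⟨M2, h2⟩ := hf M1
  exact ⟨M2, fun M hM => h1 _ (h2 M hM)⟩

/-- the limit of a sequence -/
noncomputable def limR (s : ℕ → R) : R := PowerSeries.mk fun n => coeff n (s (n + 1))

lemma limR_dvd {s : ℕ → R} (h : ∀ n, (X : R) ^ n ∣ s (n + 1) - s n) {L M : ℕ} (hM : L ≤ M) :
    (X : R) ^ L ∣ s M - limR s := by
  have key : ∀ t n : ℕ, (X : R) ^ n ∣ s (n + t) - s n := by
    intro t
    induction t with
    | zero => intro n; simp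
    | succ t ih =>
      intro n
      have e : s (n + (t + 1)) - s n = (s (n + t + 1) - s (n + t)) + (s (n + t) - s n) := by
        rw [show n + (t + 1) = n + t + 1 by ring]; ring
      rw [e]
      exact dvd_add ((pow_dvd_pow _ (Nat.le_add_right n t)).trans (h (n + t))) (ih n)
  rw [PowerSeries.X_pow_dvd_iff]
  intro m hm
  rw [map_sub, limR, coeff_mk, ← map_sub]
  have h2 := key (M - (m + 1)) (m + 1)
  rw [show m + 1 + (M - (m + 1)) = M by omega, PowerSeries.X_pow_dvd_iff] at h2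
  exact h2 m (Nat.lt_succ_self m)

lemma Lim_limR {s : ℕ → R} (h : ∀ n, (X : R) ^ n ∣ s (n + 1) - s n) : Lim s (limR s) :=
  fun L => ⟨L, fun _ hM => limR_dvd h hM⟩

/-- sums -/
lemma Lim_sum {a : ℕ → R} (h : ∀ n, (X : R) ^ n ∣ a n) :
    Lim (fun M => ∑ j ∈ range M, a j) (limR (fun M => ∑ j ∈ range M, a j)) := by
  apply Lim_limR
  intro n
  rw [sum_range_succ, add_sub_cancel_left]
  exact h n

/-- products -/
lemma Lim_prod {a : ℕ → R} (h : ∀ n, (X : R) ^ n ∣ a n - 1) :
    Lim (fun M => ∏ j ∈ range M, a j) (limR (fun M => ∏ j ∈ range M, a j)) := by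
  apply Lim_limR
  intro n
  rw [prod_range_succ]
  have e : (∏ x ∈ range n, a x) * a n - ∏ x ∈ range n, a x = (∏ x ∈ range n, a x) * (a n - 1) := by
    ring
  rw [e]
  exact Dvd.dvd.mul_left (h n) _

/-- dominated convergence -/
lemma Lim_dom {u : ℕ → ℕ → R} {v : ℕ → R} {s : R} (hd : ∀ M k, (X : R) ^ k ∣ u M k)
    (hl : ∀ k, Lim (fun M => u M k) (v k)) (hs : Lim (fun M => ∑ k ∈ range M, v k) s) :
    Lim (fun M => ∑ k ∈ range M, u M k) s := by
  have hv : ∀ k, (X : R) ^ k ∣ v k := by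
    intro k
    obtain ⟨M1, h1⟩ := hl k k
    have e : v k = u M1 k - (u M1 k - v k) := by ring
    rw [e]
    exact dvd_sub (hd _ _) (h1 _ le_rfl)
  intro L
  choose f hf using fun k => hl k L
  obtain ⟨M1, h1⟩ := hs L
  refine ⟨max (max M1 L) (∑ k ∈ range L, f k), fun M hM => ?_⟩
  have hM1 : M1 ≤ M := (le_max_left _ _).trans ((le_max_left _ _).trans hM)
  have hML : L ≤ M := (le_max_right _ _).trans ((le_max_left _ _).trans hM)
  have hMf : ∑ k ∈ range L, f k ≤ M := (le_max_right _ _).trans hM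
  have e : ∑ k ∈ range M, u M k - s
      = (∑ k ∈ range M, (u M k - v k)) + (∑ k ∈ range M, v k - s) := by
    rw [sum_sub_distrib]; ring
  rw [e]
  refine dvd_add (Finset.dvd_sum fun k _ => ?_) (h1 M hM1)
  by_cases hk : k < L
  · apply hf k M
    refine le_trans ?_ hMf
    exact Finset.single_le_sum (f := f) (fun i _ => Nat.zero_le _) (mem_range.2 hk)
  · push Not at hk
    exact dvd_sub ((pow_dvd_pow _ hk).trans (hd _ _)) ((pow_dvd_pow _ hk).trans (hv _))

end Run7.h831.QS
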