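import Mathlib
import Pool.Agent.Run7.h831.QS.Basic

set_option linter.unusedSimpArgs false
set_option linter.unusedVariables false

namespace Run7.h831.QS
open PowerSeries Finset

/-- field of fractions -/
abbrev K := FractionRing R

/-- the image of `X` -/
noncomputable abbrev q : K := algebraMap R K X

/-- the factor -/
noncomputable def gg (s : ℤ) (k : ℕ) (r : ℤ) (l : ℕ) : R :=
  (if l < k then - ((r * s : ℤ) : R) * X ^ (k - l) else 1) * (1 - (r : R) * X ^ l) ^ 2 *
    I (1 - ((r * s : ℤ) : R) * X ^ (l + k)) * I (1 - ((r * s : ℤ) : R) * X ^ ((l - k) + (k - l)))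

/-- the node -/
noncomputable def nd (s : ℤ) (k : ℕ) : K := (s : K) * (q ^ k + (q ^ k)⁻¹)

lemma aM_inj : Function.Injective (algebraMap R K) := IsFractionRing.injective R K

lemma q_ne : q ≠ 0 := by
  intro h
  have h2 : algebraMap R K X = algebraMap R K 0 := by rw [map_zero]; exact h
  exact X_ne_zero (aM_inj h2)

lemma aM_I {a : R} (h : constantCoeff a = 1) : algebraMap R K (I a) = (algebraMap R K a)⁻¹ := by
  have := congrArg (algebraMap R K) (mul_I h)
  rw [map_mul, map_one] at this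
  exact (inv_eq_of_mul_eq_one_right this).symm

lemma aM_ne {a : R} (h : constantCoeff a = 1) : algebraMap R K a ≠ 0 := by
  intro h0
  rw [← map_zero (algebraMap R K)] at h0
  have := aM_inj h0
  rw [this] at h
  simp at h

lemma cc_sub (t : ℤ) {k : ℕ} (hk : 0 < k) : constantCoeff (1 - (t : R) * X ^ k) = 1 := by
  simp [hk.ne']

lemma q_sub_ne (t : ℤ) {k : ℕ} (hk : 0 < k) : (1 : K) - (t : K) * q ^ k ≠ 0 := by
  have := aM_ne (cc_sub t hk)
  simpa using this

lemma nd_sub (s r : ℤ) (hs : s = 1 ∨ s = -1) (hr : r = 1 ∨ r = -1) (l d : ℕ) (hd : 0 < d) :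
    nd s (l + d) - nd r l =
      (s : K) * (1 - ((r * s : ℤ) : K) * q ^ d) * (1 - ((r * s : ℤ) : K) * q ^ (l + (l + d))) *
        (q ^ (l + d))⁻¹ := by
  have hq := q_ne
  unfold nd
  rcases hs with rfl | rfl <;> rcases hr with rfl | rfl <;> push_cast <;> field_simp <;> ring

lemma two_sub (r : ℤ) (hr : r = 1 ∨ r = -1) (l : ℕ) :
    2 - nd r l = - (r : K) * (1 - (r : K) * q ^ l) ^ 2 * (q ^ l)⁻¹ := by
  have hq := q_ne
  unfold nd
  rcases hr with rfl | rfl <;> push_cast <;> field_simp <;> ring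

lemma nd_ne (s r : ℤ) (hs : s = 1 ∨ s = -1) (hr : r = 1 ∨ r = -1) {k l : ℕ} (h : k ≠ l) :
    nd s k - nd r l ≠ 0 := by
  have hq := q_ne
  rcases lt_or_gt_of_ne h with h1 | h1
  · obtain ⟨d, rfl⟩ := Nat.exists_eq_add_of_lt h1
    rw [show k + d + 1 = k + (d + 1) by ring]
    have := nd_sub r s hr hs k (d + 1) (Nat.succ_pos d)
    rw [← neg_sub, this]
    apply neg_ne_zero.2
    have h2 := q_sub_ne (s * r) (Nat.succ_pos d)
    have h3 := q_sub_ne (s * r) (show 0 < k + (k + (d + 1)) by omega)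
    have h4 : (r : K) ≠ 0 := by rcases hr with rfl | rfl <;> simp
    push_cast at h2 h3 ⊢
    exact mul_ne_zero (mul_ne_zero (mul_ne_zero h4 h2) h3) (inv_ne_zero (pow_ne_zero _ hq))
  · obtain ⟨d, rfl⟩ := Nat.exists_eq_add_of_lt h1
    rw [show l + d + 1 = l + (d + 1) by ring]
    have := nd_sub s r hs hr l (d + 1) (Nat.succ_pos d)
    rw [this]
    have h2 := q_sub_ne (r * s) (Nat.succ_pos d)
    have h3 := q_sub_ne (r * s) (show 0 < l + (l + (d + 1)) by omega)
    have h4 : (s : K) ≠ 0 := by rcases hs with rfl | rfl <;> simp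
    push_cast at h2 h3 ⊢
    exact mul_ne_zero (mul_ne_zero (mul_ne_zero h4 h2) h3) (inv_ne_zero (pow_ne_zero _ hq))

lemma gg_spec (s r : ℤ) (hs : s = 1 ∨ s = -1) (hr : r = 1 ∨ r = -1) {k l : ℕ} (h : k ≠ l) :
    algebraMap R K (gg s k r l) = (nd s k - nd r l)⁻¹ * (2 - nd r l) := by
  have hq := q_ne
  have hne := nd_ne s r hs hr h
  rw [eq_inv_mul_iff_mul_eq₀ hne]
  unfold gg
  rcases lt_or_gt_of_ne h with h1 | h1
  · obtain ⟨d, rfl⟩ := Nat.exists_eq_add_of_lt h1
    have e := nd_sub r s hr hs k (d + 1) (Nat.succ_pos d)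
    have e2 := two_sub r hr (k + (d + 1))
    rw [show k + d + 1 = k + (d + 1) by ring] at *
    rw [if_neg (by omega), ← neg_sub (nd r (k + (d + 1))) (nd s k), e, e2, one_mul, map_mul, map_mul,
      aM_I (cc_sub _ (by omega)), aM_I (cc_sub _ (by omega))]
    have h2 := q_sub_ne (s * r) (Nat.succ_pos d)
    have h3 := q_sub_ne (s * r) (show 0 < k + (k + (d + 1)) by omega)
    rw [show k + (d + 1) - k + (k - (k + (d + 1))) = d + 1 by omega,
      show k + (d + 1) + k = k + (k + (d + 1)) by ring]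
    push_cast at h2 h3 ⊢
    simp only [map_sub, map_one, map_mul, map_pow, map_intCast]
    rw [mul_comm (r : K) (s : K)]
    have h5 : (r : K) ^ 2 = 1 := by rcases hr with rfl | rfl <;> simp
    set A := (1 : K) - (s : K) * (r : K) * q ^ (d + 1) with hA
    set B := (1 : K) - (s : K) * (r : K) * q ^ (k + (k + (d + 1))) with hB
    have hp : q ^ (k + (d + 1)) ≠ 0 := pow_ne_zero _ hq
    field_simp
  · obtain ⟨d, rfl⟩ := Nat.exists_eq_add_of_lt h1
    have e := nd_sub s r hs hr l (d + 1) (Nat.succ_pos d)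
    have e2 := two_sub r hr l
    rw [show l + d + 1 = l + (d + 1) by ring] at *
    rw [if_pos (by omega), e, e2, map_mul, map_mul, map_mul,
      aM_I (cc_sub _ (by omega)), aM_I (cc_sub _ (by omega))]
    have h2 := q_sub_ne (r * s) (Nat.succ_pos d)
    have h3 := q_sub_ne (r * s) (show 0 < l + (l + (d + 1)) by omega)
    rw [show l - (l + (d + 1)) + (l + (d + 1) - l) = d + 1 by omega,
      show l + (d + 1) - l = d + 1 by omega]
    push_cast at h2 h3 ⊢
    simp only [map_sub, map_one, map_mul, map_pow, map_intCast, map_neg]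
    have h5 : (s : K) ^ 2 = 1 := by rcases hs with rfl | rfl <;> simp
    have hp : q ^ (l + (d + 1)) ≠ 0 := pow_ne_zero _ hq
    have hp2 : q ^ l ≠ 0 := pow_ne_zero _ hq
    rw [show q ^ (l + (d + 1)) = q ^ l * q ^ (d + 1) by rw [pow_add]]
    have hp3 : q ^ (d + 1) ≠ 0 := pow_ne_zero _ hq
    set A := (1 : K) - (r : K) * (s : K) * q ^ (d + 1) with hA
    set B := (1 : K) - (r : K) * (s : K) * q ^ (l + (l + (d + 1))) with hB
    field_simp
    linear_combination (- (r : K) * (1 - r * q ^ l) ^ 2) * h5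

theorem pf {ι : Type*} [DecidableEq ι] (S : Finset ι) (hS : S.Nonempty) (e : ι → ℕ) (s : ι → ℤ)
    (hs : ∀ i, s i = 1 ∨ s i = -1) (he : ∀ i ∈ S, ∀ j ∈ S, i ≠ j → e i ≠ e j) :
    ∑ i ∈ S, ∏ j ∈ S.erase i, gg (s i) (e i) (s j) (e j) = 1 := by
  apply aM_inj
  rw [map_sum, map_one]
  have hinj : Set.InjOn (fun i => nd (s i) (e i)) S := by
    intro i hi j hj hij
    by_contra hne
    exact nd_ne (s i) (s j) (hs i) (hs j) (he i hi j hj hne) (sub_eq_zero.2 hij)
  have hL := Lagrange.sum_basis hinj hS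
  have hL2 := congrArg (Polynomial.eval (2 : K)) hL
  rw [Polynomial.eval_finsetSum, Polynomial.eval_one] at hL2
  rw [← hL2]
  refine Finset.sum_congr rfl fun i hi => ?_
  rw [map_prod, Lagrange.basis, Polynomial.eval_prod]
  refine Finset.prod_congr rfl fun j hj => ?_
  rw [mem_erase] at hj
  rw [gg_spec _ _ (hs i) (hs j) (he i hi j hj.2 (Ne.symm hj.1))]
  simp [Lagrange.basisDivisor]

theorem pf2 (J N : ℕ) (hJ : 0 < J) (e1 e2 : ℕ → ℕ) (h1 : ∀ i j, i ≠ j → e1 i ≠ e1 j)
    (h2 : ∀ i j, i ≠ j → e2 i ≠ e2 j) (h12 : ∀ i j, e1 i ≠ e2 j) :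
    (∑ n ∈ range J, (∏ j ∈ (range J).erase n, gg 1 (e1 n) 1 (e1 j)) *
        ∏ j ∈ range N, gg 1 (e1 n) (-1) (e2 j)) +
      (∑ m ∈ range N, (∏ j ∈ range J, gg (-1) (e2 m) 1 (e1 j)) *
        ∏ j ∈ (range N).erase m, gg (-1) (e2 m) (-1) (e2 j)) = 1 := by
  have h := pf ((range J).disjSum (range N)) (by
    refine ⟨Sum.inl 0, ?_⟩
    simp [hJ]) (Sum.elim e1 e2) (Sum.elim (fun _ => 1) (fun _ => -1))
    (by rintro (i | i) <;> simp)
    (by
      rintro (i | i) hi (j | j) hj hij
      · simpa using h1 i j (by simpa using hij)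
      · simpa using h12 i j
      · simpa using (h12 j i).symm
      · simpa using h2 i j (by simpa using hij))
  rw [Finset.sum_disjSum] at h
  rw [← h]
  congr 1
  · refine Finset.sum_congr rfl fun n hn => ?_
    have : ((range J).disjSum (range N)).erase (Sum.inl n)
        = ((range J).erase n).disjSum (range N) := by
      ext (x | x) <;> simp
    rw [this, Finset.prod_disjSum]
    simp
  · refine Finset.sum_congr rfl fun n hn => ?_
    have : ((range J).disjSum (range N)).erase (Sum.inr n)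
        = (range J).disjSum ((range N).erase n) := by
      ext (x | x) <;> simp
    rw [this, Finset.prod_disjSum]
    simp

end Run7.h831.QS
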