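import Mathlib
import Pool.Agent.Run7.h831.QS.PF

set_option linter.unusedSimpArgs false
set_option linter.unusedVariables false

namespace Run7.h831.QS
open PowerSeries Finset

lemma prod_erase_range (f : ℕ → R) (n t : ℕ) :
    ∏ j ∈ (range (n + 1 + t)).erase n, f j
      = (∏ j ∈ range n, f j) * ∏ i ∈ range t, f (n + 1 + i) := by
  induction t with
  | zero =>
    have : (range (n + 1 + 0)).erase n = range n := by
      ext x; simp only [mem_erase, mem_range]; omega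
    rw [this]; simp
  | succ t ih =>
    have : (range (n + 1 + (t + 1))).erase n = insert (n + 1 + t) ((range (n + 1 + t)).erase n) := by
      ext x; simp only [mem_erase, mem_range, mem_insert]; omega
    rw [this, prod_insert (by simp), ih, prod_range_succ]
    ring

/-- `(Q;Q)_m` with `Q = X^(2c)` -/
noncomputable def Qf (c m : ℕ) : R := ∏ i ∈ range m, (1 - X ^ (2 * c * (i + 1)))

lemma Qf_zero (c : ℕ) : Qf c 0 = 1 := by simp [Qf]

lemma Qf_succ (c m : ℕ) : Qf c (m + 1) = Qf c m * (1 - X ^ (2 * c * (m + 1))) := by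
  simp [Qf, prod_range_succ]

lemma Qf_cc {c : ℕ} (hc : 0 < c) (m : ℕ) : constantCoeff (Qf c m) = 1 := by
  unfold Qf
  exact cc_prod _ _ (fun i _ => cc_one_sub (by positivity))

lemma gg_own_lt {c : ℕ} (hc : 0 < c) (s : ℤ) (hs : s = 1 ∨ s = -1) {n j : ℕ} (h : j < n) :
    gg s (c * (2 * n + 1)) s (c * (2 * j + 1)) =
      -(X ^ (2 * c * (n - 1 - j + 1))) * (1 - (s : R) * X ^ (c * (2 * j + 1))) ^ 2 *
        I (1 - X ^ (2 * c * (n + j + 1))) * I (1 - X ^ (2 * c * (n - 1 - j + 1))) := by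
  have h1 : c * (2 * j + 1) < c * (2 * n + 1) := by
    apply Nat.mul_lt_mul_of_pos_left _ hc; omega
  obtain ⟨d, rfl⟩ := Nat.exists_eq_add_of_lt h
  unfold gg
  rw [if_pos h1]
  have e1 : c * (2 * (j + d + 1) + 1) - c * (2 * j + 1) = 2 * c * (j + d + 1 - 1 - j + 1) := by
    rw [← Nat.mul_sub, show 2 * (j + d + 1) + 1 - (2 * j + 1) = 2 * (j + d + 1 - 1 - j + 1) by omega]
    ring
  have e2 : c * (2 * j + 1) - c * (2 * (j + d + 1) + 1) = 0 := Nat.sub_eq_zero_of_le h1.le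
  have e3 : c * (2 * j + 1) + c * (2 * (j + d + 1) + 1) = 2 * c * (j + d + 1 + j + 1) := by ring
  rw [e1, e2, e3, zero_add]
  have hss : s * s = 1 := by rcases hs with rfl | rfl <;> norm_num
  rw [hss]
  simp

lemma gg_own_gt {c : ℕ} (hc : 0 < c) (s : ℤ) (hs : s = 1 ∨ s = -1) (n i : ℕ) :
    gg s (c * (2 * n + 1)) s (c * (2 * (n + 1 + i) + 1)) =
      (1 - (s : R) * X ^ (c * (2 * (n + 1 + i) + 1))) ^ 2 *
        I (1 - X ^ (2 * c * (n + 1 + i + n + 1))) * I (1 - X ^ (2 * c * (i + 1))) := by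
  have h1 : ¬ c * (2 * (n + 1 + i) + 1) < c * (2 * n + 1) := by
    rw [not_lt]; apply Nat.mul_le_mul_left; omega
  unfold gg
  rw [if_neg h1]
  have e1 : c * (2 * (n + 1 + i) + 1) - c * (2 * n + 1) = 2 * c * (i + 1) := by
    rw [← Nat.mul_sub, show 2 * (n + 1 + i) + 1 - (2 * n + 1) = 2 * (i + 1) by omega]
    ring
  have e2 : c * (2 * n + 1) - c * (2 * (n + 1 + i) + 1) = 0 :=
    Nat.sub_eq_zero_of_le (by rw [not_lt] at h1; exact h1)
  have e3 : c * (2 * (n + 1 + i) + 1) + c * (2 * n + 1) = 2 * c * (n + 1 + i + n + 1) := by ring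
  rw [e1, e2, e3, add_zero]
  have hss : s * s = 1 := by rcases hs with rfl | rfl <;> norm_num
  rw [hss]
  simp

lemma prod_neg_pow (c n : ℕ) :
    ∏ i ∈ range n, (-(X : R) ^ (2 * c * (i + 1))) = (-1) ^ n * X ^ (c * (n * (n + 1))) := by
  induction n with
  | zero => simp
  | succ n ih =>
    rw [prod_range_succ, ih, show c * ((n + 1) * (n + 1 + 1)) = c * (n * (n + 1)) + 2 * c * (n + 1) by ring,
      pow_add, pow_succ]
    ring

lemma own_lt {c : ℕ} (hc : 0 < c) (s : ℤ) (hs : s = 1 ∨ s = -1) (n : ℕ) :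
    (∏ j ∈ range n, gg s (c * (2 * n + 1)) s (c * (2 * j + 1))) * Qf c (n + n) =
      (-1) ^ n * X ^ (c * (n * (n + 1))) * (∏ j ∈ range n, (1 - (s : R) * X ^ (c * (2 * j + 1)))) ^ 2 := by
  rw [prod_congr rfl (fun j hj => gg_own_lt hc s hs (mem_range.1 hj))]
  rw [prod_mul_distrib, prod_mul_distrib, prod_mul_distrib]
  have r1 : ∏ j ∈ range n, (-(X : R) ^ (2 * c * (n - 1 - j + 1))) = (-1) ^ n * X ^ (c * (n * (n + 1))) := by
    rw [Finset.prod_range_reflect (fun i => -(X : R) ^ (2 * c * (i + 1))) n]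
    exact prod_neg_pow c n
  have r2 : ∏ j ∈ range n, I (1 - (X : R) ^ (2 * c * (n - 1 - j + 1))) = I (Qf c n) := by
    rw [Finset.prod_range_reflect (fun i => I (1 - (X : R) ^ (2 * c * (i + 1)))) n]
    rw [Qf, I_prod _ _ (fun i _ => cc_one_sub (by positivity))]
  have r3 : Qf c (n + n) = Qf c n * ∏ j ∈ range n, (1 - (X : R) ^ (2 * c * (n + j + 1))) := by
    rw [Qf, Qf, prod_range_add]
  have r4 : ∏ j ∈ range n, I (1 - (X : R) ^ (2 * c * (n + j + 1)))
      = I (∏ j ∈ range n, (1 - (X : R) ^ (2 * c * (n + j + 1)))) := by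
    rw [I_prod _ _ (fun i _ => cc_one_sub (by positivity))]
  rw [r1, r2, r3, r4, prod_pow]
  have h1 := mul_I (Qf_cc hc n)
  have h2 := mul_I (cc_prod (range n) (fun j => (1 - (X : R) ^ (2 * c * (n + j + 1))))
    (fun i _ => cc_one_sub (by positivity)))
  set A := ∏ j ∈ range n, (1 - (X : R) ^ (2 * c * (n + j + 1)))
  set B := (∏ j ∈ range n, (1 - (s : R) * X ^ (c * (2 * j + 1)))) ^ 2
  calc _ = (-1) ^ n * X ^ (c * (n * (n + 1))) * B * (Qf c n * I (Qf c n)) * (A * I A) := by ring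
    _ = _ := by rw [h1, h2]; ring

/-- the product of the odd factors -/
noncomputable def Of (c : ℕ) (s : ℤ) (J : ℕ) : R := ∏ j ∈ range J, (1 - (s : R) * X ^ (c * (2 * j + 1)))

lemma own {c : ℕ} (hc : 0 < c) (s : ℤ) (hs : s = 1 ∨ s = -1) (n t : ℕ) :
    (∏ j ∈ (range (n + 1 + t)).erase n, gg s (c * (2 * n + 1)) s (c * (2 * j + 1))) *
      ((1 - (s : R) * X ^ (c * (2 * n + 1))) ^ 2 * Qf c (n + 1 + t + n) * Qf c t) =
      (-1) ^ n * X ^ (c * (n * (n + 1))) * (1 - X ^ (2 * c * (2 * n + 1))) * Of c s (n + 1 + t) ^ 2 := by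
  rw [prod_erase_range]
  induction t with
  | zero =>
    have h := own_lt hc s hs n
    rw [Of, prod_range_succ, show n + 1 + 0 + n = n + n + 1 by ring, Qf_succ, Qf_zero,
      show 2 * c * (n + n + 1) = 2 * c * (2 * n + 1) by ring, range_zero, prod_empty]
    linear_combination ((1 - (s : R) * X ^ (c * (2 * n + 1))) ^ 2 * (1 - X ^ (2 * c * (2 * n + 1)))) * h
  | succ t ih =>
    rw [prod_range_succ, gg_own_gt hc s hs n t, Qf_succ c t, Of,
      show n + 1 + (t + 1) = (n + 1 + t) + 1 by ring, prod_range_succ,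
      show n + 1 + t + 1 + n = (n + 1 + t + n) + 1 by ring, Qf_succ c (n + 1 + t + n)]
    rw [Of] at ih
    have h1 := mul_I (cc_one_sub (show 0 < 2 * c * (n + 1 + t + n + 1) by positivity))
    have h2 := mul_I (cc_one_sub (show 0 < 2 * c * (t + 1) by positivity))
    set A := (1 : R) - X ^ (2 * c * (n + 1 + t + n + 1))
    set B := (1 : R) - X ^ (2 * c * (t + 1))
    set D := (1 - (s : R) * X ^ (c * (2 * (n + 1 + t) + 1)))
    set P := (∏ j ∈ range n, gg s (c * (2 * n + 1)) s (c * (2 * j + 1))) *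
      ∏ x ∈ range t, gg s (c * (2 * n + 1)) s (c * (2 * (n + 1 + x) + 1)) with hP
    calc _ = (P * ((1 - (s : R) * X ^ (c * (2 * n + 1))) ^ 2 * Qf c (n + 1 + t + n) * Qf c t)) *
        D ^ 2 * (A * I A) * (B * I B) := by rw [hP]; ring
      _ = _ := by rw [ih, h1, h2]; ring

end Run7.h831.QS
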