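import Mathlib
import Pool.Agent.Run7.h831.QS.Own

set_option linter.unusedSimpArgs false
set_option linter.unusedVariables false

namespace Run7.h831.QS
open PowerSeries Finset

lemma Lim_X_pow (f : ℕ → ℕ) (hf : ∀ n, ∃ M0, ∀ M, M0 ≤ M → n ≤ f M) :
    Lim (fun N => (X : R) ^ f N) 0 := by
  intro L
  obtain ⟨M0, h⟩ := hf L
  exact ⟨M0, fun M hM => by simpa using pow_dvd_pow _ (h M hM)⟩

lemma Lim_one_add (f : ℕ → ℕ) (hf : ∀ n, ∃ M0, ∀ M, M0 ≤ M → n ≤ f M) :
    Lim (fun N => 1 + (X : R) ^ f N) 1 := by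
  simpa using (Lim.const 1).add (Lim_X_pow f hf)

lemma Lim_one_sub (f : ℕ → ℕ) (hf : ∀ n, ∃ M0, ∀ M, M0 ≤ M → n ≤ f M) :
    Lim (fun N => 1 - (X : R) ^ f N) 1 := by
  simpa using (Lim.const 1).sub (Lim_X_pow f hf)

lemma Lim.of_mul_one {s u : ℕ → R} {a : R} (h : Lim (fun N => s N * u N) a) (hu : Lim u 1) :
    Lim s a := by
  apply h.congr'
  intro L
  obtain ⟨M0, h0⟩ := hu L
  refine ⟨M0, fun M hM => ?_⟩
  have e : s M * u M - s M - 0 = s M * (u M - 1) := by ring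
  rw [e]
  exact Dvd.dvd.mul_left (h0 M hM) _

lemma Lim.unshift {s : ℕ → R} {a : R} (h : Lim (fun N => s (N + 1)) a) : Lim s a := by
  intro L
  obtain ⟨M0, h0⟩ := h L
  refine ⟨M0 + 1, fun M hM => ?_⟩
  obtain ⟨M', rfl⟩ : ∃ M', M = M' + 1 := ⟨M - 1, by omega⟩
  exact h0 M' (by omega)

/-- `C = ∏ (1 + X^(2j+1))` -/
noncomputable def Cc : R := limR (fun N => ∏ j ∈ range N, (1 + (X : R) ^ (2 * j + 1)))

lemma Lim_Cc : Lim (fun N => ∏ j ∈ range N, (1 + (X : R) ^ (2 * j + 1))) Cc := by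
  apply Lim_prod
  intro n
  rw [add_sub_cancel_left]
  exact pow_dvd_pow _ (by omega)

lemma Cc_cc : constantCoeff Cc = 1 :=
  Lim_Cc.cc (fun M => cc_prod _ _ (fun i _ => cc_one_add (by omega)))

lemma prod_two_mul (N : ℕ) : ∏ j ∈ range (2 * N), (1 + (X : R) ^ (2 * j + 1)) =
    (∏ j ∈ range N, (1 + (X : R) ^ (4 * j + 1))) * ∏ j ∈ range N, (1 + (X : R) ^ (4 * j + 3)) := by
  induction N with
  | zero => simp
  | succ N ih =>
    rw [show 2 * (N + 1) = 2 * N + 1 + 1 by ring, prod_range_succ, prod_range_succ, ih,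
      prod_range_succ, prod_range_succ, show 2 * (2 * N) + 1 = 4 * N + 1 by ring,
      show 2 * (2 * N + 1) + 1 = 4 * N + 3 by ring]
    ring

lemma Lim_C4 : Lim (fun N => (∏ j ∈ range N, (1 + (X : R) ^ (4 * j + 1))) *
    ∏ j ∈ range N, (1 + (X : R) ^ (4 * j + 3))) Cc := by
  have := Lim_Cc.comp (fun N => 2 * N) (fun n => ⟨n, fun M hM => by omega⟩)
  exact this.congr (fun N => prod_two_mul N)

lemma prod_shift (f : ℕ → R) (N : ℕ) :
    (∏ j ∈ range N, f (j + 1)) * f 0 = (∏ j ∈ range N, f j) * f N := by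
  rw [← prod_range_succ', ← prod_range_succ]

/-- cross products, `l = 4 j + 2`, odd `k` -/
noncomputable def DA (k N : ℕ) : R :=
  (∏ j ∈ range N, (1 + (X : R) ^ (4 * j + 2 + k))) *
    ∏ j ∈ range N, (1 + (X : R) ^ ((4 * j + 2 - k) + (k - (4 * j + 2))))

lemma DA_step (k : ℕ) (h : Lim (DA k) Cc) : Lim (DA (k + 4)) Cc := by
  apply Lim.unshift
  have key : ∀ N, DA (k + 4) (N + 1) * (1 + (X : R) ^ ((4 * N + 2 - k) + (k - (4 * N + 2))))
      = DA k (N + 1) * (1 + (X : R) ^ (4 * (N + 1) + 2 + k)) := by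
    intro N
    unfold DA
    have e1 := prod_shift (fun j => 1 + (X : R) ^ (4 * j + 2 + k)) (N + 1)
    have e2 : ∏ j ∈ range (N + 1), (1 + (X : R) ^ (4 * j + 2 + (k + 4)))
        = ∏ j ∈ range (N + 1), (1 + (X : R) ^ (4 * (j + 1) + 2 + k)) :=
      prod_congr rfl (fun j _ => by rw [show 4 * j + 2 + (k + 4) = 4 * (j + 1) + 2 + k by ring])
    have e3 : ∏ j ∈ range (N + 1), (1 + (X : R) ^ ((4 * j + 2 - (k + 4)) + (k + 4 - (4 * j + 2))))
        = (∏ j ∈ range N, (1 + (X : R) ^ ((4 * j + 2 - k) + (k - (4 * j + 2))))) *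
          (1 + X ^ (2 + k)) := by
      rw [prod_range_succ']
      congr 1
      · refine prod_congr rfl (fun j _ => ?_)
        rw [show (4 * (j + 1) + 2 - (k + 4)) + (k + 4 - (4 * (j + 1) + 2))
          = (4 * j + 2 - k) + (k - (4 * j + 2)) by omega]
      · rw [show (4 * 0 + 2 - (k + 4)) + (k + 4 - (4 * 0 + 2)) = 2 + k by omega]
    have e4 : ∏ j ∈ range (N + 1), (1 + (X : R) ^ ((4 * j + 2 - k) + (k - (4 * j + 2))))
        = (∏ j ∈ range N, (1 + (X : R) ^ ((4 * j + 2 - k) + (k - (4 * j + 2))))) *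
          (1 + (X : R) ^ ((4 * N + 2 - k) + (k - (4 * N + 2)))) := prod_range_succ _ _
    rw [e2, e3, e4]
    simp only [mul_zero, zero_add] at e1
    linear_combination ((∏ j ∈ range N, (1 + (X : R) ^ ((4 * j + 2 - k) + (k - (4 * j + 2))))) *
      (1 + (X : R) ^ ((4 * N + 2 - k) + (k - (4 * N + 2))))) * e1
  have h1 : Lim (fun N => DA k (N + 1) * (1 + (X : R) ^ (4 * (N + 1) + 2 + k))) Cc := by
    have := (h.shift 1).mul (Lim_one_add (fun N => 4 * (N + 1) + 2 + k)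
      (fun n => ⟨n, fun M hM => by omega⟩))
    simpa using this
  exact (h1.congr (fun N => (key N).symm)).of_mul_one
    (Lim_one_add _ (fun n => ⟨n + k, fun M hM => by omega⟩))

lemma DA_one : Lim (DA 1) Cc := by
  refine Lim_C4.congr (fun N => ?_)
  unfold DA
  have e1 : ∏ j ∈ range N, (1 + (X : R) ^ (4 * j + 2 + 1)) = ∏ j ∈ range N, (1 + (X : R) ^ (4 * j + 3)) :=
    prod_congr rfl (fun j _ => by rw [show 4 * j + 3 = 4 * j + 2 + 1 by ring])
  have e2 : ∏ j ∈ range N, (1 + (X : R) ^ ((4 * j + 2 - 1) + (1 - (4 * j + 2))))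
      = ∏ j ∈ range N, (1 + (X : R) ^ (4 * j + 1)) := by
    refine prod_congr rfl (fun j _ => ?_)
    rw [show (4 * j + 2 - 1) + (1 - (4 * j + 2)) = 4 * j + 1 by omega]
  rw [e1, e2]
  ring

lemma DA_three : Lim (DA 3) Cc := by
  apply Lim.unshift
  have key : ∀ N, DA 3 (N + 1) * ((1 + (X : R) ^ (4 * N + 3)) * (1 + (X : R) ^ (4 * N + 7)))
      = (∏ j ∈ range (N + 2), (1 + (X : R) ^ (4 * j + 1))) *
        ∏ j ∈ range (N + 2), (1 + (X : R) ^ (4 * j + 3)) := by
    intro N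
    unfold DA
    have e1 : ∏ j ∈ range (N + 2), (1 + (X : R) ^ (4 * j + 1))
        = (∏ j ∈ range (N + 1), (1 + (X : R) ^ (4 * j + 2 + 3))) * (1 + X) := by
      rw [prod_range_succ']
      congr 1
      simp
    have e3 : ∏ j ∈ range (N + 1), (1 + (X : R) ^ ((4 * j + 2 - 3) + (3 - (4 * j + 2))))
        = (∏ j ∈ range N, (1 + (X : R) ^ (4 * j + 3))) * (1 + X) := by
      rw [prod_range_succ']
      congr 1
      · refine prod_congr rfl (fun j _ => ?_)
        rw [show (4 * (j + 1) + 2 - 3) + (3 - (4 * (j + 1) + 2)) = 4 * j + 3 by omega]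
      · simp
    have e4 : ∏ j ∈ range (N + 2), (1 + (X : R) ^ (4 * j + 3)) =
      (∏ j ∈ range N, (1 + (X : R) ^ (4 * j + 3))) * (1 + (X : R) ^ (4 * N + 3)) *
        (1 + (X : R) ^ (4 * N + 7)) := by
      rw [prod_range_succ, prod_range_succ, show 4 * (N + 1) + 3 = 4 * N + 7 by ring]
    rw [e1, e3, e4]
    ring
  have h1 := (Lim_C4.shift 2).congr (fun N => (key N).symm)
  have h2 := (Lim_one_add (fun N => 4 * N + 3) (fun n => ⟨n, fun M hM => by omega⟩)).mul
    (Lim_one_add (fun N => 4 * N + 7) (fun n => ⟨n, fun M hM => by omega⟩))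
  rw [one_mul] at h2
  exact h1.of_mul_one h2

lemma DA_lim : ∀ n : ℕ, Lim (DA (2 * n + 1)) Cc
  | 0 => DA_one
  | 1 => DA_three
  | (n + 2) => by
    have := DA_step (2 * n + 1) (DA_lim n)
    rwa [show 2 * n + 1 + 4 = 2 * (n + 2) + 1 by ring] at this

/-- triangular numbers -/
def tri : ℕ → ℕ
  | 0 => 0
  | (n + 1) => tri n + (n + 1)

lemma two_tri (n : ℕ) : 2 * tri n = n * (n + 1) := by
  induction n with
  | zero => rfl
  | succ n ih => rw [tri, mul_add, ih]; ring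

lemma pA_step (k a : ℕ) (h : Lim (fun N => ∏ j ∈ range N, (X : R) ^ (k - (4 * j + 2))) (X ^ a)) :
    Lim (fun N => ∏ j ∈ range N, (X : R) ^ (k + 4 - (4 * j + 2))) (X ^ (a + (k + 2))) := by
  apply Lim.unshift
  have key : ∀ N, ∏ j ∈ range (N + 1), (X : R) ^ (k + 4 - (4 * j + 2))
      = (∏ j ∈ range N, (X : R) ^ (k - (4 * j + 2))) * X ^ (k + 2) := by
    intro N
    rw [prod_range_succ']
    congr 1
    refine prod_congr rfl (fun j _ => ?_)
    rw [show k + 4 - (4 * (j + 1) + 2) = k - (4 * j + 2) by omega]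
  rw [pow_add]
  exact (h.mul (Lim.const (X ^ (k + 2)))).congr (fun N => (key N).symm)

lemma pA_lim : ∀ n : ℕ, Lim (fun N => ∏ j ∈ range N, (X : R) ^ (2 * n + 1 - (4 * j + 2))) (X ^ tri n)
  | 0 => by
    refine (Lim.const 1).congr (fun N => ?_)
    symm
    apply prod_eq_one
    intro j _
    rw [show 2 * 0 + 1 - (4 * j + 2) = 0 by omega, pow_zero]
  | 1 => by
    apply Lim.unshift
    refine (Lim.const (X ^ tri 1)).congr (fun N => ?_)
    rw [prod_range_succ', prod_eq_one]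
    · simp [tri]
    · intro j _
      rw [show 2 * 1 + 1 - (4 * (j + 1) + 2) = 0 by omega, pow_zero]
  | (n + 2) => by
    have := pA_step (2 * n + 1) (tri n) (pA_lim n)
    rw [show 2 * n + 1 + 4 = 2 * (n + 2) + 1 by ring] at this
    rw [show tri (n + 2) = tri n + (2 * n + 1 + 2) by simp only [tri]; ring]
    exact this

/-- `H = ∏ (1 + X^(4j+2))` -/
noncomputable def Hh : R := limR (fun N => ∏ j ∈ range N, (1 + (X : R) ^ (4 * j + 2)))

lemma Lim_Hh : Lim (fun N => ∏ j ∈ range N, (1 + (X : R) ^ (4 * j + 2))) Hh := by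
  apply Lim_prod
  intro n
  rw [add_sub_cancel_left]
  exact pow_dvd_pow _ (by omega)

lemma gg_cross (s r : ℤ) (hsr : r * s = -1) (k l : ℕ) :
    gg s k r l = X ^ (k - l) * (1 - (r : R) * X ^ l) ^ 2 * I (1 + X ^ (l + k)) *
      I (1 + X ^ ((l - k) + (k - l))) := by
  unfold gg
  rw [hsr]
  have : (if l < k then - (((-1 : ℤ)) : R) * X ^ (k - l) else 1) = X ^ (k - l) := by
    split_ifs with h
    · simp
    · rw [show k - l = 0 by omega, pow_zero]
  rw [this]
  simp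

/-- cross product for odd nodes against `4j+2` -/
lemma crossA (n : ℕ) : Lim (fun N => ∏ j ∈ range N, gg 1 (2 * n + 1) (-1) (4 * j + 2))
    (X ^ tri n * Hh ^ 2 * I Cc) := by
  have h := ((pA_lim n).mul (Lim_Hh.pow 2)).mul ((DA_lim n).inv (fun N => by
    unfold DA
    rw [map_mul, cc_prod _ _ (fun i _ => cc_one_add (by omega)),
      cc_prod _ _ (fun i _ => cc_one_add (by omega)), one_mul]))
  refine h.congr (fun N => ?_)
  rw [prod_congr rfl (fun j _ => gg_cross 1 (-1) (by norm_num) (2 * n + 1) (4 * j + 2))]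
  rw [prod_mul_distrib, prod_mul_distrib, prod_mul_distrib, prod_pow]
  unfold DA
  rw [I_mul_I (cc_prod _ _ (fun i _ => cc_one_add (by omega)))
    (cc_prod _ _ (fun i _ => cc_one_add (by omega))),
    I_prod _ _ (fun i _ => cc_one_add (by omega)), I_prod _ _ (fun i _ => cc_one_add (by omega))]
  have : ∏ j ∈ range N, (1 - (((-1 : ℤ)) : R) * X ^ (4 * j + 2)) = ∏ j ∈ range N, (1 + (X : R) ^ (4 * j + 2)) :=
    prod_congr rfl (fun j _ => by push_cast; ring)
  rw [this]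
  ring

/-! ### `l = 4 j`, odd `k` -/

noncomputable def DE (k N : ℕ) : R :=
  (∏ j ∈ range N, (1 + (X : R) ^ (4 * j + k))) *
    ∏ j ∈ range N, (1 + (X : R) ^ ((4 * j - k) + (k - 4 * j)))

lemma DE_step (k : ℕ) (hk : 0 < k) (h : Lim (DE k) ((1 + X ^ k) * Cc)) :
    Lim (DE (k + 4)) ((1 + X ^ (k + 4)) * Cc) := by
  apply Lim.unshift
  have key : ∀ N, DE (k + 4) (N + 1) * (1 + X ^ k) * (1 + (X : R) ^ ((4 * N - k) + (k - 4 * N)))
      = DE k (N + 1) * (1 + X ^ (k + 4)) * (1 + (X : R) ^ (4 * (N + 1) + k)) := by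
    intro N
    unfold DE
    have e1 := prod_shift (fun j => 1 + (X : R) ^ (4 * j + k)) (N + 1)
    have e2 : ∏ j ∈ range (N + 1), (1 + (X : R) ^ (4 * j + (k + 4)))
        = ∏ j ∈ range (N + 1), (1 + (X : R) ^ (4 * (j + 1) + k)) :=
      prod_congr rfl (fun j _ => by rw [show 4 * j + (k + 4) = 4 * (j + 1) + k by ring])
    have e3 : ∏ j ∈ range (N + 1), (1 + (X : R) ^ ((4 * j - (k + 4)) + (k + 4 - 4 * j)))
        = (∏ j ∈ range N, (1 + (X : R) ^ ((4 * j - k) + (k - 4 * j)))) *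
          (1 + X ^ (k + 4)) := by
      rw [prod_range_succ']
      congr 1
      · refine prod_congr rfl (fun j _ => ?_)
        rw [show (4 * (j + 1) - (k + 4)) + (k + 4 - 4 * (j + 1))
          = (4 * j - k) + (k - 4 * j) by omega]
      · rw [show (4 * 0 - (k + 4)) + (k + 4 - 4 * 0) = k + 4 by omega]
    have e4 : ∏ j ∈ range (N + 1), (1 + (X : R) ^ ((4 * j - k) + (k - 4 * j)))
        = (∏ j ∈ range N, (1 + (X : R) ^ ((4 * j - k) + (k - 4 * j)))) *
          (1 + (X : R) ^ ((4 * N - k) + (k - 4 * N))) := prod_range_succ _ _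
    rw [e2, e3, e4]
    simp only [mul_zero, zero_add] at e1
    linear_combination ((∏ j ∈ range N, (1 + (X : R) ^ ((4 * j - k) + (k - 4 * j)))) *
      (1 + X ^ (k + 4)) *
      (1 + (X : R) ^ ((4 * N - k) + (k - 4 * N)))) * e1
  have h1 : Lim (fun N => DE k (N + 1) * (1 + X ^ (k + 4)) * (1 + (X : R) ^ (4 * (N + 1) + k)))
      ((1 + X ^ k) * Cc * (1 + X ^ (k + 4))) := by
    have := ((h.shift 1).mul (Lim.const (1 + X ^ (k + 4)))).mul
      (Lim_one_add (fun N => 4 * (N + 1) + k) (fun n => ⟨n, fun M hM => by omega⟩))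
    simpa using this
  have h2 := (h1.congr (fun N => (key N).symm)).of_mul_one
    (Lim_one_add _ (fun n => ⟨n + k, fun M hM => by omega⟩))
  have h3 := h2.mul (Lim.const (I (1 + X ^ k)))
  have hi := mul_I (cc_one_add hk)
  refine (Lim.congr (a := (1 + X ^ (k + 4)) * Cc) (by
    convert h3 using 1
    linear_combination (- Cc * (1 + X ^ (k + 4))) * hi) (fun N => ?_))
  linear_combination (DE (k + 4) (N + 1)) * hi

lemma DE_one : Lim (DE 1) ((1 + X ^ 1) * Cc) := by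
  apply Lim.unshift
  have key : ∀ N, DE 1 (N + 1) * (1 + (X : R) ^ (4 * N + 3))
      = (1 + X ^ 1) * ((∏ j ∈ range (N + 1), (1 + (X : R) ^ (4 * j + 1))) *
        ∏ j ∈ range (N + 1), (1 + (X : R) ^ (4 * j + 3))) := by
    intro N
    unfold DE
    have e3 : ∏ j ∈ range (N + 1), (1 + (X : R) ^ ((4 * j - 1) + (1 - 4 * j)))
        = (∏ j ∈ range N, (1 + (X : R) ^ (4 * j + 3))) * (1 + X ^ 1) := by
      rw [prod_range_succ']
      congr 1
      refine prod_congr rfl (fun j _ => ?_)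
      rw [show (4 * (j + 1) - 1) + (1 - 4 * (j + 1)) = 4 * j + 3 by omega]
    have e4 : ∏ j ∈ range (N + 1), (1 + (X : R) ^ (4 * j + 3)) =
      (∏ j ∈ range N, (1 + (X : R) ^ (4 * j + 3))) * (1 + (X : R) ^ (4 * N + 3)) :=
      prod_range_succ _ _
    rw [e3, e4]
    ring
  exact (((Lim.const (1 + X ^ 1)).mul (Lim_C4.shift 1)).congr (fun N => (key N).symm)).of_mul_one
    (Lim_one_add (fun N => 4 * N + 3) (fun n => ⟨n, fun M hM => by omega⟩))

lemma DE_three : Lim (DE 3) ((1 + X ^ 3) * Cc) := by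
  apply Lim.unshift
  have key : ∀ N, DE 3 (N + 1) * (1 + (X : R) ^ (4 * N + 1))
      = (1 + X ^ 3) * ((∏ j ∈ range (N + 1), (1 + (X : R) ^ (4 * j + 1))) *
        ∏ j ∈ range (N + 1), (1 + (X : R) ^ (4 * j + 3))) := by
    intro N
    unfold DE
    have e3 : ∏ j ∈ range (N + 1), (1 + (X : R) ^ ((4 * j - 3) + (3 - 4 * j)))
        = (∏ j ∈ range N, (1 + (X : R) ^ (4 * j + 1))) * (1 + X ^ 3) := by
      rw [prod_range_succ']
      congr 1
      refine prod_congr rfl (fun j _ => ?_)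
      rw [show (4 * (j + 1) - 3) + (3 - 4 * (j + 1)) = 4 * j + 1 by omega]
    have e4 : ∏ j ∈ range (N + 1), (1 + (X : R) ^ (4 * j + 1)) =
      (∏ j ∈ range N, (1 + (X : R) ^ (4 * j + 1))) * (1 + (X : R) ^ (4 * N + 1)) :=
      prod_range_succ _ _
    rw [e3, e4]
    ring
  exact (((Lim.const (1 + X ^ 3)).mul (Lim_C4.shift 1)).congr (fun N => (key N).symm)).of_mul_one
    (Lim_one_add (fun N => 4 * N + 1) (fun n => ⟨n, fun M hM => by omega⟩))

lemma DE_lim : ∀ n : ℕ, Lim (DE (2 * n + 1)) ((1 + X ^ (2 * n + 1)) * Cc)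
  | 0 => DE_one
  | 1 => DE_three
  | (n + 2) => by
    have := DE_step (2 * n + 1) (by omega) (DE_lim n)
    rwa [show 2 * n + 1 + 4 = 2 * (n + 2) + 1 by ring] at this

lemma pE_step (k a : ℕ) (h : Lim (fun N => ∏ j ∈ range N, (X : R) ^ (k - 4 * j)) (X ^ a)) :
    Lim (fun N => ∏ j ∈ range N, (X : R) ^ (k + 4 - 4 * j)) (X ^ (a + (k + 4))) := by
  apply Lim.unshift
  have key : ∀ N, ∏ j ∈ range (N + 1), (X : R) ^ (k + 4 - 4 * j)
      = (∏ j ∈ range N, (X : R) ^ (k - 4 * j)) * X ^ (k + 4) := by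
    intro N
    rw [prod_range_succ']
    congr 1
    refine prod_congr rfl (fun j _ => ?_)
    rw [show k + 4 - 4 * (j + 1) = k - 4 * j by omega]
  rw [pow_add]
  exact (h.mul (Lim.const (X ^ (k + 4)))).congr (fun N => (key N).symm)

lemma pE_lim : ∀ n : ℕ, Lim (fun N => ∏ j ∈ range N, (X : R) ^ (2 * n + 1 - 4 * j)) (X ^ tri (n + 1))
  | 0 => by
    apply Lim.unshift
    refine (Lim.const (X ^ tri 1)).congr (fun N => ?_)
    rw [prod_range_succ', prod_eq_one]
    · simp [tri]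
    · intro j _
      rw [show 2 * 0 + 1 - (4 * (j + 1)) = 0 by omega, pow_zero]
  | 1 => by
    apply Lim.unshift
    refine (Lim.const (X ^ tri 2)).congr (fun N => ?_)
    rw [prod_range_succ', prod_eq_one]
    · simp [tri]
    · intro j _
      rw [show 2 * 1 + 1 - (4 * (j + 1)) = 0 by omega, pow_zero]
  | (n + 2) => by
    have := pE_step (2 * n + 1) (tri (n + 1)) (pE_lim n)
    rw [show 2 * n + 1 + 4 = 2 * (n + 2) + 1 by ring] at this
    rw [show tri (n + 2 + 1) = tri (n + 1) + (2 * (n + 2) + 1) by simp only [tri]; ring]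
    exact this

/-- `∏_{j ≥ 0} (1 + X^(4j))` (first factor is `2`) -/
noncomputable def He : R := limR (fun N => ∏ j ∈ range N, (1 + (X : R) ^ (4 * j)))

lemma Lim_He : Lim (fun N => ∏ j ∈ range N, (1 + (X : R) ^ (4 * j))) He := by
  apply Lim_prod
  intro n
  rw [add_sub_cancel_left]
  exact pow_dvd_pow _ (by omega)

/-- cross product for odd nodes against `4j` -/
lemma crossE (n : ℕ) : Lim (fun N => ∏ j ∈ range N, gg 1 (2 * n + 1) (-1) (4 * j))
    (X ^ tri (n + 1) * He ^ 2 * I ((1 + X ^ (2 * n + 1)) * Cc)) := by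
  have h := ((pE_lim n).mul (Lim_He.pow 2)).mul ((DE_lim n).inv (fun N => by
    unfold DE
    rw [map_mul, cc_prod _ _ (fun i _ => cc_one_add (by omega)),
      cc_prod _ _ (fun i _ => cc_one_add (by omega)), one_mul]))
  refine h.congr (fun N => ?_)
  rw [prod_congr rfl (fun j _ => gg_cross 1 (-1) (by norm_num) (2 * n + 1) (4 * j))]
  rw [prod_mul_distrib, prod_mul_distrib, prod_mul_distrib, prod_pow]
  unfold DE
  rw [I_mul_I (cc_prod _ _ (fun i _ => cc_one_add (by omega)))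
    (cc_prod _ _ (fun i _ => cc_one_add (by omega))),
    I_prod _ _ (fun i _ => cc_one_add (by omega)), I_prod _ _ (fun i _ => cc_one_add (by omega))]
  have : ∏ j ∈ range N, (1 - (((-1 : ℤ)) : R) * X ^ (4 * j)) = ∏ j ∈ range N, (1 + (X : R) ^ (4 * j)) :=
    prod_congr rfl (fun j _ => by push_cast; ring)
  rw [this]
  ring

/-! ### `l = 2 j + 1`, even `k` -/

noncomputable def DB (k N : ℕ) : R :=
  (∏ j ∈ range N, (1 + (X : R) ^ (2 * j + 1 + k))) *
    ∏ j ∈ range N, (1 + (X : R) ^ ((2 * j + 1 - k) + (k - (2 * j + 1))))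

lemma DB_step (k : ℕ) (h : Lim (DB k) (Cc ^ 2)) : Lim (DB (k + 2)) (Cc ^ 2) := by
  apply Lim.unshift
  have key : ∀ N, DB (k + 2) (N + 1) * (1 + (X : R) ^ ((2 * N + 1 - k) + (k - (2 * N + 1))))
      = DB k (N + 1) * (1 + (X : R) ^ (2 * (N + 1) + 1 + k)) := by
    intro N
    unfold DB
    have e1 := prod_shift (fun j => 1 + (X : R) ^ (2 * j + 1 + k)) (N + 1)
    have e2 : ∏ j ∈ range (N + 1), (1 + (X : R) ^ (2 * j + 1 + (k + 2)))
        = ∏ j ∈ range (N + 1), (1 + (X : R) ^ (2 * (j + 1) + 1 + k)) :=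
      prod_congr rfl (fun j _ => by rw [show 2 * j + 1 + (k + 2) = 2 * (j + 1) + 1 + k by ring])
    have e3 : ∏ j ∈ range (N + 1), (1 + (X : R) ^ ((2 * j + 1 - (k + 2)) + (k + 2 - (2 * j + 1))))
        = (∏ j ∈ range N, (1 + (X : R) ^ ((2 * j + 1 - k) + (k - (2 * j + 1))))) *
          (1 + X ^ (1 + k)) := by
      rw [prod_range_succ']
      congr 1
      · refine prod_congr rfl (fun j _ => ?_)
        rw [show (2 * (j + 1) + 1 - (k + 2)) + (k + 2 - (2 * (j + 1) + 1))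
          = (2 * j + 1 - k) + (k - (2 * j + 1)) by omega]
      · rw [show (2 * 0 + 1 - (k + 2)) + (k + 2 - (2 * 0 + 1)) = 1 + k by omega]
    have e4 : ∏ j ∈ range (N + 1), (1 + (X : R) ^ ((2 * j + 1 - k) + (k - (2 * j + 1))))
        = (∏ j ∈ range N, (1 + (X : R) ^ ((2 * j + 1 - k) + (k - (2 * j + 1))))) *
          (1 + (X : R) ^ ((2 * N + 1 - k) + (k - (2 * N + 1)))) := prod_range_succ _ _
    rw [e2, e3, e4]
    simp only [mul_zero, zero_add] at e1
    linear_combination ((∏ j ∈ range N, (1 + (X : R) ^ ((2 * j + 1 - k) + (k - (2 * j + 1))))) *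
      (1 + (X : R) ^ ((2 * N + 1 - k) + (k - (2 * N + 1))))) * e1
  have h1 : Lim (fun N => DB k (N + 1) * (1 + (X : R) ^ (2 * (N + 1) + 1 + k))) (Cc ^ 2) := by
    have := (h.shift 1).mul (Lim_one_add (fun N => 2 * (N + 1) + 1 + k)
      (fun n => ⟨n, fun M hM => by omega⟩))
    simpa using this
  exact (h1.congr (fun N => (key N).symm)).of_mul_one
    (Lim_one_add _ (fun n => ⟨n + k, fun M hM => by omega⟩))

lemma DB_lim (i : ℕ) : Lim (DB (2 * i)) (Cc ^ 2) := by
  induction i with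
  | zero =>
    refine (Lim_Cc.pow 2).congr (fun N => ?_)
    unfold DB
    rw [pow_two]
    simp
  | succ i ih =>
    have := DB_step (2 * i) ih
    rwa [show 2 * i + 2 = 2 * (i + 1) by ring] at this

lemma pB_lim (i : ℕ) : Lim (fun N => ∏ j ∈ range N, (X : R) ^ (2 * i - (2 * j + 1))) (X ^ (i * i)) := by
  induction i with
  | zero =>
    refine (Lim.const 1).congr (fun N => ?_)
    symm
    apply prod_eq_one
    intro j _
    rw [show 2 * 0 - (2 * j + 1) = 0 by omega, pow_zero]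
  | succ i ih =>
    apply Lim.unshift
    have key : ∀ N, ∏ j ∈ range (N + 1), (X : R) ^ (2 * (i + 1) - (2 * j + 1))
        = (∏ j ∈ range N, (X : R) ^ (2 * i - (2 * j + 1))) * X ^ (2 * i + 1) := by
      intro N
      rw [prod_range_succ']
      congr 1
      · refine prod_congr rfl (fun j _ => ?_)
        rw [show 2 * (i + 1) - (2 * (j + 1) + 1) = 2 * i - (2 * j + 1) by omega]
    rw [show (i + 1) * (i + 1) = i * i + (2 * i + 1) by ring, pow_add]
    exact (ih.mul (Lim.const (X ^ (2 * i + 1)))).congr (fun N => (key N).symm)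

/-- `O = ∏ (1 - X^(2j+1))` -/
noncomputable def Oo : R := limR (fun N => ∏ j ∈ range N, (1 - (X : R) ^ (2 * j + 1)))

lemma Lim_Oo : Lim (fun N => ∏ j ∈ range N, (1 - (X : R) ^ (2 * j + 1))) Oo := by
  apply Lim_prod
  intro n
  rw [show (1 : R) - X ^ (2 * n + 1) - 1 = - X ^ (2 * n + 1) by ring, dvd_neg]
  exact pow_dvd_pow _ (by omega)

/-- cross product for even nodes against `2j+1` -/
lemma crossB (i : ℕ) : Lim (fun N => ∏ j ∈ range N, gg (-1) (2 * i) 1 (2 * j + 1))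
    (X ^ (i * i) * Oo ^ 2 * I (Cc ^ 2)) := by
  have h := ((pB_lim i).mul (Lim_Oo.pow 2)).mul ((DB_lim i).inv (fun N => by
    unfold DB
    rw [map_mul]
    by_cases hi : ∀ j, 0 < (2 * j + 1 - 2 * i) + (2 * i - (2 * j + 1))
    · rw [cc_prod _ _ (fun i _ => cc_one_add (by omega)),
        cc_prod _ _ (fun j _ => cc_one_add (hi j)), one_mul]
    · exact absurd (fun j => by omega) hi))
  refine h.congr (fun N => ?_)
  rw [prod_congr rfl (fun j _ => gg_cross (-1) 1 (by norm_num) (2 * i) (2 * j + 1))]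
  rw [prod_mul_distrib, prod_mul_distrib, prod_mul_distrib, prod_pow]
  unfold DB
  rw [I_mul_I (cc_prod _ _ (fun i _ => cc_one_add (by omega)))
    (cc_prod _ _ (fun i _ => cc_one_add (by omega))),
    I_prod _ _ (fun i _ => cc_one_add (by omega)), I_prod _ _ (fun i _ => cc_one_add (by omega))]
  have : ∏ j ∈ range N, (1 - (((1 : ℤ)) : R) * X ^ (2 * j + 1)) = ∏ j ∈ range N, (1 - (X : R) ^ (2 * j + 1)) :=
    prod_congr rfl (fun j _ => by push_cast; ring)
  rw [this]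
  ring

end Run7.h831.QS
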