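import Mathlib
import Pool.Agent.Run7.h831.QS.Cross

set_option linter.unusedSimpArgs false
set_option linter.unusedVariables false

namespace Run7.h831.QS
open PowerSeries Finset

lemma Lim.unshift' {s : ℕ → R} {a : R} (k : ℕ) (h : Lim (fun N => s (N + k)) a) : Lim s a := by
  intro L
  obtain ⟨M0, h0⟩ := h L
  refine ⟨M0 + k, fun M hM => ?_⟩
  obtain ⟨M', rfl⟩ : ∃ M', M = M' + k := ⟨M - k, by omega⟩
  exact h0 M' (by omega)

lemma Lim.zero_mul' {s t : ℕ → R} (h : Lim s 0) : Lim (fun N => s N * t N) 0 := by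
  intro L
  obtain ⟨M0, h0⟩ := h L
  refine ⟨M0, fun M hM => ?_⟩
  have := h0 M hM
  simp only [sub_zero] at this ⊢
  exact Dvd.dvd.mul_right this _

/-- `∏ (1 - X^(2c(i+1)))` -/
noncomputable def Ec (c : ℕ) : R := limR (Qf c)

lemma Lim_Ec {c : ℕ} (hc : 0 < c) : Lim (Qf c) (Ec c) := by
  apply Lim_limR
  intro n
  rw [Qf_succ, show Qf c n * (1 - X ^ (2 * c * (n + 1))) - Qf c n = - Qf c n * X ^ (2 * c * (n + 1)) by ring]
  refine Dvd.dvd.mul_left (pow_dvd_pow _ ?_) _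
  nlinarith

lemma Ec_cc {c : ℕ} (hc : 0 < c) : constantCoeff (Ec c) = 1 :=
  (Lim_Ec hc).cc (fun M => Qf_cc hc M)

lemma own_lim {c : ℕ} (hc : 0 < c) (s : ℤ) (hs : s = 1 ∨ s = -1) (n : ℕ) {O : R}
    (hO : Lim (Of c s) O) :
    Lim (fun M => ∏ j ∈ (range M).erase n, gg s (c * (2 * n + 1)) s (c * (2 * j + 1)))
      ((-1) ^ n * X ^ (c * (n * (n + 1))) * (1 - X ^ (2 * c * (2 * n + 1))) * O ^ 2 *
        I ((1 - (s : R) * X ^ (c * (2 * n + 1))) ^ 2 * Ec c * Ec c)) := by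
  apply Lim.unshift' (n + 1)
  have hcc : constantCoeff ((1 - (s : R) * X ^ (c * (2 * n + 1))) ^ 2) = 1 := by
    rw [map_pow, cc_sub s (by positivity), one_pow]
  have h2 : ∀ t, constantCoeff ((1 - (s : R) * X ^ (c * (2 * n + 1))) ^ 2 * Qf c (n + 1 + t + n) * Qf c t) = 1 := by
    intro t
    rw [map_mul, map_mul, hcc, Qf_cc hc, Qf_cc hc]; norm_num
  have e : ∀ t, ((-1) ^ n * X ^ (c * (n * (n + 1))) * (1 - X ^ (2 * c * (2 * n + 1))) * Of c s (n + 1 + t) ^ 2) *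
      I ((1 - (s : R) * X ^ (c * (2 * n + 1))) ^ 2 * Qf c (n + 1 + t + n) * Qf c t) =
      ∏ j ∈ (range (t + (n + 1))).erase n, gg s (c * (2 * n + 1)) s (c * (2 * j + 1)) := by
    intro t
    rw [← own hc s hs n t, mul_assoc, mul_I (h2 t), mul_one, show t + (n + 1) = n + 1 + t by ring]
  refine Lim.congr ?_ e
  have l1 : Lim (fun t => Of c s (n + 1 + t)) O := by
    have := hO.shift (n + 1)
    exact this.congr (fun t => by rw [show t + (n + 1) = n + 1 + t by ring])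
  have l2 : Lim (fun t => Qf c (n + 1 + t + n)) (Ec c) := by
    have := (Lim_Ec hc).shift (n + 1 + n)
    exact this.congr (fun t => by rw [show t + (n + 1 + n) = n + 1 + t + n by ring])
  exact ((Lim.const _).mul (l1.pow 2)).mul ((((Lim.const _).mul l2).mul (Lim_Ec hc)).inv h2)

lemma Lim_Of_one : Lim (Of 1 1) Oo := by
  refine Lim_Oo.congr (fun N => ?_)
  unfold Of
  exact prod_congr rfl (fun j _ => by rw [one_mul]; simp)

lemma Lim_Of_two : Lim (Of 2 (-1)) Hh := by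
  refine Lim_Hh.congr (fun N => ?_)
  unfold Of
  refine prod_congr rfl (fun j _ => ?_)
  rw [show 2 * (2 * j + 1) = 4 * j + 2 by ring]
  push_cast; ring

lemma Oo_cc : constantCoeff Oo = 1 :=
  Lim_Oo.cc (fun M => cc_prod _ _ (fun i _ => cc_one_sub (by omega)))

lemma Hh_cc : constantCoeff Hh = 1 :=
  Lim_Hh.cc (fun M => cc_prod _ _ (fun i _ => cc_one_add (by omega)))

lemma dvd_gg {s : ℤ} {k : ℕ} {r : ℤ} {l a : ℕ} (h : l < k) (ha : a ≤ k - l) : (X : R) ^ a ∣ gg s k r l := by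
  unfold gg
  rw [if_pos h]
  have : (X : R) ^ a ∣ X ^ (k - l) := pow_dvd_pow _ ha
  obtain ⟨y, hy⟩ := this
  rw [hy]
  exact ⟨- ((r * s : ℤ) : R) * y * (1 - (r : R) * X ^ l) ^ 2 *
    I (1 - ((r * s : ℤ) : R) * X ^ (l + k)) * I (1 - ((r * s : ℤ) : R) * X ^ ((l - k) + (k - l))), by ring⟩

/-- general term of `A1` -/
noncomputable def a1 (n : ℕ) : R := (-1) ^ n * X ^ (3 * tri n) * (1 + X ^ (2 * n + 1)) * I (1 - X ^ (2 * n + 1))
/-- general term of `B1` -/
noncomputable def b1 (m : ℕ) : R := (-1) ^ m * X ^ (6 * (m * (m + 1))) * (1 - X ^ (4 * m + 2)) * I (1 + X ^ (4 * m + 2))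
/-- general term of `A2` -/
noncomputable def a2 (n : ℕ) : R := (-1) ^ n * X ^ (3 * tri n + n + 1) * I (1 - X ^ (2 * n + 1))

noncomputable def A1 : R := limR (fun M => ∑ n ∈ range M, a1 n)
noncomputable def B1 : R := limR (fun M => ∑ n ∈ range M, b1 n)
noncomputable def A2 : R := limR (fun M => ∑ n ∈ range M, a2 n)

lemma le_tri (n : ℕ) : n ≤ tri n := by
  induction n with
  | zero => simp
  | succ n ih => simp only [tri]; omega

lemma Lim_A1 : Lim (fun M => ∑ n ∈ range M, a1 n) A1 := by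
  apply Lim_sum
  intro n
  unfold a1
  have : (X : R) ^ n ∣ X ^ (3 * tri n) := pow_dvd_pow _ (by have := le_tri n; omega)
  obtain ⟨y, hy⟩ := this
  rw [hy]
  exact ⟨(-1) ^ n * y * (1 + X ^ (2 * n + 1)) * I (1 - X ^ (2 * n + 1)), by ring⟩

lemma Lim_B1 : Lim (fun M => ∑ n ∈ range M, b1 n) B1 := by
  apply Lim_sum
  intro n
  unfold b1
  have : (X : R) ^ n ∣ X ^ (6 * (n * (n + 1))) := pow_dvd_pow _ (by nlinarith)
  obtain ⟨y, hy⟩ := this
  rw [hy]
  exact ⟨(-1) ^ n * y * (1 - X ^ (4 * n + 2)) * I (1 + X ^ (4 * n + 2)), by ring⟩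

lemma Lim_A2 : Lim (fun M => ∑ n ∈ range M, a2 n) A2 := by
  apply Lim_sum
  intro n
  unfold a2
  have : (X : R) ^ n ∣ X ^ (3 * tri n + n + 1) := pow_dvd_pow _ (by omega)
  obtain ⟨y, hy⟩ := this
  rw [hy]
  exact ⟨(-1) ^ n * y * I (1 - X ^ (2 * n + 1)), by ring⟩

/-- limit of the sum over the first family -/
lemma fam1 {e2 : ℕ → ℕ} {w : ℕ → R} (hw : ∀ n, Lim (fun N => ∏ j ∈ range N, gg 1 (2 * n + 1) (-1) (e2 j)) (w n))
    {s : R} (hs : Lim (fun M => ∑ n ∈ range M, (((-1) ^ n * X ^ (n * (n + 1)) * (1 - X ^ (2 * (2 * n + 1))) * Oo ^ 2 *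
        I ((1 - X ^ (2 * n + 1)) ^ 2 * Ec 1 * Ec 1)) * w n)) s) :
    Lim (fun M => ∑ n ∈ range M, (∏ j ∈ (range M).erase n, gg 1 (2 * n + 1) 1 (2 * j + 1)) *
        ∏ j ∈ range M, gg 1 (2 * n + 1) (-1) (e2 j)) s := by
  have h := Lim_dom (u := fun M n => if n < M then (∏ j ∈ (range M).erase n, gg 1 (2 * n + 1) 1 (2 * j + 1)) *
        ∏ j ∈ range M, gg 1 (2 * n + 1) (-1) (e2 j) else 0) (s := s) ?_ ?_ hs
  · refine h.congr (fun M => ?_)
    exact sum_congr rfl (fun n hn => by rw [if_pos (mem_range.1 hn)])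
  · intro M n
    split_ifs with hn
    · rcases Nat.eq_zero_or_pos n with rfl | hpos
      · simp
      · refine Dvd.dvd.mul_right ?_ _
        refine (dvd_gg (s := 1) (k := 2 * n + 1) (r := 1) (l := 2 * 0 + 1) (by omega) (by omega)).trans ?_
        apply Finset.dvd_prod_of_mem (fun j => gg 1 (2 * n + 1) 1 (2 * j + 1))
        rw [mem_erase, mem_range]; omega
    · exact dvd_zero _
  · intro n
    have l1 := own_lim (c := 1) one_pos 1 (Or.inl rfl) n Lim_Of_one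
    simp only [one_mul, mul_one, Int.cast_one] at l1
    have l2 := l1.mul (hw n)
    intro L
    obtain ⟨M0, h0⟩ := l2 L
    refine ⟨max M0 (n + 1), fun M hM => ?_⟩
    have hn : n < M := lt_of_lt_of_le (Nat.lt_succ_self n) ((le_max_right _ _).trans hM)
    simp only [if_pos hn]
    exact h0 M ((le_max_left _ _).trans hM)

lemma I_pow {a : R} (h : constantCoeff a = 1) (k : ℕ) : I (a ^ k) = I a ^ k := by
  apply I_unique
  · rw [← mul_pow, mul_I h, one_pow]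
  · rw [map_pow, h, one_pow]

theorem PF1 : Oo ^ 2 * Hh ^ 2 * I (Ec 1) ^ 2 * I Cc * A1 +
    Oo ^ 2 * Hh ^ 2 * I Cc ^ 2 * I (Ec 2) ^ 2 * X * B1 = 1 := by
  have hE1 : constantCoeff (Ec 1) = 1 := Ec_cc one_pos
  have hE2 : constantCoeff (Ec 2) = 1 := Ec_cc two_pos
  have h1 := fam1 (e2 := fun j => 4 * j + 2) crossA (s := Oo ^ 2 * Hh ^ 2 * I (Ec 1) ^ 2 * I Cc * A1) (by
    refine ((Lim.const (Oo ^ 2 * Hh ^ 2 * I (Ec 1) ^ 2 * I Cc)).mul Lim_A1).congr (fun M => ?_)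
    rw [mul_sum]
    refine sum_congr rfl (fun n _ => ?_)
    have hx := cc_one_sub (show 0 < 2 * n + 1 by omega)
    rw [I_mul_I (by rw [map_mul, map_pow, hx, hE1]; norm_num) hE1,
      I_mul_I (by rw [map_pow, hx, one_pow]) hE1, I_pow hx]
    have hi := mul_I hx
    unfold a1
    rw [show 3 * tri n = n * (n + 1) + tri n by rw [← two_tri]; ring, pow_add]
    rw [show (X : R) ^ (2 * (2 * n + 1)) = (X ^ (2 * n + 1)) ^ 2 by rw [← pow_mul]; ring_nf]
    linear_combination (-((-1) ^ n * X ^ (n * (n + 1)) * Oo ^ 2 * I (Ec 1) ^ 2 * X ^ tri n * Hh ^ 2 * I Cc *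
      (1 + X ^ (2 * n + 1)) * I (1 - X ^ (2 * n + 1)))) * hi)
  have h2 : Lim (fun M => ∑ m ∈ range M, (∏ j ∈ range M, gg (-1) (4 * m + 2) 1 (2 * j + 1)) *
        ∏ j ∈ (range M).erase m, gg (-1) (4 * m + 2) (-1) (4 * j + 2))
      (Oo ^ 2 * Hh ^ 2 * I Cc ^ 2 * I (Ec 2) ^ 2 * X * B1) := by
    have h := Lim_dom (u := fun M m => if m < M then (∏ j ∈ range M, gg (-1) (4 * m + 2) 1 (2 * j + 1)) *
        ∏ j ∈ (range M).erase m, gg (-1) (4 * m + 2) (-1) (4 * j + 2) else 0)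
        (v := fun m => (X ^ ((2 * m + 1) * (2 * m + 1)) * Oo ^ 2 * I (Cc ^ 2)) *
          ((-1) ^ m * X ^ (2 * (m * (m + 1))) * (1 - X ^ (2 * 2 * (2 * m + 1))) * Hh ^ 2 *
        I ((1 - ((-1 : ℤ) : R) * X ^ (2 * (2 * m + 1))) ^ 2 * Ec 2 * Ec 2)))
        (s := Oo ^ 2 * Hh ^ 2 * I Cc ^ 2 * I (Ec 2) ^ 2 * X * B1) ?_ ?_ ?_
    · refine h.congr (fun M => ?_)
      exact sum_congr rfl (fun n hn => by rw [if_pos (mem_range.1 hn)])
    · intro M m
      split_ifs with hm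
      · refine Dvd.dvd.mul_right ?_ _
        refine (dvd_gg (s := -1) (k := 4 * m + 2) (r := 1) (l := 2 * 0 + 1) (by omega) (by omega)).trans ?_
        apply Finset.dvd_prod_of_mem (fun j => gg (-1) (4 * m + 2) 1 (2 * j + 1))
        rw [mem_range]; omega
      · exact dvd_zero _
    · intro m
      have l1 := own_lim (c := 2) two_pos (-1) (Or.inr rfl) m Lim_Of_two
      have l0 := crossB (2 * m + 1)
      have l2 := l0.mul l1
      intro L
      obtain ⟨M0, h0⟩ := l2 L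
      refine ⟨max M0 (m + 1), fun M hM => ?_⟩
      have hn : m < M := lt_of_lt_of_le (Nat.lt_succ_self m) ((le_max_right _ _).trans hM)
      simp only [if_pos hn]
      have := h0 M ((le_max_left _ _).trans hM)
      convert this using 4
      · rw [show 2 * (2 * m + 1) = 4 * m + 2 by ring]
      · rename_i j _
        rw [show 2 * (2 * m + 1) = 4 * m + 2 by ring, show 2 * (2 * j + 1) = 4 * j + 2 by ring]
    · refine ((Lim.const (Oo ^ 2 * Hh ^ 2 * I Cc ^ 2 * I (Ec 2) ^ 2 * X)).mul Lim_B1).congr (fun M => ?_)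
      rw [mul_sum]
      refine sum_congr rfl (fun m _ => ?_)
      have hx : constantCoeff (1 + (X : R) ^ (4 * m + 2)) = 1 := cc_one_add (by omega)
      have e : (1 - ((-1 : ℤ) : R) * X ^ (2 * (2 * m + 1))) = 1 + X ^ (4 * m + 2) := by
        rw [show 2 * (2 * m + 1) = 4 * m + 2 by ring]; push_cast; ring
      rw [e, I_mul_I (by rw [map_mul, map_pow, hx, hE2]; norm_num) hE2,
        I_mul_I (by rw [map_pow, hx, one_pow]) hE2, I_pow hx, I_pow Cc_cc]
      have hi := mul_I hx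
      unfold b1
      rw [show (X : R) ^ (2 * 2 * (2 * m + 1)) = (X ^ (4 * m + 2)) ^ 2 by rw [← pow_mul]; ring_nf]
      rw [show (X : R) ^ ((2 * m + 1) * (2 * m + 1)) = X ^ (4 * (m * (m + 1))) * X by
        rw [← pow_succ]; ring_nf]
      rw [show (X : R) ^ (6 * (m * (m + 1))) = X ^ (4 * (m * (m + 1))) * X ^ (2 * (m * (m + 1))) by
        rw [← pow_add]; ring_nf]
      linear_combination (-(X ^ (4 * (m * (m + 1))) * X * Oo ^ 2 * I Cc ^ 2 * ((-1) ^ m * X ^ (2 * (m * (m + 1))) *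
        (1 - X ^ (4 * m + 2)) * Hh ^ 2 * I (1 + X ^ (4 * m + 2)) * I (Ec 2) ^ 2))) * hi
  have h3 := (h1.add h2).shift 1
  refine h3.unique ((Lim.const 1).congr (fun M => ?_))
  symm
  have := pf2 (M + 1) (M + 1) (Nat.succ_pos M) (fun j => 2 * j + 1) (fun j => 4 * j + 2)
    (fun i j h => by simpa using h) (fun i j h => by simpa using h) (fun i j => by omega)
  exact this

end Run7.h831.QS
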