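import Mathlib
import Pool.Agent.Run7.h831.QS.PFlim

set_option linter.unusedSimpArgs false
set_option linter.unusedVariables false

namespace Run7.h831.QS
open PowerSeries Finset

/-- `f` is a power series in `X^d` -/
def Ev (d : ℕ) (f : R) : Prop := ∀ n, ¬ d ∣ n → coeff n f = 0

lemma Ev.zero (d : ℕ) : Ev d 0 := fun n _ => by simp

lemma Ev.add {d : ℕ} {f g : R} (hf : Ev d f) (hg : Ev d g) : Ev d (f + g) := by
  intro n hn
  rw [map_add, hf n hn, hg n hn, add_zero]

lemma Ev.neg {d : ℕ} {f : R} (hf : Ev d f) : Ev d (-f) := by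
  intro n hn
  rw [map_neg, hf n hn, neg_zero]

lemma Ev.sub {d : ℕ} {f g : R} (hf : Ev d f) (hg : Ev d g) : Ev d (f - g) := by
  rw [sub_eq_add_neg]; exact hf.add hg.neg

lemma Ev.mul {d : ℕ} {f g : R} (hf : Ev d f) (hg : Ev d g) : Ev d (f * g) := by
  intro n hn
  rw [coeff_mul]
  apply Finset.sum_eq_zero
  intro p hp
  rw [HasAntidiagonal.mem_antidiagonal] at hp
  by_cases h1 : d ∣ p.1
  · have h2 : ¬ d ∣ p.2 := fun h2 => hn (hp ▸ dvd_add h1 h2)
    rw [hg _ h2, mul_zero]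
  · rw [hf _ h1, zero_mul]

lemma Ev.one (d : ℕ) : Ev d 1 := by
  intro n hn
  rw [coeff_one, if_neg]
  rintro rfl
  exact hn (dvd_zero d)

lemma Ev.intCast (d : ℕ) (a : ℤ) : Ev d (a : R) := by
  intro n hn
  have h0 : n ≠ 0 := by rintro rfl; exact hn (dvd_zero d)
  rw [show (a : R) = C a by simp, coeff_C, if_neg h0]

lemma Ev.X_pow {d k : ℕ} (h : d ∣ k) : Ev d (X ^ k) := by
  intro n hn
  rw [coeff_X_pow, if_neg]
  rintro rfl
  exact hn h

lemma Ev.pow {d : ℕ} {f : R} (hf : Ev d f) (k : ℕ) : Ev d (f ^ k) := by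
  induction k with
  | zero => simpa using Ev.one d
  | succ k ih => rw [pow_succ]; exact ih.mul hf

lemma Ev.prod {d : ℕ} {ι : Type*} (s : Finset ι) (f : ι → R) (h : ∀ i ∈ s, Ev d (f i)) :
    Ev d (∏ i ∈ s, f i) := by
  classical
  induction s using Finset.induction_on with
  | empty => simpa using Ev.one d
  | insert a s ha ih =>
    rw [prod_insert ha]
    exact (h a (mem_insert_self _ _)).mul (ih (fun i hi => h i (mem_insert_of_mem hi)))

lemma Ev.sum {d : ℕ} {ι : Type*} (s : Finset ι) (f : ι → R) (h : ∀ i ∈ s, Ev d (f i)) :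
    Ev d (∑ i ∈ s, f i) := by
  intro n hn
  rw [map_sum]
  exact Finset.sum_eq_zero (fun i hi => h i hi n hn)

lemma Ev.lim {d : ℕ} {s : ℕ → R} {a : R} (h : Lim s a) (hs : ∀ M, Ev d (s M)) : Ev d a := by
  intro n hn
  obtain ⟨M0, h0⟩ := h (n + 1)
  have := h0 M0 le_rfl
  rw [PowerSeries.X_pow_dvd_iff] at this
  have h2 := this n (Nat.lt_succ_self n)
  rw [map_sub, hs M0 n hn, zero_sub, neg_eq_zero] at h2
  exact h2

lemma Ev.inv {d : ℕ} {f : R} (hf : Ev d f) (hc : constantCoeff f = 1) : Ev d (I f) := by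
  intro n
  induction n using Nat.strong_induction_on with
  | _ n ih =>
    intro hn
    have hn0 : n ≠ 0 := by rintro rfl; exact hn (dvd_zero d)
    have h := congrArg (coeff n) (mul_I hc)
    rw [coeff_mul, coeff_one, if_neg hn0] at h
    rw [Finset.sum_eq_single (0, n)] at h
    · simpa [hc] using h
    · rintro ⟨i, j⟩ hp hne
      rw [HasAntidiagonal.mem_antidiagonal] at hp
      simp only at hp ⊢
      by_cases h1 : d ∣ i
      · have h2 : ¬ d ∣ j := fun h2 => hn (hp ▸ dvd_add h1 h2)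
        have hj : j < n := by
          rcases Nat.eq_zero_or_pos i with rfl | hi
          · exfalso; apply hne; rw [Prod.mk.injEq]; exact ⟨rfl, by omega⟩
          · omega
        rw [ih j hj h2, mul_zero]
      · rw [hf i h1, zero_mul]
    · intro hmem
      exact absurd (by rw [HasAntidiagonal.mem_antidiagonal]; simp) hmem

lemma Ev.mono {d e : ℕ} (h : d ∣ e) {f : R} (hf : Ev e f) : Ev d f := by
  intro n hn
  exact hf n (fun h2 => hn (h.trans h2))

/-- substitution `X ↦ X^d` -/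
noncomputable abbrev ex (d : ℕ) (hd : d ≠ 0) : R →ₐ[ℤ] R := PowerSeries.expand d hd

lemma Ev_ex {d : ℕ} (hd : d ≠ 0) (f : R) : Ev d (ex d hd f) := by
  intro n hn
  exact PowerSeries.coeff_expand_of_not_dvd d hd f hn

lemma Ev_ex_mul {d e : ℕ} (hd : d ≠ 0) {f : R} (hf : Ev e f) : Ev (d * e) (ex d hd f) := by
  intro n hn
  by_cases h : d ∣ n
  · obtain ⟨m, rfl⟩ := h
    rw [PowerSeries.coeff_expand_mul]
    exact hf m (fun h2 => hn (mul_dvd_mul_left d h2))
  · exact PowerSeries.coeff_expand_of_not_dvd d hd f h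

lemma Ev_gg (m j : ℕ) (h : j ≠ m) : Ev 4 (gg (-1) (4 * m) (-1) (4 * j)) := by
  unfold gg
  have d1 : 4 ∣ 4 * m - 4 * j := by rw [← Nat.mul_sub]; exact dvd_mul_right _ _
  have d2 : 4 ∣ 4 * j - 4 * m := by rw [← Nat.mul_sub]; exact dvd_mul_right _ _
  have d3 : 4 ∣ 4 * j + 4 * m := by rw [← Nat.mul_add]; exact dvd_mul_right _ _
  have hp3 : 0 < 4 * j + 4 * m := by omega
  have hp4 : 0 < (4 * j - 4 * m) + (4 * m - 4 * j) := by omega
  have t1 : Ev 4 (if 4 * j < 4 * m then - ((-1 * -1 : ℤ) : R) * X ^ (4 * m - 4 * j) else 1) := by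
    split_ifs
    · exact (Ev.intCast 4 _).neg.mul (Ev.X_pow d1)
    · exact Ev.one 4
  have t2 : Ev 4 ((1 - ((-1 : ℤ) : R) * X ^ (4 * j)) ^ 2) :=
    ((Ev.one 4).sub ((Ev.intCast 4 _).mul (Ev.X_pow (dvd_mul_right _ _)))).pow 2
  have t3 : Ev 4 (I (1 - ((-1 * -1 : ℤ) : R) * X ^ (4 * j + 4 * m))) :=
    ((Ev.one 4).sub ((Ev.intCast 4 _).mul (Ev.X_pow d3))).inv (cc_sub _ hp3)
  have t4 : Ev 4 (I (1 - ((-1 * -1 : ℤ) : R) * X ^ ((4 * j - 4 * m) + (4 * m - 4 * j)))) :=
    ((Ev.one 4).sub ((Ev.intCast 4 _).mul (Ev.X_pow (dvd_add d2 d1)))).inv (cc_sub _ hp4)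
  exact ((t1.mul t2).mul t3).mul t4

theorem PF2 : ∃ F : R, Ev 4 F ∧
    Oo ^ 2 * He ^ 2 * I (Ec 1) ^ 2 * I Cc * A2 + Oo ^ 2 * I (Cc ^ 2) * F = 1 := by
  have hE1 : constantCoeff (Ec 1) = 1 := Ec_cc one_pos
  have h1 := fam1 (e2 := fun j => 4 * j) crossE (s := Oo ^ 2 * He ^ 2 * I (Ec 1) ^ 2 * I Cc * A2) (by
    refine ((Lim.const (Oo ^ 2 * He ^ 2 * I (Ec 1) ^ 2 * I Cc)).mul Lim_A2).congr (fun M => ?_)
    rw [mul_sum]
    refine sum_congr rfl (fun n _ => ?_)
    have hx := cc_one_sub (show 0 < 2 * n + 1 by omega)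
    have hy := cc_one_add (show 0 < 2 * n + 1 by omega)
    rw [I_mul_I (by rw [map_mul, map_pow, hx, hE1]; norm_num) hE1,
      I_mul_I (by rw [map_pow, hx, one_pow]) hE1, I_pow hx, I_mul_I hy Cc_cc]
    have hi := mul_I hx
    have hi2 := mul_I hy
    unfold a2
    rw [show 3 * tri n + n + 1 = n * (n + 1) + tri (n + 1) by simp only [tri]; rw [← two_tri]; ring, pow_add]
    rw [show (X : R) ^ (2 * (2 * n + 1)) = (X ^ (2 * n + 1)) ^ 2 by rw [← pow_mul]; ring_nf]
    set x : R := X ^ (2 * n + 1)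
    set P := (-1) ^ n * X ^ (n * (n + 1)) * Oo ^ 2 * I (Ec 1) ^ 2 * X ^ tri (n + 1) * He ^ 2 * I Cc
    linear_combination (-(P * I (1 - x) * (1 + x) * I (1 + x))) * hi - (P * I (1 - x)) * hi2)
  set c0 := Oo ^ 2 * I (Cc ^ 2) with hc0
  have hc0c : constantCoeff c0 = 1 := by
    rw [hc0, map_mul, map_pow, Oo_cc, I_cc (by rw [map_pow, Cc_cc, one_pow])]; norm_num
  set ow : ℕ → ℕ → R := fun M m => ∏ j ∈ (range M).erase m, gg (-1) (4 * m) (-1) (4 * j) with how
  have h2 : Lim (fun M => ∑ m ∈ range M, (∏ j ∈ range M, gg (-1) (4 * m) 1 (2 * j + 1) -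
      X ^ (4 * (m * m)) * c0) * ow M m) 0 := by
    have h := Lim_dom (u := fun M m => if m < M then (∏ j ∈ range M, gg (-1) (4 * m) 1 (2 * j + 1) -
      X ^ (4 * (m * m)) * c0) * ow M m else 0) (v := fun _ => 0) (s := 0) ?_ ?_ ?_
    · refine h.congr (fun M => ?_)
      exact sum_congr rfl (fun n hn => by rw [if_pos (mem_range.1 hn)])
    · intro M m
      split_ifs with hm
      · rcases Nat.eq_zero_or_pos m with rfl | hpos
        · simp
        · refine Dvd.dvd.mul_right (dvd_sub ?_ ?_) _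
          · refine (dvd_gg (s := -1) (k := 4 * m) (r := 1) (l := 2 * 0 + 1) (by omega) (by omega)).trans ?_
            apply Finset.dvd_prod_of_mem (fun j => gg (-1) (4 * m) 1 (2 * j + 1))
            rw [mem_range]; omega
          · exact Dvd.dvd.mul_right (pow_dvd_pow _ (by nlinarith)) _
      · exact dvd_zero _
    · intro m
      have l0 := crossB (2 * m)
      have l1 : Lim (fun N => (∏ j ∈ range N, gg (-1) (4 * m) 1 (2 * j + 1)) - X ^ (4 * (m * m)) * c0) 0 := by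
        have := l0.sub (Lim.const (X ^ (4 * (m * m)) * c0))
        rw [show X ^ (2 * m * (2 * m)) * Oo ^ 2 * I (Cc ^ 2) - X ^ (4 * (m * m)) * c0 = 0 by
          rw [hc0, show 2 * m * (2 * m) = 4 * (m * m) by ring]; ring] at this
        refine this.congr (fun N => ?_)
        rw [show 2 * (2 * m) = 4 * m by ring]
      have l2 := l1.zero_mul' (t := fun M => ow M m)
      intro L
      obtain ⟨M0, h0⟩ := l2 L
      refine ⟨max M0 (m + 1), fun M hM => ?_⟩
      have hn : m < M := lt_of_lt_of_le (Nat.lt_succ_self m) ((le_max_right _ _).trans hM)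
      simp only [if_pos hn]
      exact h0 M ((le_max_left _ _).trans hM)
    · exact (Lim.const 0).congr (fun M => by simp)
  have key : Lim (fun M => c0 * ∑ m ∈ range M, X ^ (4 * (m * m)) * ow M m)
      (1 - Oo ^ 2 * He ^ 2 * I (Ec 1) ^ 2 * I Cc * A2) := by
    apply Lim.unshift
    have h3 := ((Lim.const 1).sub ((h1.add h2).shift 1))
    rw [add_zero] at h3
    refine h3.congr (fun M => ?_)
    have e := pf2 (M + 1) (M + 1) (Nat.succ_pos M) (fun j => 2 * j + 1) (fun j => 4 * j)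
      (fun i j h => by simpa using h) (fun i j h => by simpa using h) (fun i j => by omega)
    have e2 : ∑ m ∈ range (M + 1), (∏ j ∈ range (M + 1), gg (-1) (4 * m) 1 (2 * j + 1) -
      X ^ (4 * (m * m)) * c0) * ow (M + 1) m = ∑ m ∈ range (M + 1), (∏ j ∈ range (M + 1), gg (-1) (4 * m) 1 (2 * j + 1)) * ow (M + 1) m - c0 * ∑ m ∈ range (M + 1), X ^ (4 * (m * m)) * ow (M + 1) m := by
      rw [mul_sum, ← sum_sub_distrib]
      exact sum_congr rfl (fun m _ => by ring)
    rw [e2]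
    linear_combination (-1) * e
  refine ⟨I c0 * (1 - Oo ^ 2 * He ^ 2 * I (Ec 1) ^ 2 * I Cc * A2), ?_, ?_⟩
  · have h4 := (Lim.const (I c0)).mul key
    refine Ev.lim (s := fun M => ∑ m ∈ range M, X ^ (4 * (m * m)) * ow M m) (h4.congr (fun M => ?_)) ?_
    · rw [← mul_assoc, I_mul hc0c, one_mul]
    · intro M
      apply Ev.sum
      intro m _
      refine (Ev.X_pow (dvd_mul_right _ _)).mul ?_
      apply Ev.prod
      intro j hj
      exact Ev_gg m j (mem_erase.1 hj).1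
  · rw [← mul_assoc, mul_I hc0c]; ring

end Run7.h831.QS
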