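import Mathlib
import Pool.Agent.Run7.h831.QS.Ev

set_option linter.unusedSimpArgs false
set_option linter.unusedVariables false

namespace Run7.h831.QS
open PowerSeries Finset

lemma Of_cc {c : ℕ} (hc : 0 < c) (s : ℤ) (J : ℕ) : constantCoeff (Of c s J) = 1 := by
  unfold Of
  exact cc_prod _ _ (fun i _ => cc_sub s (by positivity))

/-- the Bailey coefficient -/
noncomputable def cn (n : ℕ) : R :=
  (-1) ^ n * X ^ (n * (n + 1)) * (1 + X ^ (2 * n + 1)) * I (1 - X ^ (2 * n + 1))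

lemma cn_dvd (n : ℕ) : (X : R) ^ n ∣ cn n := by
  unfold cn
  obtain ⟨y, hy⟩ : (X : R) ^ n ∣ X ^ (n * (n + 1)) := pow_dvd_pow _ (by nlinarith)
  rw [hy]
  exact ⟨(-1) ^ n * y * (1 + X ^ (2 * n + 1)) * I (1 - X ^ (2 * n + 1)), by ring⟩

lemma single (m : ℕ) : I (Of 1 1 (m + 1) ^ 2) =
    ∑ n ∈ range (m + 1), cn n * I (Qf 1 (n + (m - n) + 1 + n)) * I (Qf 1 (m - n)) := by
  have h := pf2 (m + 1) 0 (Nat.succ_pos m) (fun j => 2 * j + 1) (fun j => 4 * j + 2)
    (fun i j h => by simpa using h) (fun i j h => by simpa using h) (fun i j => by omega)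
  simp only [range_zero, prod_empty, sum_empty, mul_one, add_zero] at h
  have hO := Of_cc one_pos 1 (m + 1)
  have hO2 : constantCoeff (Of 1 1 (m + 1) ^ 2) = 1 := by rw [map_pow, hO, one_pow]
  apply cancel hO2
  rw [mul_I hO2, ← h, mul_sum]
  refine sum_congr rfl (fun n hn => ?_)
  rw [mem_range] at hn
  obtain ⟨t, rfl⟩ : ∃ t, m = n + t := ⟨m - n, by omega⟩
  have e := own one_pos 1 (Or.inl rfl) n t
  simp only [one_mul, mul_one, Int.cast_one] at e
  rw [show n + t - n = t by omega, show n + t + 1 = n + 1 + t by ring]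
  set PR := ∏ j ∈ (range (n + 1 + t)).erase n, gg 1 (2 * n + 1) 1 (2 * j + 1)
  have hx := cc_one_sub (show 0 < 2 * n + 1 by omega)
  have h1 := mul_I (Qf_cc one_pos (n + 1 + t + n))
  have h2 := mul_I (Qf_cc one_pos t)
  have h3 := mul_I hx
  unfold cn
  rw [show (X : R) ^ (2 * (2 * n + 1)) = (X ^ (2 * n + 1)) ^ 2 by rw [← pow_mul]; ring_nf] at e
  set x : R := X ^ (2 * n + 1)
  have h4 : constantCoeff ((1 - x) ^ 2) = 1 := by rw [map_pow, hx, one_pow]
  apply cancel h4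
  calc (1 - x) ^ 2 * PR = ((1 - x) ^ 2 * PR) * (Qf 1 (n + 1 + t + n) * I (Qf 1 (n + 1 + t + n))) *
        (Qf 1 t * I (Qf 1 t)) := by rw [h1, h2]; ring
    _ = (PR * ((1 - x) ^ 2 * Qf 1 (n + 1 + t + n) * Qf 1 t)) * I (Qf 1 (n + 1 + t + n)) * I (Qf 1 t) := by ring
    _ = _ := by
      rw [e]
      linear_combination (-((-1) ^ n * X ^ (n * (n + 1)) * Of 1 1 (n + 1 + t) ^ 2 * (1 + x) * (1 - x) *
        I (Qf 1 (n + 1 + t + n)) * I (Qf 1 t))) * h3

/-- Bailey-type transformation -/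
theorem bailey {δ : ℕ → R} {γ : ℕ → R} {s : R} (hδ : ∀ m, (X : R) ^ m ∣ δ m)
    (hγ : ∀ n, Lim (fun S => ∑ i ∈ range S, δ (n + i) * I (Qf 1 (n + i + 1 + n)) * I (Qf 1 i)) (γ n))
    (hs : Lim (fun M => ∑ n ∈ range M, cn n * γ n) s) :
    Lim (fun M => ∑ m ∈ range M, δ m * I (Of 1 1 (m + 1) ^ 2)) s := by
  have h := Lim_dom (u := fun M n => cn n * ∑ i ∈ range (M - n), δ (n + i) * I (Qf 1 (n + i + 1 + n)) * I (Qf 1 i))
    (v := fun n => cn n * γ n) (s := s) (fun M n => Dvd.dvd.mul_right (cn_dvd n) _)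
    (fun n => (Lim.const (cn n)).mul ((hγ n).comp (fun M => M - n) (fun k => ⟨n + k, fun M hM => by omega⟩))) hs
  refine h.congr (fun M => ?_)
  have e := Finset.sum_range_diag_flip M (fun n i => cn n * (δ (n + i) * I (Qf 1 (n + i + 1 + n)) * I (Qf 1 i)))
  have e2 : ∑ n ∈ range M, cn n * ∑ i ∈ range (M - n), δ (n + i) * I (Qf 1 (n + i + 1 + n)) * I (Qf 1 i)
      = ∑ n ∈ range M, ∑ i ∈ range (M - n), cn n * (δ (n + i) * I (Qf 1 (n + i + 1 + n)) * I (Qf 1 i)) :=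
    sum_congr rfl (fun n _ => mul_sum _ _ _)
  rw [e2, ← e]
  refine sum_congr rfl (fun m _ => ?_)
  rw [single, mul_sum]
  refine sum_congr rfl (fun n hn => ?_)
  rw [mem_range] at hn
  rw [show n + (m - n) = m by omega]
  ring

/-! ### first `γ` -/

noncomputable def T1 (r S : ℕ) : R :=
  ∑ s ∈ range S, X ^ (2 * s * (s + r)) * I (Qf 1 s) * I (Qf 1 (s + r))

lemma I_Qf_succ (m : ℕ) : I (Qf 1 m) = I (Qf 1 (m + 1)) * (1 - X ^ (2 * (m + 1))) := by
  rw [Qf_succ, I_mul_I (Qf_cc one_pos m) (cc_one_sub (by positivity)), mul_one]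
  rw [mul_assoc, I_mul (cc_one_sub (by positivity)), mul_one]

lemma T1_tel (r S : ℕ) : T1 r S - T1 (r + 1) S =
    - (X ^ (2 * S * (S + r)) * (1 - X ^ (2 * S)) * I (Qf 1 S) * I (Qf 1 (S + r))) := by
  induction S with
  | zero => simp [T1]
  | succ S ih =>
    unfold T1 at ih ⊢
    rw [sum_range_succ, sum_range_succ]
    have e1 := I_Qf_succ S
    have e2 := I_Qf_succ (S + r)
    rw [show S + (r + 1) = S + r + 1 by ring, show S + 1 + r = S + r + 1 by ring]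
    rw [show 2 * S * (S + r + 1) = 2 * S * (S + r) + 2 * S by ring, pow_add]
    rw [show 2 * (S + 1) * (S + r + 1) = 2 * S * (S + r) + 2 * S + 2 * (S + r + 1) by ring, pow_add, pow_add]
    rw [e1] at ih ⊢
    rw [e2] at ih ⊢
    linear_combination ih

lemma T1_dvd (r d S : ℕ) : (X : R) ^ S ∣ T1 r S - T1 (r + d) S := by
  induction d with
  | zero => simp
  | succ d ih =>
    have e : T1 r S - T1 (r + (d + 1)) S = (T1 r S - T1 (r + d) S) + (T1 (r + d) S - T1 (r + d + 1) S) := by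
      rw [show r + (d + 1) = r + d + 1 by ring]; ring
    rw [e, T1_tel]
    refine dvd_add ih ?_
    rw [dvd_neg, mul_assoc, mul_assoc]
    refine Dvd.dvd.mul_right (pow_dvd_pow _ ?_) _
    rcases Nat.eq_zero_or_pos S with rfl | h
    · simp
    · nlinarith

lemma T1_head (r S : ℕ) : (X : R) ^ r ∣ T1 r (S + 1) - I (Qf 1 r) := by
  unfold T1
  rw [sum_range_succ']
  simp only [mul_zero, zero_mul, pow_zero, one_mul, zero_add, Qf_zero, I_one, add_sub_cancel_right]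
  refine Finset.dvd_sum (fun s _ => ?_)
  rw [mul_assoc]
  exact Dvd.dvd.mul_right (pow_dvd_pow _ (by nlinarith)) _

lemma T1_lim (r : ℕ) : Lim (T1 r) (I (Ec 1)) := by
  intro L
  obtain ⟨M0, h0⟩ := ((Lim_Ec one_pos).inv (fun M => Qf_cc one_pos M)) L
  refine ⟨L + 1, fun S hS => ?_⟩
  obtain ⟨S', rfl⟩ : ∃ S', S = S' + 1 := ⟨S - 1, by omega⟩
  have h1 := (pow_dvd_pow (X : R) (show L ≤ S' + 1 by omega)).trans (T1_dvd r (L + M0) (S' + 1))
  have h2 := (pow_dvd_pow (X : R) (show L ≤ r + (L + M0) by omega)).trans (T1_head (r + (L + M0)) S')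
  have h3 := h0 (r + (L + M0)) (by omega)
  have e : T1 r (S' + 1) - I (Ec 1) = (T1 r (S' + 1) - T1 (r + (L + M0)) (S' + 1)) +
      (T1 (r + (L + M0)) (S' + 1) - I (Qf 1 (r + (L + M0)))) + (I (Qf 1 (r + (L + M0))) - I (Ec 1)) := by ring
  rw [e]
  exact dvd_add (dvd_add h1 h2) h3

lemma gamma1 (n : ℕ) : Lim (fun S => ∑ i ∈ range S, X ^ (2 * ((n + i) * (n + i + 1))) *
    I (Qf 1 (n + i + 1 + n)) * I (Qf 1 i)) (X ^ (2 * (n * (n + 1))) * I (Ec 1)) := by
  refine ((Lim.const _).mul (T1_lim (2 * n + 1))).congr (fun S => ?_)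
  unfold T1
  rw [mul_sum]
  refine sum_congr rfl (fun i _ => ?_)
  rw [show 2 * ((n + i) * (n + i + 1)) = 2 * (n * (n + 1)) + 2 * i * (i + (2 * n + 1)) by ring, pow_add,
    show n + i + 1 + n = i + (2 * n + 1) by ring]
  ring

/-- `ω(X)` -/
noncomputable def w : R := limR (fun M => ∑ m ∈ range M, X ^ (2 * (m * (m + 1))) * I (Of 1 1 (m + 1) ^ 2))

lemma Lim_w : Lim (fun M => ∑ m ∈ range M, X ^ (2 * (m * (m + 1))) * I (Of 1 1 (m + 1) ^ 2)) w := by
  apply Lim_sum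
  intro n
  exact Dvd.dvd.mul_right (pow_dvd_pow _ (by nlinarith)) _

noncomputable def aw (n : ℕ) : R := (-1) ^ n * X ^ (3 * (n * (n + 1))) * (1 + X ^ (2 * n + 1)) * I (1 - X ^ (2 * n + 1))
noncomputable def Aw : R := limR (fun M => ∑ n ∈ range M, aw n)

lemma Lim_Aw : Lim (fun M => ∑ n ∈ range M, aw n) Aw := by
  apply Lim_sum
  intro n
  unfold aw
  obtain ⟨y, hy⟩ : (X : R) ^ n ∣ X ^ (3 * (n * (n + 1))) := pow_dvd_pow _ (by nlinarith)
  rw [hy]
  exact ⟨(-1) ^ n * y * (1 + X ^ (2 * n + 1)) * I (1 - X ^ (2 * n + 1)), by ring⟩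

theorem w_eq : w = I (Ec 1) * Aw := by
  refine Lim_w.unique (bailey (fun m => pow_dvd_pow _ (by nlinarith)) gamma1 ?_)
  refine ((Lim.const (I (Ec 1))).mul Lim_Aw).congr (fun M => ?_)
  rw [mul_sum]
  refine sum_congr rfl (fun n _ => ?_)
  unfold aw cn
  rw [show 3 * (n * (n + 1)) = n * (n + 1) + 2 * (n * (n + 1)) by ring, pow_add]
  ring

/-! ### second `γ` -/

noncomputable def Pf (m : ℕ) : R := ∏ i ∈ range m, (1 + X ^ (2 * (i + 1)))

lemma Pf_succ (m : ℕ) : Pf (m + 1) = Pf m * (1 + X ^ (2 * (m + 1))) := by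
  simp [Pf, prod_range_succ]

lemma Pf_cc (m : ℕ) : constantCoeff (Pf m) = 1 := by
  unfold Pf
  exact cc_prod _ _ (fun i _ => cc_one_add (by positivity))

noncomputable def Pinf : R := limR Pf

lemma Lim_Pf : Lim Pf Pinf := by
  apply Lim_limR
  intro n
  rw [Pf_succ, show Pf n * (1 + X ^ (2 * (n + 1))) - Pf n = Pf n * X ^ (2 * (n + 1)) by ring]
  exact Dvd.dvd.mul_left (pow_dvd_pow _ (by omega)) _

noncomputable def U (n S : ℕ) : R :=
  ∑ s ∈ range S, X ^ (s * (s + (2 * n + 1))) * Pf (n + s) * I (Qf 1 s) * I (Qf 1 (s + (2 * n + 1)))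

noncomputable def G (n S : ℕ) : R :=
  X ^ (S * (S + (2 * n + 1))) * Pf (n + S) * I (Qf 1 S) * I (Qf 1 (S + (2 * n + 2))) * (1 - X ^ (2 * S)) *
    (1 + X ^ (2 * (n + 1)) * (1 - X ^ (2 * (n + 1))) * X ^ (2 * S))

lemma U_tel (n S : ℕ) : U n S - U (n + 1) S = - G n S := by
  induction S with
  | zero => simp [U, G]
  | succ S ih =>
    unfold U at ih ⊢
    rw [sum_range_succ, sum_range_succ]
    have key : X ^ (S * (S + (2 * n + 1))) * Pf (n + S) * I (Qf 1 S) * I (Qf 1 (S + (2 * n + 1))) -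
        X ^ (S * (S + (2 * (n + 1) + 1))) * Pf (n + 1 + S) * I (Qf 1 S) * I (Qf 1 (S + (2 * (n + 1) + 1))) =
        G n S - G n (S + 1) := by
      unfold G
      rw [show S * (S + (2 * (n + 1) + 1)) = S * (S + (2 * n + 1)) + 2 * S by ring,
        show n + 1 + S = n + S + 1 by ring, show n + (S + 1) = n + S + 1 by ring,
        show (S + 1) * (S + 1 + (2 * n + 1)) = S * (S + (2 * n + 1)) + 2 * S + 2 * n + 2 by ring,
        show S + (2 * (n + 1) + 1) = S + 2 * n + 1 + 1 + 1 by ring,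
        show S + 1 + (2 * n + 2) = S + 2 * n + 1 + 1 + 1 by ring,
        show S + (2 * n + 1) = S + 2 * n + 1 by ring,
        show S + (2 * n + 2) = S + 2 * n + 1 + 1 by ring,
        Pf_succ, I_Qf_succ S, I_Qf_succ (S + 2 * n + 1), I_Qf_succ (S + 2 * n + 1 + 1)]
      set D1 := I (Qf 1 (S + 1))
      set D3 := I (Qf 1 (S + 2 * n + 1 + 1 + 1))
      set B : R := X ^ (S * (S + 2 * n + 1)) with hB
      rw [show (X : R) ^ (S * (S + 2 * n + 1) + 2 * S) = B * X ^ (2 * S) by rw [hB, pow_add],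
        show (X : R) ^ (S * (S + 2 * n + 1) + 2 * S + 2 * n + 2) = B * X ^ (2 * S) * X ^ (2 * n) * X ^ 2 by
          rw [hB, ← pow_add, ← pow_add, ← pow_add],
        show (X : R) ^ (2 * (S + 2 * n + 1 + 1)) = X ^ (2 * S) * (X ^ (2 * n)) ^ 2 * (X ^ 2) ^ 2 by
          rw [← pow_mul, ← pow_mul, ← pow_add, ← pow_add]; ring_nf,
        show (X : R) ^ (2 * (S + 2 * n + 1 + 1 + 1)) = X ^ (2 * S) * (X ^ (2 * n)) ^ 2 * (X ^ 2) ^ 3 by
          rw [← pow_mul, ← pow_mul, ← pow_add, ← pow_add]; ring_nf,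
        show (X : R) ^ (2 * (S + 1)) = X ^ (2 * S) * X ^ 2 by rw [← pow_add]; ring_nf,
        show (X : R) ^ (2 * (n + 1)) = X ^ (2 * n) * X ^ 2 by rw [← pow_add]; ring_nf,
        show (X : R) ^ (2 * (n + S + 1)) = X ^ (2 * n) * X ^ (2 * S) * X ^ 2 by
          rw [← pow_add, ← pow_add]; ring_nf]
      ring
    linear_combination ih + key

lemma U_dvd (n d S : ℕ) : (X : R) ^ S ∣ U n S - U (n + d) S := by
  induction d with
  | zero => simp
  | succ d ih =>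
    have e : U n S - U (n + (d + 1)) S = (U n S - U (n + d) S) + (U (n + d) S - U (n + d + 1) S) := by
      rw [show n + (d + 1) = n + d + 1 by ring]; ring
    rw [e, U_tel]
    refine dvd_add ih ?_
    rw [dvd_neg]
    unfold G
    obtain ⟨y, hy⟩ : (X : R) ^ S ∣ X ^ (S * (S + (2 * (n + d) + 1))) := pow_dvd_pow _ (by nlinarith)
    rw [hy]
    exact ⟨y * Pf (n + d + S) * I (Qf 1 S) * I (Qf 1 (S + (2 * (n + d) + 2))) * (1 - X ^ (2 * S)) *
      (1 + X ^ (2 * ((n + d) + 1)) * (1 - X ^ (2 * ((n + d) + 1))) * X ^ (2 * S)), by ring⟩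

lemma U_head (n S : ℕ) : (X : R) ^ n ∣ U n (S + 1) - Pf n * I (Qf 1 (2 * n + 1)) := by
  unfold U
  rw [sum_range_succ']
  simp only [mul_zero, zero_mul, pow_zero, one_mul, zero_add, Qf_zero, I_one, mul_one, add_zero,
    add_sub_cancel_right]
  refine Finset.dvd_sum (fun s _ => ?_)
  rw [mul_assoc, mul_assoc]
  exact Dvd.dvd.mul_right (pow_dvd_pow _ (by nlinarith)) _

lemma U_lim (n : ℕ) : Lim (U n) (Pinf * I (Ec 1)) := by
  intro L
  have hlim : Lim (fun n => Pf n * I (Qf 1 (2 * n + 1))) (Pinf * I (Ec 1)) :=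
    Lim_Pf.mul (((Lim_Ec one_pos).inv (fun M => Qf_cc one_pos M)).comp (fun n => 2 * n + 1)
      (fun k => ⟨k, fun M hM => by omega⟩))
  obtain ⟨M0, h0⟩ := hlim L
  refine ⟨L + 1, fun S hS => ?_⟩
  obtain ⟨S', rfl⟩ : ∃ S', S = S' + 1 := ⟨S - 1, by omega⟩
  have h1 := (pow_dvd_pow (X : R) (show L ≤ S' + 1 by omega)).trans (U_dvd n (L + M0) (S' + 1))
  have h2 := (pow_dvd_pow (X : R) (show L ≤ n + (L + M0) by omega)).trans (U_head (n + (L + M0)) S')
  have h3 := h0 (n + (L + M0)) (by omega)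
  have e : U n (S' + 1) - Pinf * I (Ec 1) = (U n (S' + 1) - U (n + (L + M0)) (S' + 1)) +
      (U (n + (L + M0)) (S' + 1) - Pf (n + (L + M0)) * I (Qf 1 (2 * (n + (L + M0)) + 1))) +
      (Pf (n + (L + M0)) * I (Qf 1 (2 * (n + (L + M0)) + 1)) - Pinf * I (Ec 1)) := by ring
  rw [e]
  exact dvd_add (dvd_add h1 h2) h3

lemma gamma2 (n : ℕ) : Lim (fun S => ∑ i ∈ range S, (X ^ ((n + i) * (n + i + 1)) * Pf (n + i)) *
    I (Qf 1 (n + i + 1 + n)) * I (Qf 1 i)) (X ^ (n * (n + 1)) * (Pinf * I (Ec 1))) := by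
  refine ((Lim.const _).mul (U_lim n)).congr (fun S => ?_)
  unfold U
  rw [mul_sum]
  refine sum_congr rfl (fun i _ => ?_)
  rw [show (n + i) * (n + i + 1) = n * (n + 1) + i * (i + (2 * n + 1)) by ring, pow_add,
    show n + i + 1 + n = i + (2 * n + 1) by ring]
  ring

/-- second order mock theta function `B(X)` -/
noncomputable def Bs : R := limR (fun M => ∑ m ∈ range M, (X ^ (m * (m + 1)) * Pf m) * I (Of 1 1 (m + 1) ^ 2))

lemma Lim_Bs : Lim (fun M => ∑ m ∈ range M, (X ^ (m * (m + 1)) * Pf m) * I (Of 1 1 (m + 1) ^ 2)) Bs := by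
  apply Lim_sum
  intro n
  exact Dvd.dvd.mul_right (Dvd.dvd.mul_right (pow_dvd_pow _ (by nlinarith)) _) _

noncomputable def ab (n : ℕ) : R := (-1) ^ n * X ^ (2 * (n * (n + 1))) * (1 + X ^ (2 * n + 1)) * I (1 - X ^ (2 * n + 1))
noncomputable def Ab : R := limR (fun M => ∑ n ∈ range M, ab n)

lemma Lim_Ab : Lim (fun M => ∑ n ∈ range M, ab n) Ab := by
  apply Lim_sum
  intro n
  unfold ab
  obtain ⟨y, hy⟩ : (X : R) ^ n ∣ X ^ (2 * (n * (n + 1))) := pow_dvd_pow _ (by nlinarith)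
  rw [hy]
  exact ⟨(-1) ^ n * y * (1 + X ^ (2 * n + 1)) * I (1 - X ^ (2 * n + 1)), by ring⟩

theorem Bs_eq : Bs = Pinf * I (Ec 1) * Ab := by
  refine Lim_Bs.unique (bailey (fun m => Dvd.dvd.mul_right (pow_dvd_pow _ (by nlinarith)) _) gamma2 ?_)
  refine ((Lim.const (Pinf * I (Ec 1))).mul Lim_Ab).congr (fun M => ?_)
  rw [mul_sum]
  refine sum_congr rfl (fun n _ => ?_)
  unfold ab cn
  rw [show 2 * (n * (n + 1)) = n * (n + 1) + n * (n + 1) by ring, pow_add]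
  ring

/-- `∏ (1 - X^(2(2j+1)))` -/
noncomputable def O2 : R := limR (Of 2 1)

lemma Lim_O2 : Lim (Of 2 1) O2 := by
  apply Lim_limR
  intro n
  unfold Of
  rw [prod_range_succ]
  set P := ∏ x ∈ range n, (1 - ((1 : ℤ) : R) * X ^ (2 * (2 * x + 1)))
  rw [show P * (1 - ((1 : ℤ) : R) * X ^ (2 * (2 * n + 1))) - P = - P * X ^ (2 * (2 * n + 1)) by push_cast; ring]
  exact Dvd.dvd.mul_left (pow_dvd_pow _ (by omega)) _

lemma O2_cc : constantCoeff O2 = 1 := Lim_O2.cc (fun M => Of_cc two_pos 1 M)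

/-- even part series of `Ab`, in `X^2` -/
noncomputable def ae (n : ℕ) : R := (-1) ^ n * X ^ (2 * (n * (n + 1))) * (1 + X ^ (2 * (2 * n + 1))) * I (1 - X ^ (2 * (2 * n + 1)))

theorem M5 {s : R} (hs : Lim (fun M => ∑ n ∈ range M, ae n) s) : O2 ^ 2 * I (Ec 2) ^ 2 * s = 1 := by
  have hE2 : constantCoeff (Ec 2) = 1 := Ec_cc two_pos
  have h := Lim_dom (u := fun M n => if n < M then ∏ j ∈ (range M).erase n, gg 1 (2 * (2 * n + 1)) 1 (2 * (2 * j + 1)) else 0)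
    (v := fun n => O2 ^ 2 * I (Ec 2) ^ 2 * ae n) (s := O2 ^ 2 * I (Ec 2) ^ 2 * s) ?_ ?_ ?_
  · have h3 := h.shift 1
    refine h3.unique ((Lim.const 1).congr (fun M => ?_))
    symm
    have e := pf (range (M + 1)) ⟨0, by simp⟩ (fun n => 2 * (2 * n + 1)) (fun _ => 1) (fun _ => Or.inl rfl)
      (fun i _ j _ hij => by simpa using hij)
    rw [← e]
    exact sum_congr rfl (fun n hn => by rw [if_pos (mem_range.1 hn)])
  · intro M n
    split_ifs with hn
    · rcases Nat.eq_zero_or_pos n with rfl | hpos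
      · simp
      · refine (dvd_gg (s := 1) (k := 2 * (2 * n + 1)) (r := 1) (l := 2 * (2 * 0 + 1)) (by omega) (by omega)).trans ?_
        apply Finset.dvd_prod_of_mem (fun j => gg 1 (2 * (2 * n + 1)) 1 (2 * (2 * j + 1)))
        rw [mem_erase, mem_range]; omega
    · exact dvd_zero _
  · intro n
    have l1 := own_lim (c := 2) two_pos 1 (Or.inl rfl) n Lim_O2
    intro L
    obtain ⟨M0, h0⟩ := l1 L
    refine ⟨max M0 (n + 1), fun M hM => ?_⟩
    have hn : n < M := lt_of_lt_of_le (Nat.lt_succ_self n) ((le_max_right _ _).trans hM)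
    simp only [if_pos hn]
    have h5 := h0 M ((le_max_left _ _).trans hM)
    have hx : constantCoeff (1 - (X : R) ^ (2 * (2 * n + 1))) = 1 := cc_one_sub (by omega)
    have hi := mul_I hx
    have e : (-1) ^ n * X ^ (2 * (n * (n + 1))) * (1 - X ^ (2 * 2 * (2 * n + 1))) * O2 ^ 2 *
        I ((1 - ((1 : ℤ) : R) * X ^ (2 * (2 * n + 1))) ^ 2 * Ec 2 * Ec 2) = O2 ^ 2 * I (Ec 2) ^ 2 * ae n := by
      rw [show (1 - ((1 : ℤ) : R) * X ^ (2 * (2 * n + 1))) = 1 - X ^ (2 * (2 * n + 1)) by push_cast; ring]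
      rw [I_mul_I (by rw [map_mul, map_pow, hx, hE2]; norm_num) hE2,
        I_mul_I (by rw [map_pow, hx, one_pow]) hE2, I_pow hx]
      unfold ae
      rw [show (X : R) ^ (2 * 2 * (2 * n + 1)) = (X ^ (2 * (2 * n + 1))) ^ 2 by rw [← pow_mul]; ring_nf]
      linear_combination ((-1) ^ n * X ^ (2 * (n * (n + 1))) * O2 ^ 2 * I (Ec 2) ^ 2 * (1 + X ^ (2 * (2 * n + 1))) *
        I (1 - X ^ (2 * (2 * n + 1)))) * hi
    rw [← e]
    exact h5
  · exact ((Lim.const _).mul hs).congr (fun M => mul_sum _ _ _)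

end Run7.h831.QS
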