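import Mathlib
import Pool.Agent.Run7.h831.QS.Bailey

set_option linter.unusedSimpArgs false
set_option linter.unusedVariables false

namespace Run7.h831.QS
open PowerSeries Finset

noncomputable def iP (s : ℕ) : R := ∏ k ∈ range s, ((1 + X ^ (k + 1)) * I (1 - X ^ (k + 1)))
noncomputable def Pp (n : ℕ) : R := ∏ k ∈ range n, ((1 - X ^ (k + 1)) * I (1 + X ^ (k + 1)))

lemma Pp_iP (n : ℕ) : Pp n * iP n = 1 := by
  unfold Pp iP
  rw [← prod_mul_distrib]
  apply prod_eq_one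
  intro k _
  have h1 := mul_I (cc_one_sub (Nat.succ_pos k))
  have h2 := mul_I (cc_one_add (Nat.succ_pos k))
  rw [Nat.succ_eq_add_one] at h1 h2
  calc _ = ((1 - X ^ (k + 1)) * I (1 - X ^ (k + 1))) * ((1 + X ^ (k + 1)) * I (1 + X ^ (k + 1))) := by ring
    _ = 1 := by rw [h1, h2, one_mul]

noncomputable def Wg (n : ℕ) : R :=
  1 + ∑ s ∈ range n, (-1) ^ (s + 1) * (iP (s + 1) + iP s) * X ^ ((s + 1) * (n + 1))

noncomputable def Sg (n : ℕ) : R := 1 + 2 * ∑ s ∈ range n, (-1) ^ (s + 1) * X ^ ((s + 1) * (s + 1))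

lemma iP_rel (t : ℕ) : iP t * (1 + X ^ (t + 1)) = iP (t + 1) * (1 - X ^ (t + 1)) := by
  unfold iP
  rw [prod_range_succ]
  have h1 := mul_I (cc_one_sub (Nat.succ_pos t))
  rw [Nat.succ_eq_add_one] at h1
  linear_combination (-((∏ k ∈ range t, ((1 + (X : R) ^ (k + 1)) * I (1 - X ^ (k + 1)))) * (1 + X ^ (t + 1)))) * h1

lemma tel_g (m t : ℕ) : -2 * X ^ m + ∑ s ∈ range t, (-1) ^ (s + 1) * (iP (s + 1) + iP s) *
    ((1 - X ^ m) * X ^ ((s + 1) * (m + 1)) - (1 + X ^ m) * X ^ ((s + 1) * m)) =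
    -2 * (-1) ^ t * X ^ ((t + 1) * m) * iP t := by
  induction t with
  | zero => simp [iP]
  | succ t ih =>
    rw [sum_range_succ, ← add_assoc, ih]
    have hr := iP_rel t
    have h2 := mul_I (cc_one_add (Nat.succ_pos t))
    rw [Nat.succ_eq_add_one] at h2
    obtain ⟨D, hD⟩ : ∃ D, D = iP (t + 1) * I (1 + X ^ (t + 1)) := ⟨_, rfl⟩
    have e1 : iP (t + 1) = D * (1 + X ^ (t + 1)) := by
      rw [hD]; linear_combination (-(iP (t + 1))) * h2
    have e2 : iP t = D * (1 - X ^ (t + 1)) := by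
      have : iP t = iP t * ((1 + X ^ (t + 1)) * I (1 + X ^ (t + 1))) := by rw [h2, mul_one]
      rw [this, hD]
      linear_combination (I (1 + X ^ (t + 1))) * hr
    rw [e1, e2]
    rw [show (t + 1) * (m + 1) = (t + 1) * m + (t + 1) by ring, pow_add (X : R) ((t + 1) * m) (t + 1),
      show (t + 1 + 1) * m = (t + 1) * m + m by ring, pow_add (X : R) ((t + 1) * m) m, pow_succ]
    ring

lemma gauss_fin (n : ℕ) : Pp n * Wg n = Sg n := by
  induction n with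
  | zero => simp [Pp, Wg, Sg]
  | succ n ih =>
    have hS : Sg (n + 1) = Sg n + 2 * ((-1) ^ (n + 1) * X ^ ((n + 1) * (n + 1))) := by
      unfold Sg; rw [sum_range_succ]; ring
    rw [hS, ← ih]
    have hc : constantCoeff (1 + (X : R) ^ (n + 1)) = 1 := cc_one_add (Nat.succ_pos n)
    apply cancel hc
    have hP : (1 + X ^ (n + 1)) * Pp (n + 1) = (1 - X ^ (n + 1)) * Pp n := by
      unfold Pp
      rw [prod_range_succ]
      have h2 := mul_I hc
      linear_combination ((∏ k ∈ range n, ((1 - (X : R) ^ (k + 1)) * I (1 + X ^ (k + 1)))) * (1 - X ^ (n + 1))) * h2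
    have hW1 : Wg (n + 1) = 1 + ∑ s ∈ range n, (-1) ^ (s + 1) * (iP (s + 1) + iP s) * X ^ ((s + 1) * (n + 1 + 1)) +
      (-1) ^ (n + 1) * (iP (n + 1) + iP n) * X ^ ((n + 1) * (n + 1 + 1)) := by
      unfold Wg; rw [sum_range_succ]; ring
    have ht := tel_g (n + 1) n
    have hsum : ∑ s ∈ range n, (-1) ^ (s + 1) * (iP (s + 1) + iP s) *
        ((1 - X ^ (n + 1)) * X ^ ((s + 1) * (n + 1 + 1)) - (1 + X ^ (n + 1)) * X ^ ((s + 1) * (n + 1))) =
        (1 - X ^ (n + 1)) * (∑ s ∈ range n, (-1) ^ (s + 1) * (iP (s + 1) + iP s) * X ^ ((s + 1) * (n + 1 + 1))) -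
        (1 + X ^ (n + 1)) * ∑ s ∈ range n, (-1) ^ (s + 1) * (iP (s + 1) + iP s) * X ^ ((s + 1) * (n + 1)) := by
      rw [mul_sum, mul_sum, ← sum_sub_distrib]
      exact sum_congr rfl (fun s _ => by ring)
    rw [hsum] at ht
    have h1 := Pp_iP n
    have h3 : Pp n * (1 - X ^ (n + 1)) * iP (n + 1) = 1 + X ^ (n + 1) := by
      have hr := iP_rel n
      linear_combination (-(Pp n)) * hr + (1 + X ^ (n + 1)) * h1
    rw [← mul_assoc, hP, hW1]
    unfold Wg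
    rw [show (n + 1) * (n + 1 + 1) = (n + 1) * (n + 1) + (n + 1) by ring, pow_add (X : R) ((n + 1) * (n + 1)) (n + 1)]
    set A := ∑ s ∈ range n, (-1) ^ (s + 1) * (iP (s + 1) + iP s) * (X : R) ^ ((s + 1) * (n + 1 + 1))
    set B := ∑ s ∈ range n, (-1) ^ (s + 1) * (iP (s + 1) + iP s) * (X : R) ^ ((s + 1) * (n + 1))
    rw [pow_succ (-1 : R) n]
    linear_combination (Pp n) * ht + (-2 * (-1) ^ n * X ^ ((n + 1) * (n + 1)) - (-1) ^ n * X ^ ((n + 1) * (n + 1)) * X ^ (n + 1) * (1 - X ^ (n + 1))) * h1 - ((-1) ^ n * X ^ ((n + 1) * (n + 1)) * X ^ (n + 1)) * h3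

noncomputable def Phi : R := limR Sg

lemma Lim_Sg : Lim Sg Phi := by
  apply Lim_limR
  intro n
  unfold Sg
  rw [sum_range_succ]
  refine ⟨2 * ((-1) ^ (n + 1)) * X ^ ((n + 1) * (n + 1) - n), ?_⟩
  have : (X : R) ^ ((n + 1) * (n + 1)) = X ^ n * X ^ ((n + 1) * (n + 1) - n) := by
    rw [← pow_add]; congr 1; have : n ≤ (n + 1) * (n + 1) := by nlinarith
    omega
  rw [this]
  ring

lemma Lim_Wg : Lim Wg 1 := by
  apply Lim.congr' (s := fun _ => 1) (Lim.const 1)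
  apply Lim.of_dvd
  intro n
  unfold Wg
  rw [show ∀ a : R, 1 - (1 + a) = - a by intro a; ring, dvd_neg]
  refine Finset.dvd_sum (fun s _ => ?_)
  exact Dvd.dvd.mul_left (pow_dvd_pow _ (by nlinarith)) _

noncomputable def Ap (n : ℕ) : R := ∏ k ∈ range n, (1 + X ^ (k + 1))
noncomputable def Ainf : R := limR Ap

lemma Ap_cc (n : ℕ) : constantCoeff (Ap n) = 1 := cc_prod _ _ (fun i _ => cc_one_add (by omega))

lemma Lim_Ap : Lim Ap Ainf := by
  apply Lim_prod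
  intro n
  rw [add_sub_cancel_left]
  exact pow_dvd_pow _ (by omega)

lemma Ainf_cc : constantCoeff Ainf = 1 := Lim_Ap.cc Ap_cc

lemma Pp_Ap (n : ℕ) : Pp n * Ap n ^ 2 = Qf 1 n := by
  unfold Pp Ap Qf
  rw [← prod_pow, ← prod_mul_distrib]
  refine prod_congr rfl (fun k _ => ?_)
  have h2 := mul_I (cc_one_add (Nat.succ_pos k))
  rw [Nat.succ_eq_add_one] at h2
  rw [show 2 * 1 * (k + 1) = (k + 1) * 2 by ring, pow_mul]
  linear_combination ((1 - (X : R) ^ (k + 1)) * (1 + X ^ (k + 1))) * h2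

lemma Pp_eq (n : ℕ) : Pp n = Qf 1 n * I (Ap n) ^ 2 := by
  have h := mul_I (Ap_cc n)
  rw [← Pp_Ap]
  have : Pp n * Ap n ^ 2 * I (Ap n) ^ 2 = Pp n * (Ap n * I (Ap n)) ^ 2 := by ring
  rw [this, h]; ring

noncomputable def E1f (n : ℕ) : R := ∏ k ∈ range n, (1 - X ^ (k + 1))

lemma E1f_two (n : ℕ) : E1f (2 * n) = Of 1 1 n * Qf 1 n := by
  induction n with
  | zero => simp [E1f, Of, Qf]
  | succ n ih =>
    unfold E1f Of Qf at ih ⊢
    rw [show 2 * (n + 1) = 2 * n + 1 + 1 by ring, prod_range_succ, prod_range_succ, ih, prod_range_succ, prod_range_succ,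
      show 2 * 1 * (n + 1) = 2 * n + 1 + 1 by ring]
    push_cast
    ring

lemma E1f_Ap (n : ℕ) : E1f n * Ap n = Qf 1 n := by
  unfold E1f Ap Qf
  rw [← prod_mul_distrib]
  refine prod_congr rfl (fun k _ => ?_)
  rw [show 2 * 1 * (k + 1) = (k + 1) * 2 by ring, pow_mul]
  ring

lemma Oo_Ainf : Oo * Ainf = 1 := by
  have hc : ∀ k, ∃ M0, ∀ M, M0 ≤ M → k ≤ 2 * M := fun k => ⟨k, fun M hM => by omega⟩
  have l1 : Lim (fun n => Of 1 1 n * Qf 1 n * Ap (2 * n)) (Oo * Ec 1 * Ainf) :=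
    (Lim_Of_one.mul (Lim_Ec one_pos)).mul (Lim_Ap.comp (fun n => 2 * n) hc)
  have l2 : Lim (fun n => Qf 1 (2 * n)) (Ec 1) := (Lim_Ec one_pos).comp (fun n => 2 * n) hc
  have l3 := l1.unique (l2.congr (fun n => by rw [← E1f_two, E1f_Ap]))
  apply cancel (Ec_cc one_pos)
  linear_combination l3

/-- Gauss -/
theorem gauss : Oo ^ 2 * Ec 1 = Phi := by
  have l1 : Lim (fun n => Pp n * Wg n) (Ec 1 * I Ainf ^ 2 * 1) :=
    (((Lim_Ec one_pos).mul ((Lim_Ap.inv Ap_cc).pow 2)).congr (fun n => (Pp_eq n).symm)).mul Lim_Wg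
  have l2 := l1.unique (Lim_Sg.congr (fun n => (gauss_fin n).symm))
  have h : I Ainf = Oo := I_unique (by rw [mul_comm]; exact Oo_Ainf) Ainf_cc
  rw [h] at l2
  rw [← l2]; ring

end Run7.h831.QS
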