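import Mathlib
import Pool.Agent.Run7.h831.QS.Bailey

set_option linter.unusedSimpArgs false
set_option linter.unusedVariables false

namespace Run7.h831.QS
open PowerSeries Finset

/-- the truncated generating function -/
noncomputable def SG (N : ℕ) : R :=
  ∑ m ∈ range N, X ^ (2 * m + 1) * (∏ j ∈ range N, (1 + X ^ (2 * m + 2 + 2 * j))) *
    I (∏ j ∈ range N, (1 - X ^ (2 * m + 1 + 2 * j))) ^ 2

noncomputable def GG : R := limR SG

lemma I_one_sub_dvd {k : ℕ} (hk : 0 < k) : (X : R) ^ k ∣ I (1 - X ^ k) - 1 := by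
  have h := mul_I (cc_one_sub hk)
  exact ⟨I (1 - X ^ k), by linear_combination h⟩

lemma SG_dvd (N : ℕ) : (X : R) ^ N ∣ SG (N + 1) - SG N := by
  unfold SG
  rw [sum_range_succ]
  have e : ∀ a b c : R, a + b - c = (a - c) + b := fun a b c => by ring
  rw [e, ← sum_sub_distrib]
  refine dvd_add (Finset.dvd_sum (fun m _ => ?_)) ?_
  · rw [prod_range_succ, prod_range_succ, I_mul_I (cc_prod _ _ (fun i _ => cc_one_sub (by omega)))
      (cc_one_sub (by omega))]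
    obtain ⟨y, hy⟩ := (pow_dvd_pow (X : R) (show N ≤ 2 * m + 1 + 2 * N by omega)).trans
      (I_one_sub_dvd (show 0 < 2 * m + 1 + 2 * N by omega))
    obtain ⟨z, hz⟩ := pow_dvd_pow (X : R) (show N ≤ 2 * m + 2 + 2 * N by omega)
    have hy' : I (1 - (X : R) ^ (2 * m + 1 + 2 * N)) = 1 + X ^ N * y := by linear_combination hy
    rw [hy', hz]
    set A := ∏ x ∈ range N, (1 + (X : R) ^ (2 * m + 2 + 2 * x))
    set B := I (∏ x ∈ range N, (1 - (X : R) ^ (2 * m + 1 + 2 * x)))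
    exact ⟨X ^ (2 * m + 1) * A * B ^ 2 * (z * (1 + X ^ N * y) ^ 2 + 2 * y + X ^ N * y ^ 2), by ring⟩
  · rw [mul_assoc]
    exact Dvd.dvd.mul_right (pow_dvd_pow _ (by omega)) _

lemma Lim_SG : Lim SG GG := Lim_limR SG_dvd

noncomputable def Ai (m : ℕ) : R := limR (fun N => ∏ j ∈ range N, (1 + (X : R) ^ (2 * m + 2 + 2 * j)))
noncomputable def Bi (m : ℕ) : R := limR (fun N => ∏ j ∈ range N, (1 - (X : R) ^ (2 * m + 1 + 2 * j)))

lemma Lim_Ai (m : ℕ) : Lim (fun N => ∏ j ∈ range N, (1 + (X : R) ^ (2 * m + 2 + 2 * j))) (Ai m) := by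
  apply Lim_prod
  intro n
  rw [add_sub_cancel_left]
  exact pow_dvd_pow _ (by omega)

lemma Lim_Bi (m : ℕ) : Lim (fun N => ∏ j ∈ range N, (1 - (X : R) ^ (2 * m + 1 + 2 * j))) (Bi m) := by
  apply Lim_prod
  intro n
  rw [show (1 : R) - X ^ (2 * m + 1 + 2 * n) - 1 = - X ^ (2 * m + 1 + 2 * n) by ring, dvd_neg]
  exact pow_dvd_pow _ (by omega)

lemma Bi_cc (m : ℕ) : constantCoeff (Bi m) = 1 :=
  (Lim_Bi m).cc (fun N => cc_prod _ _ (fun i _ => cc_one_sub (by omega)))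

lemma Ai_step (m : ℕ) : Ai m = (1 + X ^ (2 * m + 2)) * Ai (m + 1) := by
  refine ((Lim_Ai m).shift 1).unique (((Lim.const (1 + X ^ (2 * m + 2))).mul (Lim_Ai (m + 1))).congr (fun N => ?_))
  rw [prod_range_succ', mul_comm]
  congr 1
  exact prod_congr rfl (fun j _ => by rw [show 2 * (m + 1) + 2 + 2 * j = 2 * m + 2 + 2 * (j + 1) by ring])

lemma Bi_step (m : ℕ) : Bi m = (1 - X ^ (2 * m + 1)) * Bi (m + 1) := by
  refine ((Lim_Bi m).shift 1).unique (((Lim.const (1 - X ^ (2 * m + 1))).mul (Lim_Bi (m + 1))).congr (fun N => ?_))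
  rw [prod_range_succ', mul_comm]
  congr 1
  exact prod_congr rfl (fun j _ => by rw [show 2 * (m + 1) + 1 + 2 * j = 2 * m + 1 + 2 * (j + 1) by ring])

noncomputable def df (r : ℕ) : R := (∏ i ∈ range r, (1 + X ^ (2 * i + 1))) ^ 2

lemma df_cc (r : ℕ) : constantCoeff (df r) = 1 := by
  unfold df
  rw [map_pow, cc_prod _ _ (fun i _ => cc_one_add (by omega)), one_pow]

lemma I_df (r : ℕ) : I (df r) = I (df (r + 1)) * (1 + X ^ (2 * r + 1)) ^ 2 := by
  have h : df (r + 1) = df r * (1 + X ^ (2 * r + 1)) ^ 2 := by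
    unfold df; rw [prod_range_succ]; ring
  have hc : constantCoeff ((1 + (X : R) ^ (2 * r + 1)) ^ 2) = 1 := by
    rw [map_pow, cc_one_add (by omega), one_pow]
  rw [h, I_mul_I (df_cc r) hc, mul_assoc, I_mul hc, mul_one]

noncomputable def Vf (a : R) (S : ℕ) : R :=
  ∑ r ∈ range S, X ^ (r * r) * (∏ i ∈ range (r + 1), (a + X ^ (2 * i + 1))) * I (df (r + 1))

noncomputable def Uf (a : R) (S : ℕ) : R :=
  ∑ r ∈ range S, X ^ ((r + 1) * (r + 1)) * (∏ i ∈ range r, (a + X ^ (2 * i + 1))) * I (df (r + 1))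

lemma VU_tel (a : R) (S : ℕ) : Vf a S - (1 - a) ^ 2 * Uf a S =
    a * (1 - X ^ (S * S) * (∏ i ∈ range S, (a + X ^ (2 * i + 1))) * I (df S)) := by
  induction S with
  | zero => simp [Vf, Uf, df, I_one]
  | succ S ih =>
    unfold Vf Uf at ih ⊢
    rw [sum_range_succ, sum_range_succ, prod_range_succ]
    rw [I_df S] at ih
    rw [show (S + 1) * (S + 1) = S * S + (2 * S + 1) by ring, pow_add]
    linear_combination ih

lemma V_shift (a : R) (S : ℕ) : Vf (a * X ^ 2) S = (1 + X * a) * Uf a S := by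
  unfold Vf Uf
  rw [mul_sum]
  refine sum_congr rfl (fun r _ => ?_)
  rw [prod_range_succ']
  have : ∏ i ∈ range r, (a * X ^ 2 + X ^ (2 * (i + 1) + 1)) = X ^ (2 * r) * ∏ i ∈ range r, (a + X ^ (2 * i + 1)) := by
    have e : ∀ i, a * X ^ 2 + X ^ (2 * (i + 1) + 1) = X ^ 2 * (a + X ^ (2 * i + 1)) := fun i => by ring
    simp only [e]
    rw [prod_mul_distrib, prod_const, card_range, ← pow_mul]
  rw [this, show (r + 1) * (r + 1) = r * r + 2 * r + 1 by ring, pow_succ, pow_add]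
  ring

noncomputable def Vi (m : ℕ) : R := limR (Vf (X ^ (2 * m + 1)))
noncomputable def Ui (m : ℕ) : R := limR (Uf (X ^ (2 * m + 1)))
noncomputable def V0 : R := limR (Vf 0)

lemma Lim_Vf (a : R) : Lim (Vf a) (limR (Vf a)) := by
  apply Lim_sum
  intro r
  rw [mul_assoc]
  exact Dvd.dvd.mul_right (pow_dvd_pow _ (by nlinarith)) _

lemma Lim_Uf (a : R) : Lim (Uf a) (limR (Uf a)) := by
  apply Lim_sum
  intro r
  rw [mul_assoc]
  exact Dvd.dvd.mul_right (pow_dvd_pow _ (by nlinarith)) _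

lemma V_succ (m : ℕ) : Vi (m + 1) = (1 + X ^ (2 * m + 2)) * Ui m := by
  refine (Lim_Vf (X ^ (2 * (m + 1) + 1))).unique (((Lim.const (1 + X ^ (2 * m + 2))).mul (Lim_Uf (X ^ (2 * m + 1)))).congr (fun S => ?_))
  rw [show (X : R) ^ (2 * (m + 1) + 1) = X ^ (2 * m + 1) * X ^ 2 by rw [← pow_add]; ring_nf, V_shift,
    show (X : R) ^ (2 * m + 2) = X * X ^ (2 * m + 1) by rw [← pow_succ']]

lemma V_U (m : ℕ) : Vi m - (1 - X ^ (2 * m + 1)) ^ 2 * Ui m = X ^ (2 * m + 1) := by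
  have h1 := (Lim_Vf (X ^ (2 * m + 1))).sub ((Lim.const ((1 - X ^ (2 * m + 1)) ^ 2)).mul (Lim_Uf (X ^ (2 * m + 1))))
  refine h1.unique (Lim.congr ?_ (fun S => (VU_tel (X ^ (2 * m + 1)) S).symm))
  have h2 : Lim (fun S => X ^ (S * S) * (∏ i ∈ range S, ((X : R) ^ (2 * m + 1) + X ^ (2 * i + 1))) * I (df S)) 0 := by
    apply Lim.of_dvd
    intro S
    rw [mul_assoc]
    exact Dvd.dvd.mul_right (pow_dvd_pow _ (by nlinarith)) _
  simpa using (Lim.const (X ^ (2 * m + 1))).mul ((Lim.const 1).sub h2)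

noncomputable def Pm (m : ℕ) : R := Ai m * I (Bi m) ^ 2

lemma P_tel (m : ℕ) : X ^ (2 * m + 1) * Pm m = Pm m * Vi m - Pm (m + 1) * Vi (m + 1) := by
  have hB : I (Bi (m + 1)) = I (Bi m) * (1 - X ^ (2 * m + 1)) := by
    rw [Bi_step m, I_mul_I (cc_one_sub (by omega)) (Bi_cc (m + 1))]
    have := mul_I (cc_one_sub (show 0 < 2 * m + 1 by omega))
    linear_combination (-(I (Bi (m + 1)))) * this
  have h := V_U m
  rw [V_succ]
  unfold Pm
  rw [hB]
  have hA := Ai_step m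
  linear_combination (-(Ai m * I (Bi m) ^ 2)) * h - (I (Bi m) ^ 2 * (1 - X ^ (2 * m + 1)) ^ 2 * Ui m) * hA

lemma P_sum (N : ℕ) : ∑ m ∈ range N, X ^ (2 * m + 1) * Pm m = Pm 0 * Vi 0 - Pm N * Vi N := by
  induction N with
  | zero => simp
  | succ N ih => rw [sum_range_succ, ih, P_tel]; ring

lemma dvd_prod_sub_one {a : R} (f : ℕ → R) (h : ∀ j, a ∣ f j - 1) (N : ℕ) : a ∣ ∏ j ∈ range N, f j - 1 := by
  induction N with
  | zero => simp
  | succ N ih =>
    rw [prod_range_succ, show (∏ x ∈ range N, f x) * f N - 1 = (∏ x ∈ range N, f x - 1) * f N + (f N - 1) by ring]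
    exact dvd_add (Dvd.dvd.mul_right ih _) (h N)

lemma Lim.dvd {s : ℕ → R} {a b : R} {L : ℕ} (h : Lim s a) (hs : ∀ M, (X : R) ^ L ∣ s M - b) :
    (X : R) ^ L ∣ a - b := by
  obtain ⟨M0, h0⟩ := h L
  have e : a - b = (s M0 - b) - (s M0 - a) := by ring
  rw [e]
  exact dvd_sub (hs M0) (h0 M0 le_rfl)

lemma Lim_Ai_one : Lim Ai 1 := by
  intro L
  refine ⟨L, fun M hM => ?_⟩
  apply (pow_dvd_pow (X : R) hM).trans
  apply (Lim_Ai M).dvd
  intro N
  apply dvd_prod_sub_one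
  intro j
  rw [add_sub_cancel_left]
  exact pow_dvd_pow _ (by omega)

lemma Lim_Bi_one : Lim Bi 1 := by
  intro L
  refine ⟨L, fun M hM => ?_⟩
  apply (pow_dvd_pow (X : R) hM).trans
  apply (Lim_Bi M).dvd
  intro N
  apply dvd_prod_sub_one
  intro j
  rw [show (1 : R) - X ^ (2 * M + 1 + 2 * j) - 1 = - X ^ (2 * M + 1 + 2 * j) by ring, dvd_neg]
  exact pow_dvd_pow _ (by omega)

lemma Lim_Vi : Lim Vi V0 := by
  intro L
  refine ⟨L, fun M hM => ?_⟩
  apply (pow_dvd_pow (X : R) hM).trans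
  have h1 : Lim (fun S => Vf (X ^ (2 * M + 1)) S - Vf 0 S) (Vi M - V0) := (Lim_Vf _).sub (Lim_Vf _)
  have := h1.dvd (b := 0) (L := M) (fun S => ?_)
  · simpa using this
  · rw [sub_zero]
    unfold Vf
    rw [← sum_sub_distrib]
    refine Finset.dvd_sum (fun r _ => ?_)
    have key : ∀ n, (X : R) ^ M ∣ (∏ i ∈ range n, ((X : R) ^ (2 * M + 1) + X ^ (2 * i + 1))) -
        ∏ i ∈ range n, (0 + (X : R) ^ (2 * i + 1)) := by
      intro n
      induction n with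
      | zero => simp
      | succ n ih =>
        rw [prod_range_succ, prod_range_succ]
        obtain ⟨y, hy⟩ := ih
        obtain ⟨z, hz⟩ := pow_dvd_pow (X : R) (show M ≤ 2 * M + 1 by omega)
        refine ⟨y * (X ^ (2 * M + 1) + X ^ (2 * n + 1)) + (∏ i ∈ range n, (0 + (X : R) ^ (2 * i + 1))) * z, ?_⟩
        rw [show (∏ i ∈ range n, ((X : R) ^ (2 * M + 1) + X ^ (2 * i + 1))) =
          X ^ M * y + ∏ i ∈ range n, (0 + (X : R) ^ (2 * i + 1)) by linear_combination hy, hz]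
        ring
    obtain ⟨y, hy⟩ := key (r + 1)
    exact ⟨X ^ (r * r) * y * I (df (r + 1)), by linear_combination (X ^ (r * r) * I (df (r + 1))) * hy⟩

theorem GG_eq : GG = Pm 0 * Vi 0 - V0 := by
  have h1 : Lim (fun N => ∑ m ∈ range N, X ^ (2 * m + 1) * Pm m) (Pm 0 * Vi 0 - V0) := by
    have hP : Lim Pm 1 := by
      have := Lim_Ai_one.mul ((Lim_Bi_one.inv Bi_cc).pow 2)
      rw [I_one, one_pow, one_mul] at this
      exact this
    have := (Lim.const (Pm 0 * Vi 0)).sub (hP.mul Lim_Vi)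
    rw [one_mul] at this
    exact this.congr (fun N => (P_sum N).symm)
  refine Lim_SG.unique ?_
  refine Lim_dom (u := fun N m => X ^ (2 * m + 1) * (∏ j ∈ range N, (1 + X ^ (2 * m + 2 + 2 * j))) *
    I (∏ j ∈ range N, (1 - X ^ (2 * m + 1 + 2 * j))) ^ 2) (v := fun m => X ^ (2 * m + 1) * Pm m) ?_ ?_ h1
  · intro M k
    rw [mul_assoc]
    exact Dvd.dvd.mul_right (pow_dvd_pow _ (by omega)) _
  · intro m
    unfold Pm
    rw [← mul_assoc]
    exact ((Lim.const _).mul (Lim_Ai m)).mul (((Lim_Bi m).inv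
      (fun N => cc_prod _ _ (fun i _ => cc_one_sub (by omega)))).pow 2)

end Run7.h831.QS
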