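import Mathlib
import Pool.Agent.Run7.h831.QS.Gauss
import Pool.Agent.Run7.h831.QS.Tele

set_option linter.unusedSimpArgs false
set_option linter.unusedVariables false

namespace Run7.h831.QS
open PowerSeries Finset

/-! ### the substitution `X ↦ -X` -/

noncomputable abbrev nu : R →+* R := PowerSeries.evalNegHom

lemma coeff_nu (n : ℕ) (f : R) : coeff n (nu f) = (-1) ^ n * coeff n f := by
  unfold nu evalNegHom
  rw [coeff_rescale]

lemma nu_X : nu X = -X := evalNegHom_X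

lemma nu_cc {f : R} (h : constantCoeff f = 1) : constantCoeff (nu f) = 1 := by
  rw [← coeff_zero_eq_constantCoeff_apply, coeff_nu, pow_zero, one_mul,
    coeff_zero_eq_constantCoeff_apply, h]

lemma nu_I {f : R} (h : constantCoeff f = 1) : nu (I f) = I (nu f) := by
  symm
  apply I_unique _ (nu_cc h)
  rw [← map_mul, mul_I h, map_one]

lemma nu_Lim {s : ℕ → R} {a : R} (h : Lim s a) : Lim (fun M => nu (s M)) (nu a) := by
  intro L
  obtain ⟨M0, h0⟩ := h L
  refine ⟨M0, fun M hM => ?_⟩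
  rw [← map_sub]
  obtain ⟨y, hy⟩ := h0 M hM
  rw [hy, map_mul, map_pow, nu_X, neg_pow]
  exact ⟨(-1) ^ L * nu y, by ring⟩

lemma nu_even {f : R} (h : Ev 2 f) : nu f = f := by
  ext n
  rw [coeff_nu]
  rcases Nat.even_or_odd n with he | ho
  · rw [he.neg_one_pow, one_mul]
  · rw [h n (by rw [← even_iff_two_dvd]; exact Nat.not_even_iff_odd.2 ho), mul_zero]

/-! ### the substitution `X ↦ X^d` -/

lemma ex_X (d : ℕ) (hd : d ≠ 0) : ex d hd X = X ^ d := PowerSeries.expand_X d hd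

lemma ex_cc {d : ℕ} (hd : d ≠ 0) {f : R} (h : constantCoeff f = 1) : constantCoeff (ex d hd f) = 1 := by
  rw [PowerSeries.constantCoeff_expand, h]

lemma ex_I {d : ℕ} (hd : d ≠ 0) {f : R} (h : constantCoeff f = 1) : ex d hd (I f) = I (ex d hd f) := by
  symm
  apply I_unique _ (ex_cc hd h)
  rw [← map_mul, mul_I h, map_one]

lemma ex_Lim {d : ℕ} (hd : d ≠ 0) {s : ℕ → R} {a : R} (h : Lim s a) :
    Lim (fun M => ex d hd (s M)) (ex d hd a) := by
  intro L
  obtain ⟨M0, h0⟩ := h L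
  refine ⟨M0, fun M hM => ?_⟩
  rw [← map_sub]
  obtain ⟨y, hy⟩ := h0 M hM
  rw [hy, map_mul, map_pow, ex_X, ← pow_mul]
  refine Dvd.dvd.mul_right (pow_dvd_pow _ ?_) _
  exact Nat.le_mul_of_pos_left L (Nat.pos_of_ne_zero hd)

lemma ex_inj {d : ℕ} (hd : d ≠ 0) {f g : R} (h : ex d hd f = ex d hd g) : f = g := by
  ext n
  have := congrArg (coeff (d * n)) h
  rwa [PowerSeries.coeff_expand_mul, PowerSeries.coeff_expand_mul] at this

noncomputable abbrev e2 : R →ₐ[ℤ] R := ex 2 two_ne_zero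

lemma e2_X_pow (k : ℕ) : e2 (X ^ k) = X ^ (2 * k) := by
  rw [map_pow, ex_X, ← pow_mul]

/-! ### identification of products -/

lemma Cc_eq : Cc = nu Oo := by
  refine Lim_Cc.unique ((nu_Lim Lim_Oo).congr (fun N => ?_))
  rw [map_prod]
  refine prod_congr rfl (fun j _ => ?_)
  rw [map_sub, map_one, map_pow, nu_X, pow_succ, pow_mul, neg_sq, ← pow_mul, pow_succ]
  ring

lemma E2_eq : Ec 2 = e2 (Ec 1) := by
  refine (Lim_Ec two_pos).unique ((ex_Lim two_ne_zero (Lim_Ec one_pos)).congr (fun N => ?_))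
  unfold Qf
  rw [map_prod]
  refine prod_congr rfl (fun j _ => ?_)
  rw [map_sub, map_one, e2_X_pow]
  congr 2
  ring

lemma O2_eq : O2 = e2 Oo := by
  refine Lim_O2.unique ((ex_Lim two_ne_zero Lim_Oo).congr (fun N => ?_))
  unfold Of
  rw [map_prod]
  refine prod_congr rfl (fun j _ => ?_)
  rw [map_sub, map_one, e2_X_pow]
  push_cast; ring

lemma Hh_eq : Hh = e2 Cc := by
  refine Lim_Hh.unique ((ex_Lim two_ne_zero Lim_Cc).congr (fun N => ?_))
  rw [map_prod]
  refine prod_congr rfl (fun j _ => ?_)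
  rw [map_add, map_one, e2_X_pow]
  congr 2
  ring

lemma Oo_Cc : Oo * Cc = O2 := by
  refine (Lim_Oo.mul Lim_Cc).unique (Lim_O2.congr (fun N => ?_))
  unfold Of
  rw [← prod_mul_distrib]
  refine prod_congr rfl (fun j _ => ?_)
  rw [show 2 * (2 * j + 1) = (2 * j + 1) * 2 by ring, pow_mul]
  push_cast; ring

lemma E1_eq : Ec 1 = O2 * Ec 2 := by
  have hc : ∀ k, ∃ M0, ∀ M, M0 ≤ M → k ≤ 2 * M := fun k => ⟨k, fun M hM => by omega⟩
  refine ((Lim_Ec one_pos).comp (fun n => 2 * n) hc).unique ((Lim_O2.mul (Lim_Ec two_pos)).congr (fun N => ?_))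
  induction N with
  | zero => simp [Of, Qf]
  | succ n ih =>
    unfold Of Qf at ih ⊢
    rw [show 2 * (n + 1) = 2 * n + 1 + 1 by ring, prod_range_succ, prod_range_succ, prod_range_succ,
      prod_range_succ, ← ih]
    rw [show 2 * 2 * (n + 1) = 2 * 1 * (2 * n + 1 + 1) by ring, show 2 * 1 * (2 * n + 1) = 2 * (2 * n + 1) by ring]
    push_cast
    ring

lemma Pinf_E1 : Pinf * Ec 1 = Ec 2 := by
  refine (Lim_Pf.mul (Lim_Ec one_pos)).unique ((Lim_Ec two_pos).congr (fun N => ?_))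
  unfold Pf Qf
  rw [← prod_mul_distrib]
  refine prod_congr rfl (fun j _ => ?_)
  rw [show 2 * 2 * (j + 1) = 2 * (j + 1) * 2 by ring, pow_mul, show 2 * 1 * (j + 1) = 2 * (j + 1) by ring]
  ring

noncomputable def H4 : R := limR (fun N => ∏ j ∈ range N, (1 + (X : R) ^ (4 * (j + 1))))

lemma Lim_H4 : Lim (fun N => ∏ j ∈ range N, (1 + (X : R) ^ (4 * (j + 1)))) H4 := by
  apply Lim_prod
  intro n
  rw [add_sub_cancel_left]
  exact pow_dvd_pow _ (by omega)

lemma H4_cc : constantCoeff H4 = 1 :=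
  Lim_H4.cc (fun N => cc_prod _ _ (fun i _ => cc_one_add (by omega)))

lemma H4_Ev : Ev 4 H4 := Ev.lim Lim_H4 (fun N => Ev.prod _ _ (fun i _ =>
  (Ev.one 4).add (Ev.X_pow (dvd_mul_right _ _))))

lemma He_eq : He = 2 * H4 := by
  refine (Lim_He.shift 1).unique (((Lim.const 2).mul Lim_H4).congr (fun N => ?_))
  rw [prod_range_succ']
  simp only [mul_zero, pow_zero]
  ring

lemma Pinf_cc : constantCoeff Pinf = 1 := Lim_Pf.cc Pf_cc

lemma Ec1_Ev : Ev 2 (Ec 1) := Ev.lim (Lim_Ec one_pos) (fun N => Ev.prod _ _ (fun i _ =>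
  (Ev.one 2).sub (Ev.X_pow (by rw [mul_assoc]; exact dvd_mul_right _ _))))

lemma Ec2_Ev : Ev 4 (Ec 2) := Ev.lim (Lim_Ec two_pos) (fun N => Ev.prod _ _ (fun i _ =>
  (Ev.one 4).sub (Ev.X_pow (dvd_mul_right _ _))))

lemma Pinf_Ev : Ev 2 Pinf := Ev.lim Lim_Pf (fun N => Ev.prod _ _ (fun i _ =>
  (Ev.one 2).add (Ev.X_pow (dvd_mul_right _ _))))

/-! ### `φ` -/

noncomputable def us : R := limR (fun n => ∑ k ∈ range n, X ^ (4 * ((k + 1) * (k + 1))))
noncomputable def bs : R := limR (fun n => ∑ k ∈ range n, X ^ (4 * (k * (k + 1))))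

lemma Lim_us : Lim (fun n => ∑ k ∈ range n, X ^ (4 * ((k + 1) * (k + 1)))) us := by
  apply Lim_sum
  intro n
  exact pow_dvd_pow _ (by nlinarith)

lemma Lim_bs : Lim (fun n => ∑ k ∈ range n, X ^ (4 * (k * (k + 1)))) bs := by
  apply Lim_sum
  intro n
  exact pow_dvd_pow _ (by nlinarith)

lemma us_Ev : Ev 4 us := Ev.lim Lim_us (fun N => Ev.sum _ _ (fun i _ => Ev.X_pow (dvd_mul_right _ _)))

lemma bs_Ev : Ev 8 bs := Ev.lim Lim_bs (fun N => Ev.sum _ _ (fun i _ => Ev.X_pow (by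
  obtain ⟨t, ht⟩ := (Nat.even_mul_succ_self i)
  exact ⟨t, by rw [ht]; ring⟩)))

/-- `φ(X)` -/
noncomputable def fp : R := nu Phi

lemma fp_eq : fp = 1 + 2 * us + 2 * X * bs := by
  have hc : ∀ k, ∃ M0, ∀ M, M0 ≤ M → k ≤ 2 * M := fun k => ⟨k, fun M hM => by omega⟩
  have l1 := (nu_Lim Lim_Sg).comp (fun n => 2 * n) hc
  have l2 := ((Lim.const 1).add ((Lim.const 2).mul Lim_us)).add ((Lim.const (2 * X)).mul Lim_bs)
  refine l1.unique (l2.congr (fun n => ?_))
  unfold Sg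
  induction n with
  | zero => simp
  | succ n ih =>
    rw [show 2 * (n + 1) = 2 * n + 1 + 1 by ring, sum_range_succ, sum_range_succ, sum_range_succ, sum_range_succ]
    simp only [map_add, map_mul, map_one, map_ofNat, map_neg, map_pow, nu_X] at ih ⊢
    have e1 : (-1 : R) ^ (2 * n + 1) = -1 := by rw [pow_succ, pow_mul]; norm_num
    have e2' : (-1 : R) ^ (2 * n + 1 + 1) = 1 := by rw [pow_succ, e1]; norm_num
    have e3 : (-X : R) ^ ((2 * n + 1) * (2 * n + 1)) = - (X ^ (4 * (n * (n + 1))) * X) := by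
      rw [show (2 * n + 1) * (2 * n + 1) = 2 * (2 * (n * (n + 1))) + 1 by ring, pow_succ, pow_mul, neg_sq,
        ← pow_mul, show 2 * (2 * (n * (n + 1))) = 4 * (n * (n + 1)) by ring]
      ring
    have e4 : (-X : R) ^ ((2 * n + 1 + 1) * (2 * n + 1 + 1)) = X ^ (4 * ((n + 1) * (n + 1))) := by
      rw [show (2 * n + 1 + 1) * (2 * n + 1 + 1) = 2 * (2 * ((n + 1) * (n + 1))) by ring, pow_mul, neg_sq,
        ← pow_mul, show 2 * (2 * ((n + 1) * (n + 1))) = 4 * ((n + 1) * (n + 1)) by ring]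
    rw [e1, e2', e3, e4]
    linear_combination ih

lemma fm_eq : Phi = 1 + 2 * us - 2 * X * bs := by
  have h : nu (nu Phi) = Phi := by
    ext n
    rw [coeff_nu, coeff_nu, ← mul_assoc, ← mul_pow]
    norm_num
  have h2 : nu fp = Phi := h
  rw [← h2, fp_eq]
  rw [map_add, map_add, map_mul, map_mul, map_mul, map_one, map_ofNat, nu_X,
    nu_even (us_Ev.mono (by norm_num)), nu_even (bs_Ev.mono (by norm_num))]
  ring

lemma fp_prod : fp = Cc ^ 2 * Ec 1 := by
  unfold fp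
  rw [← gauss, map_mul, map_pow, ← Cc_eq, nu_even Ec1_Ev]

/-! ### Frobenius -/

lemma frob (f : R) : ∃ t : R, f ^ 2 = e2 f + 2 * t := by
  have key : PowerSeries.map (Int.castRingHom (ZMod 2)) (f ^ 2 - e2 f) = 0 := by
    rw [map_sub, map_pow, PowerSeries.map_expand]
    have h := MvPowerSeries.map_frobenius_expand (σ := Unit) (R := ZMod 2) 2 two_ne_zero
      (f := PowerSeries.map (Int.castRingHom (ZMod 2)) f)
    rw [ZMod.frobenius_zmod] at h
    rw [sub_eq_zero, ← h]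
    simp
    rfl
  have h2 : ∀ n, (2 : ℤ) ∣ coeff n (f ^ 2 - e2 f) := by
    intro n
    have := congrArg (coeff n) key
    rw [PowerSeries.coeff_map, map_zero] at this
    exact (ZMod.intCast_zmod_eq_zero_iff_dvd _ 2).1 this
  choose g hg using h2
  refine ⟨PowerSeries.mk g, ?_⟩
  have : f ^ 2 - e2 f = 2 * PowerSeries.mk g := by
    ext n
    rw [hg n, show (2 : R) = C 2 by simp, coeff_C_mul, coeff_mk]
  linear_combination this

end Run7.h831.QS
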