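import Mathlib
import Pool.Agent.Run7.h831.QS.Homs

set_option linter.unusedSimpArgs false
set_option linter.unusedVariables false

namespace Run7.h831.QS
open PowerSeries Finset

lemma nu_x (n : ℕ) : nu (X ^ (2 * n + 1)) = - X ^ (2 * n + 1) := by
  rw [map_pow, nu_X, pow_succ, pow_mul, neg_sq, ← pow_mul, pow_succ]
  ring

lemma nu_tri (c n : ℕ) : nu (X ^ (c * (n * (n + 1)))) = X ^ (c * (n * (n + 1))) := by
  obtain ⟨t, ht⟩ := Nat.even_mul_succ_self n
  rw [ht, map_pow, nu_X, show c * (t + t) = 2 * (c * t) by ring, pow_mul, neg_sq, ← pow_mul]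

lemma nu_aw (n : ℕ) : nu (aw n) = (-1) ^ n * X ^ (3 * (n * (n + 1))) * (1 - X ^ (2 * n + 1)) * I (1 + X ^ (2 * n + 1)) := by
  unfold aw
  rw [map_mul, map_mul, map_mul, nu_tri, map_pow, map_neg, map_one, nu_I (cc_one_sub (by omega)), map_add,
    map_sub, map_one, nu_x]
  rw [show (1 : R) + - X ^ (2 * n + 1) = 1 - X ^ (2 * n + 1) by ring,
    show (1 : R) - - X ^ (2 * n + 1) = 1 + X ^ (2 * n + 1) by ring]

lemma nu_ab (n : ℕ) : nu (ab n) = (-1) ^ n * X ^ (2 * (n * (n + 1))) * (1 - X ^ (2 * n + 1)) * I (1 + X ^ (2 * n + 1)) := by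
  unfold ab
  rw [map_mul, map_mul, map_mul, nu_tri, map_pow, map_neg, map_one, nu_I (cc_one_sub (by omega)), map_add,
    map_sub, map_one, nu_x]
  rw [show (1 : R) + - X ^ (2 * n + 1) = 1 - X ^ (2 * n + 1) by ring,
    show (1 : R) - - X ^ (2 * n + 1) = 1 + X ^ (2 * n + 1) by ring]

lemma I_sq_split (n : ℕ) : I (1 - (X : R) ^ (2 * (2 * n + 1))) = I (1 - X ^ (2 * n + 1)) * I (1 + X ^ (2 * n + 1)) := by
  rw [← I_mul_I (cc_one_sub (by omega)) (cc_one_add (by omega))]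
  congr 1
  rw [show 2 * (2 * n + 1) = (2 * n + 1) * 2 by ring, pow_mul]
  ring

lemma e2_I_sub {k : ℕ} (hk : 0 < k) : e2 (I (1 - X ^ k)) = I (1 - X ^ (2 * k)) := by
  rw [ex_I two_ne_zero (cc_one_sub hk), map_sub, map_one, e2_X_pow]

lemma e2_I_add {k : ℕ} (hk : 0 < k) : e2 (I (1 + X ^ k)) = I (1 + X ^ (2 * k)) := by
  rw [ex_I two_ne_zero (cc_one_add hk), map_add, map_one, e2_X_pow]

lemma Aw_even : Aw + nu Aw = 2 * e2 A1 := by
  refine (Lim_Aw.add (nu_Lim Lim_Aw)).unique (((Lim.const 2).mul (ex_Lim two_ne_zero Lim_A1)).congr (fun M => ?_))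
  rw [map_sum, map_sum, mul_sum, ← sum_add_distrib]
  refine sum_congr rfl (fun n _ => ?_)
  have h1 := mul_I (cc_one_sub (show 0 < 2 * n + 1 by omega))
  have h2 := mul_I (cc_one_add (show 0 < 2 * n + 1 by omega))
  rw [nu_aw, a1, aw, map_mul, map_mul, map_mul, e2_I_sub (by omega), I_sq_split, map_pow, map_neg, map_one,
    map_add, map_one, e2_X_pow, e2_X_pow, show 2 * (3 * tri n) = 3 * (n * (n + 1)) by rw [← two_tri]; ring,
    show (X : R) ^ (2 * (2 * n + 1)) = (X ^ (2 * n + 1)) ^ 2 by rw [← pow_mul]; ring_nf]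
  set x : R := X ^ (2 * n + 1)
  linear_combination ((-1) ^ n * X ^ (3 * (n * (n + 1))) * ((1 + x) * I (1 - x))) * h2 +
    ((-1) ^ n * X ^ (3 * (n * (n + 1))) * ((1 - x) * I (1 + x))) * h1

lemma Aw_odd : X * (Aw - nu Aw) = 4 * e2 A2 := by
  refine ((Lim.const X).mul (Lim_Aw.sub (nu_Lim Lim_Aw))).unique (((Lim.const 4).mul (ex_Lim two_ne_zero Lim_A2)).congr (fun M => ?_))
  rw [map_sum, map_sum, mul_sum, ← sum_sub_distrib, mul_sum]
  refine sum_congr rfl (fun n _ => ?_)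
  have h1 := mul_I (cc_one_sub (show 0 < 2 * n + 1 by omega))
  have h2 := mul_I (cc_one_add (show 0 < 2 * n + 1 by omega))
  rw [nu_aw, a2, aw, map_mul, map_mul, e2_I_sub (by omega), I_sq_split, map_pow, map_neg, map_one,
    e2_X_pow, show 2 * (3 * tri n + n + 1) = 3 * (n * (n + 1)) + (2 * n + 1) + 1 by rw [← two_tri]; ring,
    pow_succ, pow_add (X : R) (3 * (n * (n + 1))) (2 * n + 1)]
  set x : R := X ^ (2 * n + 1)
  linear_combination (X * (-1) ^ n * X ^ (3 * (n * (n + 1))) * ((1 + x) * I (1 - x))) * h2 -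
    (X * (-1) ^ n * X ^ (3 * (n * (n + 1))) * ((1 - x) * I (1 + x))) * h1

lemma B1_eq : B1 = e2 (nu Aw) := by
  refine Lim_B1.unique ((ex_Lim two_ne_zero (nu_Lim Lim_Aw)).congr (fun M => ?_))
  rw [map_sum, map_sum]
  refine sum_congr rfl (fun n _ => ?_)
  rw [nu_aw, b1, map_mul, map_mul, map_mul, e2_I_add (by omega), map_pow, map_neg, map_one,
    map_sub, map_one, e2_X_pow, e2_X_pow, show 2 * (3 * (n * (n + 1))) = 6 * (n * (n + 1)) by ring,
    show 2 * (2 * n + 1) = 4 * n + 2 by ring]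

/-- even-index coefficients of `w` -/
noncomputable def Oe : R := PowerSeries.mk fun n => coeff (2 * n) w
/-- odd-index coefficients of `w` -/
noncomputable def Od : R := PowerSeries.mk fun n => if n = 0 then 0 else coeff (2 * n - 1) w

lemma w_even : w + nu w = 2 * e2 Oe := by
  ext n
  rw [map_add, coeff_nu, show (2 : R) * e2 Oe = C 2 * e2 Oe by simp, coeff_C_mul]
  rcases Nat.even_or_odd n with he | ho
  · rw [he.neg_one_pow]
    obtain ⟨m, rfl⟩ := he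
    rw [← two_mul, PowerSeries.coeff_expand_mul, Oe, coeff_mk]
    ring
  · rw [ho.neg_one_pow, PowerSeries.coeff_expand_of_not_dvd 2 two_ne_zero _
      (by rw [← even_iff_two_dvd]; exact Nat.not_even_iff_odd.2 ho)]
    ring

lemma w_odd : X * (w - nu w) = 2 * e2 Od := by
  ext n
  rw [show (2 : R) * e2 Od = C 2 * e2 Od by simp, coeff_C_mul]
  rcases n with _ | k
  · have : coeff 0 (e2 Od) = coeff 0 Od := by
      have := PowerSeries.coeff_expand_mul 2 two_ne_zero Od 0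
      simpa using this
    rw [this, Od, coeff_mk]
    simp
  · rw [coeff_succ_X_mul, map_sub, coeff_nu]
    rcases Nat.even_or_odd k with he | ho
    · rw [he.neg_one_pow, PowerSeries.coeff_expand_of_not_dvd 2 two_ne_zero _
        (by rw [← even_iff_two_dvd]; exact Nat.not_even_iff_odd.2 he.add_one)]
      ring
    · obtain ⟨m, rfl⟩ := ho
      rw [show 2 * m + 1 + 1 = 2 * (m + 1) by ring, PowerSeries.coeff_expand_mul, Od, coeff_mk,
        if_neg (Nat.succ_ne_zero m), show 2 * (m + 1) - 1 = 2 * m + 1 by omega]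
      rw [pow_succ, pow_mul]
      norm_num
      ring

lemma E1_cc : constantCoeff (Ec 1) = 1 := Ec_cc one_pos
lemma E2_cc : constantCoeff (Ec 2) = 1 := Ec_cc two_pos

lemma E1w : Ec 1 * w = Aw := by
  rw [w_eq, ← mul_assoc, mul_I E1_cc, one_mul]

lemma e2_OE : e2 (Oo * Ec 1) = Ec 1 := by
  rw [map_mul, ← O2_eq, ← E2_eq, ← E1_eq]

lemma two_cancel {a b : R} (h : 2 * a = 2 * b) : a = b :=
  mul_left_cancel₀ (show (2 : R) ≠ 0 by
    intro h0
    have := congrArg constantCoeff h0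
    rw [map_ofNat, map_zero] at this
    norm_num at this) h

lemma A1_eq : Oo * Ec 1 * Oe = A1 := by
  apply ex_inj two_ne_zero
  rw [map_mul, e2_OE]
  apply two_cancel
  rw [← Aw_even, ← E1w, map_mul, nu_even Ec1_Ev]
  linear_combination (-(Ec 1)) * w_even

lemma A2_eq : Oo * Ec 1 * Od = 2 * A2 := by
  apply ex_inj two_ne_zero
  rw [map_mul, e2_OE, map_mul, map_ofNat]
  apply two_cancel
  have h := Aw_odd
  rw [← E1w, map_mul, nu_even Ec1_Ev] at h
  linear_combination h - (Ec 1) * w_odd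

lemma B1_eq' : B1 = Ec 2 * e2 (nu w) := by
  rw [B1_eq, ← E1w, map_mul, nu_even Ec1_Ev, map_mul, ← E2_eq]

lemma Cc_cc' : constantCoeff Cc = 1 := Cc_cc

noncomputable def Th1 : R := Ec 1 * Cc * I Oo ^ 3 * I Hh ^ 2
noncomputable def Th2 : R := Ec 1 * Cc * I Oo ^ 3 * I H4 ^ 2

theorem R1 : Oe + X * e2 (nu w) = Th1 := by
  have h := PF1
  rw [← A1_eq, B1_eq'] at h
  have hE : Ec 1 = Oo * Cc * Ec 2 := by rw [Oo_Cc]; exact E1_eq
  have h' := congrArg (algebraMap R K) h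
  have hE' := congrArg (algebraMap R K) hE
  apply aM_inj
  simp only [map_add, map_mul, map_pow, map_one, aM_I E1_cc, aM_I E2_cc, aM_I Cc_cc, aM_I Oo_cc, aM_I Hh_cc, Th1] at h' hE' ⊢
  have n1 := aM_ne Oo_cc
  have n2 := aM_ne Cc_cc
  have n3 := aM_ne E2_cc
  have n4 := aM_ne Hh_cc
  rw [hE'] at h' ⊢
  set o := algebraMap R K Oo
  set c := algebraMap R K Cc
  set f := algebraMap R K (Ec 2)
  set hh := algebraMap R K Hh
  set W := algebraMap R K (e2 (nu w))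
  set OO := algebraMap R K Oe
  set x := algebraMap R K X
  field_simp at h' ⊢
  linear_combination h'

theorem Th1_eq : Th1 = fp ^ 2 * (Ec 2 ^ 2 * I (e2 Phi) ^ 2 * I (e2 fp)) := by
  have hE : Ec 1 = Oo * Cc * Ec 2 := by rw [Oo_Cc]; exact E1_eq
  have h1 : e2 Phi = (Oo * Cc) ^ 2 * Ec 2 := by
    rw [← gauss, map_mul, map_pow, ← O2_eq, ← E2_eq, Oo_Cc]
  have h2 : e2 fp = Hh ^ 2 * Ec 2 := by
    rw [fp_prod, map_mul, map_pow, ← Hh_eq, ← E2_eq]
  have c1 : constantCoeff ((Oo * Cc) ^ 2 * Ec 2) = 1 := by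
    rw [map_mul, map_pow, map_mul, Oo_cc, Cc_cc, E2_cc]; norm_num
  have c2 : constantCoeff (Hh ^ 2 * Ec 2) = 1 := by
    rw [map_mul, map_pow, Hh_cc, E2_cc]; norm_num
  have hE' := congrArg (algebraMap R K) hE
  rw [h1, h2, fp_prod, Th1]
  apply aM_inj
  simp only [map_add, map_mul, map_pow, map_one, aM_I c1, aM_I c2, aM_I E1_cc, aM_I E2_cc, aM_I Cc_cc, aM_I Oo_cc, aM_I Hh_cc] at hE' ⊢
  have n1 := aM_ne Oo_cc
  have n2 := aM_ne Cc_cc
  have n3 := aM_ne E2_cc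
  have n4 := aM_ne Hh_cc
  rw [hE']
  set o := algebraMap R K Oo
  set c := algebraMap R K Cc
  set f := algebraMap R K (Ec 2)
  set hh := algebraMap R K Hh
  field_simp

theorem R2 : ∃ F : R, Ev 4 F ∧ 2 * Od = Th2 - F * Ec 2 * I H4 ^ 2 := by
  obtain ⟨F, hF, h⟩ := PF2
  refine ⟨F, hF, ?_⟩
  have hE : Ec 1 = Oo * Cc * Ec 2 := by rw [Oo_Cc]; exact E1_eq
  have h' := congrArg (algebraMap R K) h
  have hE' := congrArg (algebraMap R K) hE
  have hA := congrArg (algebraMap R K) A2_eq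
  apply aM_inj
  simp only [map_add, map_sub, map_mul, map_pow, map_one, map_ofNat, aM_I E1_cc, aM_I E2_cc, aM_I Cc_cc, aM_I Oo_cc,
    aM_I H4_cc, Th2, He_eq, I_pow Cc_cc] at h' hE' hA ⊢
  have n1 := aM_ne Oo_cc
  have n2 := aM_ne Cc_cc
  have n3 := aM_ne E2_cc
  have n4 := aM_ne H4_cc
  rw [hE'] at h' hA ⊢
  set o := algebraMap R K Oo
  set c := algebraMap R K Cc
  set f := algebraMap R K (Ec 2)
  set hh := algebraMap R K H4
  set A := algebraMap R K A2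
  set OO := algebraMap R K Od
  set ff := algebraMap R K F
  field_simp at h' ⊢
  refine mul_left_cancel₀ (mul_ne_zero n2 n3) ?_
  linear_combination h' + (2 * hh ^ 2) * hA

lemma fpPhi : fp * Phi = (e2 Phi) ^ 2 := by
  have hE : Ec 1 = Oo * Cc * Ec 2 := by rw [Oo_Cc]; exact E1_eq
  have h1 : e2 Phi = (Oo * Cc) ^ 2 * Ec 2 := by
    rw [← gauss, map_mul, map_pow, ← O2_eq, ← E2_eq, Oo_Cc]
  rw [h1, fp_prod, ← gauss, hE]
  ring

lemma Phi_cc : constantCoeff Phi = 1 := by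
  rw [← gauss, map_mul, map_pow, Oo_cc, E1_cc]; norm_num

theorem Th2_eq : Th2 = fp ^ 2 * (e2 fp) ^ 2 * (Ec 2 * I (e2 (e2 Phi)) ^ 4 * I H4 ^ 2) := by
  have hE : Ec 1 = Oo * Cc * Ec 2 := by rw [Oo_Cc]; exact E1_eq
  have h1 : e2 Phi = (Oo * Cc) ^ 2 * Ec 2 := by
    rw [← gauss, map_mul, map_pow, ← O2_eq, ← E2_eq, Oo_Cc]
  have h3 : e2 fp * e2 Phi = e2 (e2 Phi) ^ 2 := by
    rw [← map_mul, fpPhi, map_pow]
  have c3 : constantCoeff (e2 (e2 Phi)) = 1 := ex_cc two_ne_zero (ex_cc two_ne_zero Phi_cc)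
  have c4 : constantCoeff (e2 Phi) = 1 := ex_cc two_ne_zero Phi_cc
  have hE' := congrArg (algebraMap R K) hE
  have h1' := congrArg (algebraMap R K) h1
  have h3' := congrArg (algebraMap R K) h3
  rw [fp_prod, Th2]
  rw [fp_prod] at h3'
  apply aM_inj
  simp only [map_add, map_mul, map_pow, map_one, aM_I c3, aM_I E1_cc, aM_I E2_cc, aM_I Cc_cc, aM_I Oo_cc, aM_I H4_cc] at hE' h1' h3' ⊢
  have n1 := aM_ne Oo_cc
  have n2 := aM_ne Cc_cc
  have n3 := aM_ne E2_cc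
  have n4 := aM_ne H4_cc
  have n5 := aM_ne c3
  rw [hE']
  rw [h1'] at h3'
  set o := algebraMap R K Oo
  set c := algebraMap R K Cc
  set f := algebraMap R K (Ec 2)
  set hh := algebraMap R K H4
  set g := algebraMap R K (e2 (e2 Phi))
  set a := algebraMap R K (e2 Cc)
  set b := algebraMap R K (e2 (Ec 1))
  have hg : g ^ 4 = (a ^ 2 * b) ^ 2 * ((o * c) ^ 2 * f) ^ 2 := by
    rw [show g ^ 4 = (g ^ 2) ^ 2 by ring, ← h3']; ring
  have hinv : (g⁻¹) ^ 4 = (g ^ 4)⁻¹ := by rw [inv_pow]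
  rw [hinv, hg]
  have hne : (a ^ 2 * b) ≠ 0 := by
    intro h0
    rw [h0] at h3'
    apply n5
    have : g ^ 2 = 0 := by rw [← h3']; ring
    exact pow_eq_zero_iff (two_ne_zero) |>.1 this
  have hna : a ≠ 0 := by
    intro h0
    apply hne
    rw [h0]; ring
  have hnb : b ≠ 0 := by
    intro h0
    apply hne
    rw [h0]; ring
  field_simp

/-! ### the `B` part -/

noncomputable def Ae : R := limR (fun M => ∑ n ∈ range M, ae n)

lemma Lim_Ae : Lim (fun M => ∑ n ∈ range M, ae n) Ae := by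
  apply Lim_sum
  intro n
  unfold ae
  obtain ⟨y, hy⟩ : (X : R) ^ n ∣ X ^ (2 * (n * (n + 1))) := pow_dvd_pow _ (by nlinarith)
  rw [hy]
  exact ⟨(-1) ^ n * y * (1 + X ^ (2 * (2 * n + 1))) * I (1 - X ^ (2 * (2 * n + 1))), by ring⟩

noncomputable def ao (n : ℕ) : R := (-1) ^ n * X ^ (2 * (n * (n + 1))) * X ^ (2 * n + 1) * I (1 - X ^ (2 * (2 * n + 1)))
noncomputable def Ao : R := limR (fun M => ∑ n ∈ range M, ao n)

lemma Lim_Ao : Lim (fun M => ∑ n ∈ range M, ao n) Ao := by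
  apply Lim_sum
  intro n
  unfold ao
  obtain ⟨y, hy⟩ : (X : R) ^ n ∣ X ^ (2 * (n * (n + 1))) := pow_dvd_pow _ (by nlinarith)
  rw [hy]
  exact ⟨(-1) ^ n * y * X ^ (2 * n + 1) * I (1 - X ^ (2 * (2 * n + 1))), by ring⟩

lemma Ab_even : Ab + nu Ab = 2 * Ae := by
  refine (Lim_Ab.add (nu_Lim Lim_Ab)).unique (((Lim.const 2).mul Lim_Ae).congr (fun M => ?_))
  rw [map_sum, mul_sum, ← sum_add_distrib]
  refine sum_congr rfl (fun n _ => ?_)
  have h1 := mul_I (cc_one_sub (show 0 < 2 * n + 1 by omega))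
  have h2 := mul_I (cc_one_add (show 0 < 2 * n + 1 by omega))
  rw [nu_ab, ae, ab, I_sq_split,
    show (X : R) ^ (2 * (2 * n + 1)) = (X ^ (2 * n + 1)) ^ 2 by rw [← pow_mul]; ring_nf]
  set x : R := X ^ (2 * n + 1)
  linear_combination ((-1) ^ n * X ^ (2 * (n * (n + 1))) * ((1 + x) * I (1 - x))) * h2 +
    ((-1) ^ n * X ^ (2 * (n * (n + 1))) * ((1 - x) * I (1 + x))) * h1

lemma Ab_odd : Ab - nu Ab = 4 * Ao := by
  refine (Lim_Ab.sub (nu_Lim Lim_Ab)).unique (((Lim.const 4).mul Lim_Ao).congr (fun M => ?_))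
  rw [map_sum, mul_sum, ← sum_sub_distrib]
  refine sum_congr rfl (fun n _ => ?_)
  have h1 := mul_I (cc_one_sub (show 0 < 2 * n + 1 by omega))
  have h2 := mul_I (cc_one_add (show 0 < 2 * n + 1 by omega))
  rw [nu_ab, ao, ab, I_sq_split]
  set x : R := X ^ (2 * n + 1)
  linear_combination ((-1) ^ n * X ^ (2 * (n * (n + 1))) * ((1 + x) * I (1 - x))) * h2 -
    ((-1) ^ n * X ^ (2 * (n * (n + 1))) * ((1 - x) * I (1 + x))) * h1

lemma nu_pre : nu (Pinf * I (Ec 1)) = Pinf * I (Ec 1) := nu_even (Pinf_Ev.mul (Ec1_Ev.inv E1_cc))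

theorem Bs_odd : Bs - nu Bs = 4 * (Pinf * I (Ec 1) * Ao) := by
  rw [Bs_eq, map_mul, nu_pre]
  linear_combination (Pinf * I (Ec 1)) * Ab_odd

theorem Bs_even : Bs + nu Bs = 2 * (Ec 2 ^ 3 * I (e2 Phi) ^ 2) := by
  rw [Bs_eq, map_mul, nu_pre]
  have hA : O2 ^ 2 * I (Ec 2) ^ 2 * Ae = 1 := M5 Lim_Ae
  have hP : Pinf = Ec 2 * I (Ec 1) := by
    rw [← Pinf_E1, mul_assoc, mul_I E1_cc, mul_one]
  have h1 : e2 Phi = O2 ^ 2 * Ec 2 := by
    rw [← gauss, map_mul, map_pow, ← O2_eq, ← E2_eq]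
  have hmain : Pinf * I (Ec 1) * Ae = Ec 2 ^ 3 * I (e2 Phi) ^ 2 := by
    have c4 : constantCoeff (e2 Phi) = 1 := ex_cc two_ne_zero Phi_cc
    have h1' := congrArg (algebraMap R K) h1
    have hE' := congrArg (algebraMap R K) E1_eq
    have hA' := congrArg (algebraMap R K) hA
    rw [hP]
    apply aM_inj
    simp only [map_add, map_mul, map_pow, map_one, aM_I c4, aM_I E1_cc, aM_I E2_cc] at hE' h1' hA' ⊢
    have n1 := aM_ne O2_cc
    have n3 := aM_ne E2_cc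
    rw [h1', hE']
    set o := algebraMap R K O2
    set f := algebraMap R K (Ec 2)
    set a := algebraMap R K Ae
    field_simp at hA' ⊢
    linear_combination hA'
  rw [← hmain]
  linear_combination (Pinf * I (Ec 1)) * Ab_even

/-! ### the generating function -/

lemma Ai0 : Ai 0 = Pinf := by
  refine (Lim_Ai 0).unique (Lim_Pf.congr (fun N => ?_))
  unfold Pf
  refine prod_congr rfl (fun j _ => ?_)
  rw [show 2 * 0 + 2 + 2 * j = 2 * (j + 1) by ring]

lemma Bi0 : Bi 0 = Oo := by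
  refine (Lim_Bi 0).unique (Lim_Oo.congr (fun N => ?_))
  refine prod_congr rfl (fun j _ => ?_)
  rw [show 2 * 0 + 1 + 2 * j = 2 * j + 1 by ring]

lemma nu_Of (m : ℕ) : nu (I (Of 1 1 m ^ 2)) = I (df m) := by
  rw [nu_I (by rw [map_pow, Of_cc one_pos, one_pow]), map_pow]
  unfold df Of
  rw [map_prod]
  congr 2
  refine prod_congr rfl (fun j _ => ?_)
  rw [one_mul, map_sub, map_one, map_mul, nu_x]
  simp

lemma nu_Pf (m : ℕ) : nu (Pf m) = Pf m := by
  apply nu_even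
  exact Ev.prod _ _ (fun i _ => (Ev.one 2).add (Ev.X_pow (dvd_mul_right _ _)))

lemma Vi0 : Vi 0 = 2 * X * nu Bs := by
  refine (Lim_Vf (X ^ (2 * 0 + 1))).unique (((Lim.const (2 * X)).mul (nu_Lim Lim_Bs)).congr (fun M => ?_))
  unfold Vf
  rw [map_sum, mul_sum]
  refine sum_congr rfl (fun r _ => ?_)
  rw [map_mul, map_mul, nu_Of, nu_Pf, show r * (r + 1) = 1 * (r * (r + 1)) by ring, nu_tri]
  have : ∏ i ∈ range (r + 1), ((X : R) ^ (2 * 0 + 1) + X ^ (2 * i + 1)) = X ^ (r + 1) * (2 * Pf r) := by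
    have e : ∀ i, (X : R) ^ (2 * 0 + 1) + X ^ (2 * i + 1) = X * (1 + X ^ (2 * i)) := fun i => by ring
    simp only [e]
    rw [prod_mul_distrib, prod_const, card_range, prod_range_succ']
    unfold Pf
    simp only [mul_zero, pow_zero]
    ring
  rw [this, show 1 * (r * (r + 1)) = r * r + r by ring, pow_add, pow_succ]
  ring

lemma V0_eq : V0 = X * nu w := by
  refine (Lim_Vf 0).unique (((Lim.const X).mul (nu_Lim Lim_w)).congr (fun M => ?_))
  unfold Vf
  rw [map_sum, mul_sum]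
  refine sum_congr rfl (fun r _ => ?_)
  rw [map_mul, nu_Of, nu_tri]
  have : ∀ n, ∏ i ∈ range n, (0 + (X : R) ^ (2 * i + 1)) = X ^ (n * n) := by
    intro n
    induction n with
    | zero => simp
    | succ n ih => rw [prod_range_succ, ih, zero_add, ← pow_add]; ring_nf
  rw [this, show (r + 1) * (r + 1) = r * r + 2 * r + 1 by ring,
    show 2 * (r * (r + 1)) = r * r + (r * r + 2 * r) by ring, pow_succ (X : R) (r * r + 2 * r), pow_add (X : R) (r * r) (r * r + 2 * r)]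
  ring

theorem R4 : GG = 2 * X * (Pinf * I Oo ^ 2 * nu Bs) - X * nu w := by
  rw [GG_eq, Pm, Ai0, Bi0, Vi0, V0_eq]
  ring

lemma pre_eq : Pinf * I Oo ^ 2 = Ec 2 * I Phi := by
  have hP : Pinf = Ec 2 * I (Ec 1) := by
    rw [← Pinf_E1, mul_assoc, mul_I E1_cc, mul_one]
  rw [hP, ← gauss, I_mul_I (by rw [map_pow, Oo_cc, one_pow]) E1_cc, I_pow Oo_cc]
  ring

end Run7.h831.QS
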