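import Mathlib
import Pool.Agent.Run7.h831.QS.Ident

set_option linter.unusedSimpArgs false
set_option linter.unusedVariables false

namespace Run7.h831.QS
open PowerSeries Finset

lemma ev_mul_dvd {d r : ℕ} {m : ℤ} {e f : R} (he : Ev d e) (hf : ∀ n, n % d = r → m ∣ coeff n f) (n : ℕ)
    (hn : n % d = r) : m ∣ coeff n (e * f) := by
  rw [coeff_mul]
  refine Finset.dvd_sum (fun p hp => ?_)
  rw [HasAntidiagonal.mem_antidiagonal] at hp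
  by_cases h1 : d ∣ p.1
  · refine Dvd.dvd.mul_left (hf _ ?_) _
    obtain ⟨t, ht⟩ := h1
    rw [← hn, ← hp, ht]
    simp
  · rw [he _ h1, zero_mul]
    exact dvd_zero _

lemma coeff_X_Ev {d k n : ℕ} {f : R} (hf : Ev d f) (h : ∀ m, n = m + k → ¬ d ∣ m) :
    coeff n (X ^ k * f) = 0 := by
  rw [coeff_X_pow_mul']
  split_ifs with hk
  · exact hf _ (h (n - k) (by omega))
  · rfl

lemma coeff_ofNat_mul (a : ℤ) (n : ℕ) (f : R) : coeff n ((a : R) * f) = a * coeff n f := by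
  rw [show (a : R) = C a by simp, coeff_C_mul]

lemma c2 (n : ℕ) (f : R) : coeff n (2 * f) = 2 * coeff n f := by
  have := coeff_ofNat_mul 2 n f
  simpa using this

lemma c4 (n : ℕ) (f : R) : coeff n (4 * f) = 4 * coeff n f := by
  have := coeff_ofNat_mul 4 n f
  simpa using this

lemma c8 (n : ℕ) (f : R) : coeff n (8 * f) = 8 * coeff n f := by
  have := coeff_ofNat_mul 8 n f
  simpa using this

lemma c16 (n : ℕ) (f : R) : coeff n (16 * f) = 16 * coeff n f := by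
  have := coeff_ofNat_mul 16 n f
  simpa using this

/-! ### mod 4 facts on `φ` -/

lemma Phi_sq : ∃ s : R, Phi ^ 2 = 1 + 4 * s := by
  refine ⟨(us - X * bs) + (us - X * bs) ^ 2, ?_⟩
  rw [fm_eq]; ring

lemma fp_sq : ∃ s : R, fp ^ 2 = 1 + 4 * s := by
  refine ⟨(us + X * bs) + (us + X * bs) ^ 2, ?_⟩
  rw [fp_eq]; ring

lemma fp_cc : constantCoeff fp = 1 := nu_cc Phi_cc

lemma I_Phi4 : ∃ t : R, I Phi = Phi + 4 * t := by
  obtain ⟨s, hs⟩ := Phi_sq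
  have h := mul_I Phi_cc
  exact ⟨- s * I Phi, by linear_combination (-(I Phi)) * hs + Phi * h⟩

lemma e2Phi_cc : constantCoeff (e2 Phi) = 1 := ex_cc two_ne_zero Phi_cc
lemma e2fp_cc : constantCoeff (e2 fp) = 1 := ex_cc two_ne_zero fp_cc

lemma I_e2Phi_sq : ∃ t : R, I (e2 Phi) ^ 2 = 1 + 4 * t := by
  obtain ⟨s, hs⟩ := Phi_sq
  have hs2 := congrArg e2 hs
  rw [map_pow, map_add, map_mul, map_one, map_ofNat] at hs2
  have h := mul_I e2Phi_cc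
  refine ⟨- e2 s * I (e2 Phi) ^ 2, ?_⟩
  linear_combination (-(I (e2 Phi) ^ 2)) * hs2 + (e2 Phi * I (e2 Phi) + 1) * h

lemma I_e2fp4 : ∃ t : R, I (e2 fp) = e2 fp + 4 * t := by
  obtain ⟨s, hs⟩ := fp_sq
  have hs2 := congrArg e2 hs
  rw [map_pow, map_add, map_mul, map_one, map_ofNat] at hs2
  have h := mul_I e2fp_cc
  exact ⟨- e2 s * I (e2 fp), by linear_combination (-(I (e2 fp))) * hs2 + (e2 fp) * h⟩

lemma e2fp_eq : e2 fp = 1 + 2 * e2 us + 2 * X ^ 2 * e2 bs := by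
  rw [fp_eq]
  simp only [map_add, map_mul, map_one, map_ofNat, ex_X]

lemma e2bs_Ev : Ev 16 (e2 bs) := Ev_ex_mul two_ne_zero bs_Ev
lemma e2us_Ev : Ev 8 (e2 us) := Ev_ex_mul two_ne_zero us_Ev
lemma e2E_Ev : Ev 8 (e2 (Ec 2)) := Ev_ex_mul two_ne_zero Ec2_Ev

/-! ### the coefficients of `B` -/

lemma Bs_coeff_odd (n : ℕ) (hn : n % 2 = 1) : (2 : ℤ) ∣ coeff n (nu Bs) := by
  have h := congrArg (coeff n) Bs_odd
  have ho : Odd n := Nat.odd_iff.2 hn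
  rw [map_sub, coeff_nu, ho.neg_one_pow, c4] at h
  rw [coeff_nu, ho.neg_one_pow]
  omega

lemma Bs_coeff_two (n : ℕ) (hn : n % 4 = 2) : (4 : ℤ) ∣ coeff n (nu Bs) := by
  have h := congrArg (coeff n) Bs_even
  have he : Even n := Nat.even_iff.2 (by omega)
  obtain ⟨t, ht⟩ := I_e2Phi_sq
  rw [map_add, coeff_nu, he.neg_one_pow, c2, ht, show Ec 2 ^ 3 * (1 + 4 * t) = Ec 2 ^ 3 + 4 * (Ec 2 ^ 3 * t) by ring,
    map_add, c4, (Ec2_Ev.pow 3) n (by omega)] at h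
  rw [coeff_nu, he.neg_one_pow]
  omega

theorem factA (j : ℕ) : (8 : ℤ) ∣ coeff (4 * j + 3) GG + coeff (4 * j + 2) w := by
  rw [R4, pre_eq, map_sub]
  obtain ⟨t, ht⟩ := I_Phi4
  have e1 : 2 * X * (Ec 2 * I Phi * nu Bs) = X * (2 * ((Ec 2 * (1 + 2 * us)) * nu Bs -
      2 * (X * ((Ec 2 * bs) * nu Bs)) + 4 * (Ec 2 * t * nu Bs))) := by
    rw [ht, fm_eq]; ring
  rw [e1, show 4 * j + 3 = (4 * j + 2) + 1 by ring, coeff_succ_X_mul, coeff_succ_X_mul, c2, map_add, map_sub, c2, c4,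
    coeff_nu]
  have he : Even (4 * j + 2) := Nat.even_iff.2 (by omega)
  rw [he.neg_one_pow]
  have d1 := ev_mul_dvd (Ec2_Ev.mul ((Ev.one 4).add ((Ev.intCast 4 2).mul us_Ev))) Bs_coeff_two (4 * j + 2) (by omega)
  have d2 := ev_mul_dvd (d := 4) (r := 1) (m := 2) (Ec2_Ev.mul (bs_Ev.mono (by norm_num)))
    (fun n hn => Bs_coeff_odd n (by omega)) (4 * j + 1) (by omega)
  rw [show 4 * j + 2 = (4 * j + 1) + 1 by ring] at *
  rw [coeff_succ_X_mul]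
  push_cast at d1
  omega

/-! ### the coefficients of `Θ₁` -/

lemma Z_Ev : Ev 2 (Ec 2 ^ 2 * I (e2 Phi) ^ 2 * I (e2 fp)) :=
  (((Ec2_Ev.mono (by norm_num)).pow 2).mul (((Ev_ex two_ne_zero Phi).inv e2Phi_cc).pow 2)).mul
    ((Ev_ex two_ne_zero fp).inv e2fp_cc)

lemma Th1_odd (j : ℕ) : coeff (2 * j + 1) Th1 =
    4 * coeff (2 * j) (((1 + 2 * us) * bs) * (Ec 2 ^ 2 * I (e2 Phi) ^ 2 * I (e2 fp))) := by
  rw [Th1_eq]
  set Z := Ec 2 ^ 2 * I (e2 Phi) ^ 2 * I (e2 fp) with hZ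
  have hZ2 : Ev 2 Z := Z_Ev
  have e : fp ^ 2 * Z = ((1 + 2 * us) ^ 2 + 4 * X ^ 2 * bs ^ 2) * Z + X * (4 * (((1 + 2 * us) * bs) * Z)) := by
    rw [fp_eq]; ring
  have hA : Ev 2 ((1 + 2 * us) ^ 2 + 4 * X ^ 2 * bs ^ 2) := by
    refine Ev.add (((Ev.one 2).add ((Ev.intCast 2 2).mul (us_Ev.mono (by norm_num)))).pow 2) ?_
    exact ((Ev.intCast 2 4).mul (Ev.X_pow (dvd_refl 2))).mul ((bs_Ev.mono (by norm_num)).pow 2)
  rw [e, map_add, (hA.mul hZ2) (2 * j + 1) (by omega), zero_add, coeff_succ_X_mul, c4]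

lemma b1a (j : ℕ) : (4 : ℤ) ∣ coeff (2 * j + 1) Th1 := by
  rw [Th1_odd]; exact dvd_mul_right _ _

lemma b1b (j : ℕ) (hj : ¬ 4 ∣ j) : (8 : ℤ) ∣ coeff (2 * j + 1) Th1 := by
  rw [Th1_odd]
  obtain ⟨t1, h1⟩ := I_e2Phi_sq
  obtain ⟨t2, h2⟩ := I_e2fp4
  obtain ⟨t3, h3⟩ := frob (Ec 2)
  have e : ((1 + 2 * us) * bs) * (Ec 2 ^ 2 * I (e2 Phi) ^ 2 * I (e2 fp)) = bs * e2 (Ec 2) +
      2 * (us * bs * (Ec 2 ^ 2 * I (e2 Phi) ^ 2 * I (e2 fp)) + bs * t3 * (I (e2 Phi) ^ 2 * I (e2 fp)) +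
        bs * e2 (Ec 2) * (2 * t1 * I (e2 fp) + e2 us + X ^ 2 * e2 bs + 2 * t2)) := by
    rw [h3, h1, h2, e2fp_eq]
    ring
  rw [e, map_add, c2, (bs_Ev.mul e2E_Ev) (2 * j) (by omega)]
  omega

lemma b2 (n : ℕ) : (4 : ℤ) ∣ coeff (8 * n + 6) Th1 := by
  obtain ⟨t1, h1⟩ := I_e2Phi_sq
  obtain ⟨t2, h2⟩ := I_e2fp4
  obtain ⟨t3, h3⟩ := frob (Ec 2)
  obtain ⟨t4, h4⟩ := fp_sq
  have e : Th1 = Ec 2 ^ 2 * (1 + 2 * e2 us) + 2 * (X ^ 2 * (e2 (Ec 2) * e2 bs)) +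
      4 * (t4 * (Ec 2 ^ 2 * I (e2 Phi) ^ 2 * I (e2 fp)) + Ec 2 ^ 2 * t1 * I (e2 fp) + Ec 2 ^ 2 * t2 +
        X ^ 2 * t3 * e2 bs) := by
    rw [Th1_eq, h4, h1, h2]
    rw [show Ec 2 ^ 2 * (1 + 2 * e2 us) + 2 * (X ^ 2 * (e2 (Ec 2) * e2 bs)) =
      Ec 2 ^ 2 * (1 + 2 * e2 us) + 2 * X ^ 2 * e2 bs * (Ec 2 ^ 2 - 2 * t3) by rw [h3]; ring]
    rw [e2fp_eq]
    ring
  rw [e, map_add, map_add, c2, c4]
  have z1 : coeff (8 * n + 6) (Ec 2 ^ 2 * (1 + 2 * e2 us)) = 0 := by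
    have : Ev 4 (Ec 2 ^ 2 * (1 + ((2 : ℤ) : R) * e2 us)) :=
      (Ec2_Ev.pow 2).mul ((Ev.one 4).add ((Ev.intCast 4 2).mul (e2us_Ev.mono (by norm_num))))
    have := this (8 * n + 6) (by omega)
    simpa using this
  have z2 : coeff (8 * n + 6) (X ^ 2 * (e2 (Ec 2) * e2 bs)) = 0 :=
    coeff_X_Ev (d := 8) (e2E_Ev.mul (e2bs_Ev.mono (by norm_num))) (fun m hm => by omega)
  rw [z1, z2]
  omega

/-! ### the coefficients of `Θ₂` -/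

lemma Th2_split : ∃ T0 T1 T2 T3 S : R, Ev 4 T0 ∧ Ev 4 T1 ∧ Ev 4 T2 ∧ Ev 4 T3 ∧ T2 = 8 * S ∧
    Th2 = T0 + X ^ 1 * T1 + X ^ 2 * T2 + X ^ 3 * (16 * T3) := by
  obtain ⟨t, ht⟩ := frob bs
  set Y := Ec 2 * I (e2 (e2 Phi)) ^ 4 * I H4 ^ 2 with hY
  have hc : constantCoeff (e2 (e2 Phi)) = 1 := ex_cc two_ne_zero e2Phi_cc
  have hev : Ev 4 (e2 (e2 Phi)) := Ev_ex_mul (e := 2) two_ne_zero (Ev_ex two_ne_zero Phi)
  have hYe : Ev 4 Y := (Ec2_Ev.mul ((hev.inv hc).pow 4)).mul ((H4_Ev.inv H4_cc).pow 2)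
  set α := 1 + 2 * us with hα
  set α' := 1 + 2 * e2 us with hα'
  set d := e2 bs with hd
  have eα : Ev 4 α := (Ev.one 4).add ((Ev.intCast 4 2).mul us_Ev)
  have eα' : Ev 4 α' := (Ev.one 4).add ((Ev.intCast 4 2).mul (e2us_Ev.mono (by norm_num)))
  have ed : Ev 4 d := e2bs_Ev.mono (by norm_num)
  have eb : Ev 4 bs := bs_Ev.mono (by norm_num)
  have eX : Ev 4 ((X : R) ^ 4) := Ev.X_pow (dvd_refl 4)
  set κ := α' ^ 2 + 4 * X ^ 4 * d ^ 2 with hκ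
  have eκ : Ev 4 κ := (eα'.pow 2).add (((Ev.intCast 4 4).mul eX).mul (ed.pow 2))
  refine ⟨(α ^ 2 * κ + 16 * X ^ 4 * bs ^ 2 * α' * d) * Y, (4 * α * bs * κ) * Y,
    (4 * α ^ 2 * α' * d + 4 * bs ^ 2 * κ) * Y, (α * bs * α' * d) * Y,
    (d + t + (us + us ^ 2) * 2 * (α' * d) + e2 us * d + (e2 us + e2 us ^ 2 + X ^ 4 * d ^ 2) * 2 * bs ^ 2) * Y,
    ?_, ?_, ?_, ?_, ?_, ?_⟩
  · exact (((eα.pow 2).mul eκ).add (((((Ev.intCast 4 16).mul eX).mul (eb.pow 2)).mul eα').mul ed)).mul hYe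
  · exact ((((Ev.intCast 4 4).mul eα).mul eb).mul eκ).mul hYe
  · exact (((((Ev.intCast 4 4).mul (eα.pow 2)).mul eα').mul ed).add
      (((Ev.intCast 4 4).mul (eb.pow 2)).mul eκ)).mul hYe
  · exact ((((eα.mul eb).mul eα').mul ed)).mul hYe
  · rw [hκ, hα, hα']
    linear_combination (4 * Y) * ht
  · rw [Th2_eq, e2fp_eq, fp_eq]
    rw [hκ, hα, hα', hd, hY]
    ring

lemma b3 (n : ℕ) : (8 : ℤ) ∣ coeff (4 * n + 2) Th2 := by
  obtain ⟨T0, T1, T2, T3, S, h0, h1, h2, h3, hS, h⟩ := Th2_split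
  have h3' : Ev 4 (16 * T3) := by simpa using (Ev.intCast 4 16).mul h3
  rw [h, map_add, map_add, map_add, h0 _ (by omega), coeff_X_Ev h1 (fun m hm => by omega),
    coeff_X_Ev h3' (fun m hm => by omega), hS, coeff_X_pow_mul, c8]
  simp

lemma b4 (n : ℕ) : (16 : ℤ) ∣ coeff (4 * n + 3) Th2 := by
  obtain ⟨T0, T1, T2, T3, S, h0, h1, h2, h3, hS, h⟩ := Th2_split
  rw [h, map_add, map_add, map_add, h0 _ (by omega), coeff_X_Ev h1 (fun m hm => by omega),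
    coeff_X_Ev h2 (fun m hm => by omega), coeff_X_pow_mul, c16]
  simp

/-! ### coefficients of `ω` -/

theorem w_step (i : ℕ) : coeff (4 * i + 2) w = coeff (2 * i + 1) Th1 - (-1) ^ i * coeff i w := by
  rw [← R1, map_add, coeff_succ_X_mul, PowerSeries.coeff_expand_mul, coeff_nu, Oe, coeff_mk,
    show 2 * (2 * i + 1) = 4 * i + 2 by ring]
  ring

theorem w_base13 (n : ℕ) : (4 : ℤ) ∣ coeff (16 * n + 12) w := by
  have h := b2 n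
  rw [← R1, map_add, show 8 * n + 6 = (8 * n + 5) + 1 by ring, coeff_succ_X_mul,
    PowerSeries.coeff_expand_of_not_dvd 2 two_ne_zero _ (by omega), Oe, coeff_mk, add_zero,
    show 2 * (8 * n + 5 + 1) = 16 * n + 12 by ring] at h
  exact h

lemma w_odd_coeff (N : ℕ) (hN : ¬ 4 ∣ N) : 2 * coeff (2 * N - 1) w = coeff N Th2 := by
  obtain ⟨F, hF, h⟩ := R2
  have h2 := congrArg (coeff N) h
  have h0 : N ≠ 0 := by rintro rfl; exact hN (dvd_zero 4)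
  rw [c2, map_sub, ((hF.mul Ec2_Ev).mul ((H4_Ev.inv H4_cc).pow 2)) N hN, sub_zero, Od, coeff_mk, if_neg h0] at h2
  exact h2

theorem w_base4 (n : ℕ) : (4 : ℤ) ∣ coeff (8 * n + 3) w := by
  have h := w_odd_coeff (4 * n + 2) (by omega)
  have h2 := b3 n
  rw [← h, show 2 * (4 * n + 2) - 1 = 8 * n + 3 by omega] at h2
  omega

theorem w_base6 (n : ℕ) : (8 : ℤ) ∣ coeff (8 * n + 5) w := by
  have h := w_odd_coeff (4 * n + 3) (by omega)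
  have h2 := b4 n
  rw [← h, show 2 * (4 * n + 3) - 1 = 8 * n + 5 by omega] at h2
  omega

/-- iteration `i ↦ 4 i + 2` -/
def it (i : ℕ) : ℕ → ℕ
  | 0 => i
  | (k + 1) => 4 * it i k + 2

lemma it_eq (i k : ℕ) : 3 * it i k + 2 = 4 ^ k * (3 * i + 2) := by
  induction k with
  | zero => simp [it]
  | succ k ih => rw [it, pow_succ]; linarith

lemma fam4 (i : ℕ) (h : (4 : ℤ) ∣ coeff i w) (k : ℕ) : (4 : ℤ) ∣ coeff (it i k) w := by
  induction k with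
  | zero => exact h
  | succ k ih =>
    rw [it, w_step]
    exact dvd_sub (b1a _) (Dvd.dvd.mul_left ih _)

lemma fam8 (i : ℕ) (hi : ¬ 4 ∣ i) (h : (8 : ℤ) ∣ coeff i w) (k : ℕ) : (8 : ℤ) ∣ coeff (it i k) w ∧ ¬ 4 ∣ it i k := by
  induction k with
  | zero => exact ⟨h, hi⟩
  | succ k ih =>
    refine ⟨?_, by rw [it]; omega⟩
    rw [it, w_step]
    exact dvd_sub (b1b _ ih.2) (Dvd.dvd.mul_left ih.1 _)

lemma GG4 (i : ℕ) (h : (4 : ℤ) ∣ coeff i w) (k : ℕ) : (4 : ℤ) ∣ coeff (4 * it i k + 3) GG := by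
  have h1 := fam4 i h (k + 1)
  rw [it] at h1
  have h2 := factA (it i k)
  omega

lemma GG8 (i : ℕ) (hi : ¬ 4 ∣ i) (h : (8 : ℤ) ∣ coeff i w) (k : ℕ) : (8 : ℤ) ∣ coeff (4 * it i k + 3) GG := by
  have h1 := (fam8 i hi h (k + 1)).1
  rw [it] at h1
  have h2 := factA (it i k)
  omega

lemma four_mod (k : ℕ) : 4 ^ k % 3 = 1 := by
  rw [Nat.pow_mod]; norm_num

theorem main (k : ℕ) (hk : 1 ≤ k) (n : ℕ) :
    (4 : ℤ) ∣ coeff (2 ^ (2 * k + 3) * n + (11 * 4 ^ k + 1) / 3) GG ∧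
    (8 : ℤ) ∣ coeff (2 ^ (2 * k + 3) * n + (17 * 4 ^ k + 1) / 3) GG ∧
    (4 : ℤ) ∣ coeff (2 ^ (2 * k + 4) * n + (38 * 4 ^ k + 1) / 3) GG := by
  obtain ⟨j, rfl⟩ : ∃ j, k = j + 1 := ⟨k - 1, by omega⟩
  have hm := four_mod j
  have p1 : 2 ^ (2 * (j + 1) + 3) = 32 * 4 ^ j := by
    rw [show 2 * (j + 1) + 3 = 2 * j + 5 by ring, pow_add, pow_mul]; norm_num; ring
  have p2 : 2 ^ (2 * (j + 1) + 4) = 64 * 4 ^ j := by
    rw [show 2 * (j + 1) + 4 = 2 * j + 6 by ring, pow_add, pow_mul]; norm_num; ring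
  have p3 : 4 ^ (j + 1) = 4 * 4 ^ j := by rw [pow_succ]; ring
  rw [p1, p2, p3]
  refine ⟨?_, ?_, ?_⟩
  · have h := GG4 (8 * n + 3) (w_base4 n) j
    have e := it_eq (8 * n + 3) j
    have : 32 * 4 ^ j * n + (11 * (4 * 4 ^ j) + 1) / 3 = 4 * it (8 * n + 3) j + 3 := by
      have e' : 4 ^ j * (3 * (8 * n + 3) + 2) = 24 * (4 ^ j * n) + 11 * 4 ^ j := by ring
      have e'' : 32 * 4 ^ j * n = 32 * (4 ^ j * n) := by ring
      rw [e''] ; rw [e'] at e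
      omega
    rw [this]; exact h
  · have h := GG8 (8 * n + 5) (by omega) (w_base6 n) j
    have e := it_eq (8 * n + 5) j
    have : 32 * 4 ^ j * n + (17 * (4 * 4 ^ j) + 1) / 3 = 4 * it (8 * n + 5) j + 3 := by
      have e' : 4 ^ j * (3 * (8 * n + 5) + 2) = 24 * (4 ^ j * n) + 17 * 4 ^ j := by ring
      have e'' : 32 * 4 ^ j * n = 32 * (4 ^ j * n) := by ring
      rw [e''] ; rw [e'] at e
      omega
    rw [this]; exact h
  · have h := GG4 (16 * n + 12) (w_base13 n) j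
    have e := it_eq (16 * n + 12) j
    have : 64 * 4 ^ j * n + (38 * (4 * 4 ^ j) + 1) / 3 = 4 * it (16 * n + 12) j + 3 := by
      have e' : 4 ^ j * (3 * (16 * n + 12) + 2) = 48 * (4 ^ j * n) + 38 * 4 ^ j := by ring
      have e'' : 64 * 4 ^ j * n = 64 * (4 ^ j * n) := by ring
      rw [e''] ; rw [e'] at e
      omega
    rw [this]; exact h

end Run7.h831.QS
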